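import Mathlib

set_option autoImplicit false

open Finset

namespace Pool.Agent.H587.PD

/-- separated points in an interval -/
lemma card_le_of_sep {ι : Type} (T : Finset ι) (φ : ι → ℝ) (a ℓ δ : ℝ) (hδ : 0 < δ)
    (h1 : ∀ i ∈ T, a ≤ φ i ∧ φ i ≤ a + ℓ)
    (h2 : ∀ i ∈ T, ∀ j ∈ T, i ≠ j → δ ≤ |φ i - φ j|) (hℓ : 0 ≤ ℓ) : (T.card : ℝ) ≤ ℓ / δ + 1 := by
  have h3 : T.card ≤ (range (⌊ℓ / δ⌋₊ + 1)).card := by
    apply card_le_card_of_injOn (fun i => ⌊(φ i - a) / δ⌋₊)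
    · intro i hi
      have h4 := h1 i hi
      simp only [coe_range, Set.mem_Iio, Nat.lt_succ_iff]
      apply Nat.floor_le_floor
      gcongr
      linarith
    · intro i hi j hj hij
      by_contra hne
      have h4 := h2 i hi j hj hne
      have h5 := h1 i hi
      have h6 := h1 j hj
      have h7 : 0 ≤ (φ i - a) / δ := by
        apply div_nonneg _ hδ.le; linarith
      have h8 : 0 ≤ (φ j - a) / δ := by
        apply div_nonneg _ hδ.le; linarith
      have h9 := Nat.floor_le h7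
      have h10 := Nat.floor_le h8
      have h11 := Nat.lt_floor_add_one ((φ i - a) / δ)
      have h12 := Nat.lt_floor_add_one ((φ j - a) / δ)
      simp only at hij
      rw [hij] at h9 h11
      have h13 : |(φ i - a) / δ - (φ j - a) / δ| < 1 := by
        rw [abs_lt]; constructor <;> linarith
      have h14 : (φ i - a) / δ - (φ j - a) / δ = (φ i - φ j) / δ := by ring
      rw [h14, abs_div, abs_of_pos hδ, div_lt_one hδ] at h13
      linarith
  rw [card_range] at h3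
  have h4 : (T.card : ℝ) ≤ ((⌊ℓ / δ⌋₊ + 1 : ℕ) : ℝ) := by exact_mod_cast h3
  have h5 := Nat.floor_le (show 0 ≤ ℓ / δ by positivity)
  push_cast at h4
  linarith

/-- the second coordinate of the vector of `v = (b, g)` -/
def rho (P W : ℕ) (v : ℕ × ℤ) : ℤ := v.2 * P - v.1 * W

/-- the maximum norm -/
def nv (P W : ℕ) (v : ℕ × ℤ) : ℕ := max v.1 (rho P W v).natAbs

/-- coprime pairs with a small vector -/
noncomputable def VV (P W X : ℕ) : Finset (ℕ × ℤ) :=
  ((Icc 1 X) ×ˢ (Icc (-(2 * X : ℤ)) (2 * X))).filter (fun v => Nat.Coprime v.1 v.2.natAbs ∧ nv P W v ≤ X)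

lemma mem_VV (P W X : ℕ) (hP : 1 ≤ P) (hW : W ≤ P) (v : ℕ × ℤ) :
    v ∈ VV P W X ↔ 1 ≤ v.1 ∧ Nat.Coprime v.1 v.2.natAbs ∧ nv P W v ≤ X := by
  unfold VV
  simp only [mem_filter, mem_product, mem_Icc]
  constructor
  · rintro ⟨⟨⟨h1, _⟩, _⟩, h2, h3⟩
    exact ⟨h1, h2, h3⟩
  · rintro ⟨h1, h2, h3⟩
    have h4 : v.1 ≤ X := (le_max_left _ _).trans h3
    have h5 : (rho P W v).natAbs ≤ X := (le_max_right _ _).trans h3
    have h6 : |rho P W v| ≤ X := by
      rw [Int.abs_eq_natAbs]; exact_mod_cast h5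
    rw [abs_le] at h6
    unfold rho at h6
    have hP' : (1 : ℤ) ≤ P := by exact_mod_cast hP
    have hW' : (W : ℤ) ≤ P := by exact_mod_cast hW
    have hW0 : (0 : ℤ) ≤ W := by positivity
    have h4' : (v.1 : ℤ) ≤ X := by exact_mod_cast h4
    have h40 : (0 : ℤ) ≤ v.1 := by positivity
    have hX0 : (0 : ℤ) ≤ X := by positivity
    refine ⟨⟨⟨h1, h4⟩, ?_, ?_⟩, h2, h3⟩
    · by_contra hc
      push Not at hc
      have h7 : v.2 * P ≤ (-(2 * X : ℤ) - 1) * P := by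
        apply mul_le_mul_of_nonneg_right _ (by linarith); omega
      nlinarith [h6.1, mul_nonneg h40 hW0, mul_nonneg hX0 (show (0:ℤ) ≤ P by linarith)]
    · by_contra hc
      push Not at hc
      have h7 : ((2 * X : ℤ) + 1) * P ≤ v.2 * P := by
        apply mul_le_mul_of_nonneg_right _ (by linarith); omega
      have h8 : (v.1 : ℤ) * W ≤ X * P := by
        apply mul_le_mul h4' hW' hW0 hX0
      nlinarith [h6.2, mul_nonneg hX0 (show (0:ℤ) ≤ P - 1 by linarith)]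

/-- the determinant of two different coprime pairs -/
lemma det_ne (v w : ℕ × ℤ) (hv : 1 ≤ v.1) (hw : 1 ≤ w.1) (hvc : Nat.Coprime v.1 v.2.natAbs)
    (hwc : Nat.Coprime w.1 w.2.natAbs) (hne : v ≠ w) : v.2 * w.1 - w.2 * v.1 ≠ 0 := by
  intro h
  apply hne
  have h1 : v.2 * (w.1 : ℤ) = w.2 * v.1 := by linarith
  have hvc' : IsCoprime (v.1 : ℤ) v.2 := by
    rw [Int.isCoprime_iff_gcd_eq_one, Int.gcd_eq_natAbs]; simpa using hvc
  have hwc' : IsCoprime (w.1 : ℤ) w.2 := by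
    rw [Int.isCoprime_iff_gcd_eq_one, Int.gcd_eq_natAbs]; simpa using hwc
  have h2 : (v.1 : ℤ) ∣ w.1 := by
    have : (v.1 : ℤ) ∣ v.2 * w.1 := by rw [h1]; exact dvd_mul_left _ _
    exact hvc'.dvd_of_dvd_mul_left this
  have h3 : (w.1 : ℤ) ∣ v.1 := by
    have : (w.1 : ℤ) ∣ w.2 * v.1 := by rw [← h1]; exact dvd_mul_left _ _
    exact hwc'.dvd_of_dvd_mul_left this
  have h4 : v.1 = w.1 := by
    apply Nat.dvd_antisymm
    · exact_mod_cast h2
    · exact_mod_cast h3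
  have h5 : v.2 = w.2 := by
    rw [h4] at h1
    have : (w.1 : ℤ) ≠ 0 := by
      have : (1 : ℤ) ≤ w.1 := by exact_mod_cast hw
      omega
    exact mul_right_cancel₀ this h1
  exact Prod.ext h4 h5

lemma det_ge (v w : ℕ × ℤ) (hv : 1 ≤ v.1) (hw : 1 ≤ w.1) (hvc : Nat.Coprime v.1 v.2.natAbs)
    (hwc : Nat.Coprime w.1 w.2.natAbs) (hne : v ≠ w) : (1 : ℝ) ≤ |(v.2 : ℝ) * w.1 - w.2 * v.1| := by
  have h1 := det_ne v w hv hw hvc hwc hne
  have h2 : (1 : ℤ) ≤ |v.2 * w.1 - w.2 * v.1| := Int.one_le_abs h1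
  exact_mod_cast h2

/-- distinct fractions are separated -/
lemma frac_sep (v w : ℕ × ℤ) (hv : 1 ≤ v.1) (hw : 1 ≤ w.1) (hvc : Nat.Coprime v.1 v.2.natAbs)
    (hwc : Nat.Coprime w.1 w.2.natAbs) (hne : v ≠ w) :
    1 / ((v.1 : ℝ) * w.1) ≤ |(v.2 : ℝ) / v.1 - w.2 / w.1| := by
  have hv' : (0 : ℝ) < v.1 := by exact_mod_cast hv
  have hw' : (0 : ℝ) < w.1 := by exact_mod_cast hw
  have h1 : (v.2 : ℝ) / v.1 - w.2 / w.1 = (v.2 * w.1 - w.2 * v.1) / (v.1 * w.1) := by
    field_simp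
  rw [h1, abs_div, abs_of_pos (show (0 : ℝ) < v.1 * w.1 by positivity)]
  have := det_ge v w hv hw hvc hwc hne
  gcongr

lemma frac_sep' (v w : ℕ × ℤ) (Y : ℝ) (hv : 1 ≤ v.1) (hw : 1 ≤ w.1) (hvc : Nat.Coprime v.1 v.2.natAbs)
    (hwc : Nat.Coprime w.1 w.2.natAbs) (hne : v ≠ w) (hvY : (v.1 : ℝ) ≤ Y) (hwY : (w.1 : ℝ) ≤ Y) :
    1 / Y ^ 2 ≤ |(v.2 : ℝ) / v.1 - w.2 / w.1| := by
  have hv' : (0 : ℝ) < v.1 := by exact_mod_cast hv
  have hw' : (0 : ℝ) < w.1 := by exact_mod_cast hw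
  refine le_trans ?_ (frac_sep v w hv hw hvc hwc hne)
  apply one_div_le_one_div_of_le (by positivity)
  rw [sq]
  apply mul_le_mul hvY hwY hw'.le (hv'.le.trans hvY)

/-- the number of the small vectors -/
lemma card_VV (P W X : ℕ) (hP : 1 ≤ P) (hW : W ≤ P) (hX : P ≤ X ^ 2) :
    ((VV P W X).card : ℝ) ≤ 6 * (X : ℝ) ^ 2 / P := by
  classical
  have hP' : (0 : ℝ) < P := by exact_mod_cast hP
  have hX' : (P : ℝ) ≤ (X : ℝ) ^ 2 := by exact_mod_cast hX
  have hX0 : (0 : ℝ) < (X : ℝ) ^ 2 := lt_of_lt_of_le hP' hX'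
  have hX1 : (0 : ℝ) < X := by
    rcases Nat.eq_zero_or_pos X with h | h
    · subst h; simp at hX0
    · exact_mod_cast h
  set T1 := (VV P W X).filter (fun v => (rho P W v).natAbs ≤ v.1) with hT1
  set T2 := (VV P W X).filter (fun v => ¬ (rho P W v).natAbs ≤ v.1) with hT2
  have hdet : ∀ v w : ℕ × ℤ, (rho P W v : ℝ) * w.1 - rho P W w * v.1 = P * ((v.2 : ℝ) * w.1 - w.2 * v.1) := by
    intro v w
    unfold rho
    push_cast
    ring
  have hδ : (0 : ℝ) < P / (X : ℝ) ^ 2 := by positivity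
  have hc1 : (T1.card : ℝ) ≤ 2 / (P / (X : ℝ) ^ 2) + 1 := by
    apply card_le_of_sep T1 (fun v => (rho P W v : ℝ) / v.1) (-1) 2 _ hδ
    · intro v hv
      rw [hT1, mem_filter, mem_VV P W X hP hW] at hv
      obtain ⟨⟨h1, h2, h3⟩, h4⟩ := hv
      have hb : (0 : ℝ) < v.1 := by exact_mod_cast h1
      have h5 : |(rho P W v : ℝ)| ≤ v.1 := by
        have : |rho P W v| ≤ v.1 := by rw [Int.abs_eq_natAbs]; exact_mod_cast h4
        exact_mod_cast this
      rw [abs_le] at h5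
      constructor
      · rw [le_div_iff₀ hb]; linarith
      · rw [div_le_iff₀ hb]; linarith
    · intro v hv w hw hne
      rw [hT1, mem_filter, mem_VV P W X hP hW] at hv hw
      obtain ⟨⟨h1, h2, h3⟩, h4⟩ := hv
      obtain ⟨⟨k1, k2, k3⟩, k4⟩ := hw
      have hb : (0 : ℝ) < v.1 := by exact_mod_cast h1
      have hb' : (0 : ℝ) < w.1 := by exact_mod_cast k1
      have e1 : (rho P W v : ℝ) / v.1 - rho P W w / w.1 = P * ((v.2 : ℝ) * w.1 - w.2 * v.1) / (v.1 * w.1) := by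
        rw [← hdet v w]; field_simp
      rw [e1, abs_div, abs_mul, abs_of_pos hP', abs_of_pos (show (0 : ℝ) < v.1 * w.1 by positivity)]
      have e2 := det_ge v w h1 k1 h2 k2 hne
      have e3 : (v.1 : ℝ) ≤ X := by exact_mod_cast (le_max_left _ _).trans h3
      have e4 : (w.1 : ℝ) ≤ X := by exact_mod_cast (le_max_left _ _).trans k3
      have e5 : (v.1 : ℝ) * w.1 ≤ X ^ 2 := by
        rw [sq]; exact mul_le_mul e3 e4 hb'.le hX1.le
      calc (P : ℝ) / X ^ 2 ≤ P / (v.1 * w.1) := by gcongr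
        _ = P * 1 / (v.1 * w.1) := by ring
        _ ≤ _ := by gcongr
    · norm_num
  have hc2 : (T2.card : ℝ) ≤ 2 / (P / (X : ℝ) ^ 2) + 1 := by
    apply card_le_of_sep T2 (fun v => (v.1 : ℝ) / rho P W v) (-1) 2 _ hδ
    · intro v hv
      rw [hT2, mem_filter, mem_VV P W X hP hW] at hv
      obtain ⟨⟨h1, h2, h3⟩, h4⟩ := hv
      push Not at h4
      have hb : (0 : ℝ) < v.1 := by exact_mod_cast h1
      have h5 : (v.1 : ℝ) < |(rho P W v : ℝ)| := by
        have : (v.1 : ℤ) < |rho P W v| := by rw [Int.abs_eq_natAbs]; exact_mod_cast h4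
        exact_mod_cast this
      have h6 : |(v.1 : ℝ) / rho P W v| ≤ 1 := by
        rw [abs_div, abs_of_pos hb, div_le_one (by linarith)]
        exact h5.le
      rw [abs_le] at h6
      constructor <;> linarith
    · intro v hv w hw hne
      rw [hT2, mem_filter, mem_VV P W X hP hW] at hv hw
      obtain ⟨⟨h1, h2, h3⟩, h4⟩ := hv
      obtain ⟨⟨k1, k2, k3⟩, k4⟩ := hw
      push Not at h4 k4
      have hb : (0 : ℝ) < v.1 := by exact_mod_cast h1
      have hb' : (0 : ℝ) < w.1 := by exact_mod_cast k1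
      have h5 : (v.1 : ℝ) < |(rho P W v : ℝ)| := by
        have : (v.1 : ℤ) < |rho P W v| := by rw [Int.abs_eq_natAbs]; exact_mod_cast h4
        exact_mod_cast this
      have k5 : (w.1 : ℝ) < |(rho P W w : ℝ)| := by
        have : (w.1 : ℤ) < |rho P W w| := by rw [Int.abs_eq_natAbs]; exact_mod_cast k4
        exact_mod_cast this
      have h6 : |(rho P W v : ℝ)| ≤ X := by
        have : |rho P W v| ≤ X := by rw [Int.abs_eq_natAbs]; exact_mod_cast (le_max_right _ _).trans h3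
        exact_mod_cast this
      have k6 : |(rho P W w : ℝ)| ≤ X := by
        have : |rho P W w| ≤ X := by rw [Int.abs_eq_natAbs]; exact_mod_cast (le_max_right _ _).trans k3
        exact_mod_cast this
      have hr : (rho P W v : ℝ) ≠ 0 := by
        intro h; rw [h, abs_zero] at h5; linarith
      have hr' : (rho P W w : ℝ) ≠ 0 := by
        intro h; rw [h, abs_zero] at k5; linarith
      have e1 : (v.1 : ℝ) / rho P W v - w.1 / rho P W w =
          -(P * ((v.2 : ℝ) * w.1 - w.2 * v.1)) / (rho P W v * rho P W w) := by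
        rw [← hdet v w]; field_simp; ring
      rw [e1, abs_div, abs_neg, abs_mul, abs_of_pos hP', abs_mul]
      have e2 := det_ge v w h1 k1 h2 k2 hne
      have e5 : |(rho P W v : ℝ)| * |(rho P W w : ℝ)| ≤ X ^ 2 := by
        rw [sq]; exact mul_le_mul h6 k6 (abs_nonneg _) hX1.le
      have e6 : 0 < |(rho P W v : ℝ)| * |(rho P W w : ℝ)| := by positivity
      calc (P : ℝ) / X ^ 2 ≤ P / (|(rho P W v : ℝ)| * |(rho P W w : ℝ)|) := by gcongr
        _ = P * 1 / (|(rho P W v : ℝ)| * |(rho P W w : ℝ)|) := by ring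
        _ ≤ _ := by gcongr
    · norm_num
  have hsum : (VV P W X).card = T1.card + T2.card := by
    rw [hT1, hT2]
    exact (card_filter_add_card_filter_not _).symm
  have h1 : (2 : ℝ) / (P / (X : ℝ) ^ 2) = 2 * X ^ 2 / P := by field_simp
  rw [h1] at hc1 hc2
  have h2 : (1 : ℝ) ≤ X ^ 2 / P := by rw [le_div_iff₀ hP']; linarith
  rw [hsum]
  push_cast
  have h3 : 6 * (X : ℝ) ^ 2 / P = 2 * X ^ 2 / P + 2 * X ^ 2 / P + 2 * (X ^ 2 / P) := by ring
  rw [h3]
  linarith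

end Pool.Agent.H587.PD
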