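import Mathlib
import Pool.Agent.H587.PD.Sep

set_option autoImplicit false

open Finset

namespace Pool.Agent.H587.PD

/-- the potential: the sum of the inverse lengths of the short vectors -/
noncomputable def ff (P W X : ℕ) : ℝ := ∑ v ∈ VV P W X, (X : ℝ) / nv P W v

lemma ff_nonneg (P W X : ℕ) : 0 ≤ ff P W X := Finset.sum_nonneg fun v _ => by positivity

lemma count_A (p : ℕ) (hp : p.Prime) (s e : ℕ) (he : e ≤ 2 * s) (b : ℕ) (g : ℤ)
    (hbg : Nat.Coprime b g.natAbs) :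
    ((range (p ^ (2 * s))).filter (fun A : ℕ => ((p : ℤ) ^ (2 * s)) ∣ (p : ℤ) ^ e * (g + b * A))).card ≤ p ^ e := by
  have hp0 : (p : ℤ) ≠ 0 := by exact_mod_cast hp.ne_zero
  have hpe0 : (p : ℤ) ^ e ≠ 0 := pow_ne_zero _ hp0
  have hpp : Prime (p : ℤ) := Nat.prime_iff_prime_int.1 hp
  have hsplit : (p : ℤ) ^ (2 * s) = (p : ℤ) ^ e * (p : ℤ) ^ (2 * s - e) := by
    rw [← pow_add]; congr 1; omega
  have key : ∀ A : ℕ, ((p : ℤ) ^ (2 * s)) ∣ (p : ℤ) ^ e * (g + b * A) → ((p : ℤ) ^ (2 * s - e)) ∣ (g + b * A) := by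
    intro A h
    rw [hsplit] at h
    exact Int.dvd_of_mul_dvd_mul_left hpe0 h
  rcases Nat.lt_or_ge e (2 * s) with h1 | h1
  · -- e < 2 s
    have hpos : 0 < 2 * s - e := by omega
    by_cases hpb : p ∣ b
    · -- no A
      have hempty : (range (p ^ (2 * s))).filter
          (fun A : ℕ => ((p : ℤ) ^ (2 * s)) ∣ (p : ℤ) ^ e * (g + b * A)) = ∅ := by
        rw [filter_eq_empty_iff]
        intro A _ hA
        have h2 := key A hA
        have h3 : (p : ℤ) ∣ g + b * A := (dvd_pow_self _ hpos.ne').trans h2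
        have h4 : (p : ℤ) ∣ b := by exact_mod_cast hpb
        have h5 : (p : ℤ) ∣ g := by
          have := dvd_sub h3 (h4.mul_right (A : ℤ))
          simpa using this
        have h6 : p ∣ g.natAbs := Int.natCast_dvd.1 h5
        have h7 : p ∣ Nat.gcd b g.natAbs := Nat.dvd_gcd hpb h6
        rw [hbg] at h7
        exact hp.one_lt.ne' (Nat.dvd_one.1 h7)
      rw [hempty]
      simp
    · have hcop : IsCoprime ((p : ℤ) ^ (2 * s - e)) b := by
        apply IsCoprime.pow_left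
        rw [Int.isCoprime_iff_gcd_eq_one, Int.gcd_eq_natAbs]
        simpa using (hp.coprime_iff_not_dvd.2 hpb)
      have hM : 0 < p ^ (2 * s - e) := pow_pos hp.pos _
      have h2 : ((range (p ^ (2 * s))).filter
          (fun A : ℕ => ((p : ℤ) ^ (2 * s)) ∣ (p : ℤ) ^ e * (g + b * A))).card ≤ (range (p ^ e)).card := by
        apply card_le_card_of_injOn (fun A => A / p ^ (2 * s - e))
        · intro A hA
          simp only [coe_filter, mem_range, Set.mem_ofPred_eq] at hA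
          simp only [coe_range, Set.mem_Iio]
          rw [Nat.div_lt_iff_lt_mul hM, ← pow_add]
          have : e + (2 * s - e) = 2 * s := by omega
          rw [this]
          exact hA.1
        · intro A hA A' hA' hAA
          simp only [coe_filter, mem_range, Set.mem_ofPred_eq] at hA hA'
          have h3 := key A hA.2
          have h4 := key A' hA'.2
          have h5 : ((p : ℤ) ^ (2 * s - e)) ∣ (b : ℤ) * ((A : ℤ) - A') := by
            have := dvd_sub h3 h4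
            have e1 : (g + (b : ℤ) * A) - (g + (b : ℤ) * A') = (b : ℤ) * ((A : ℤ) - A') := by ring
            rwa [e1] at this
          have h6 : ((p : ℤ) ^ (2 * s - e)) ∣ ((A : ℤ) - A') := hcop.dvd_of_dvd_mul_left h5
          have h7 : A' ≡ A [MOD p ^ (2 * s - e)] := by
            rw [Nat.modEq_iff_dvd]
            push_cast
            exact h6
          simp only at hAA
          have h8 := Nat.div_add_mod A (p ^ (2 * s - e))
          have h9 := Nat.div_add_mod A' (p ^ (2 * s - e))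
          rw [← h8, ← h9, hAA, h7]
      rwa [card_range] at h2
  · have h2 : e = 2 * s := by omega
    refine (card_filter_le _ _).trans ?_
    rw [card_range, h2]

/-- the data of a vector of the finer lattice, in the coarser lattice -/
lemma descend (p : ℕ) (hp : p.Prime) (s P W A b : ℕ) (a : ℤ) (hb : 1 ≤ b) (hab : Nat.Coprime b a.natAbs)
    (g : ℤ) (hg : g = a * (p : ℤ) ^ (2 * s) - b * A) (d : ℕ) (hd : d = Nat.gcd b g.natAbs) :
    d = p ^ (Nat.log p d) ∧ Nat.log p d ≤ 2 * s ∧ b = d * (b / d) ∧ g = d * (g / d) ∧ 1 ≤ b / d ∧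
      Nat.Coprime (b / d) (g / d).natAbs ∧
      nv (P * p ^ (2 * s)) (A * P + W) (b, a) = d * nv P W (b / d, g / d) := by
  have hdpos : 0 < d := by rw [hd]; exact Nat.gcd_pos_of_pos_left _ hb
  have hdb : d ∣ b := by rw [hd]; exact Nat.gcd_dvd_left _ _
  have hdg : (d : ℤ) ∣ g := by
    rw [Int.natCast_dvd, hd]; exact Nat.gcd_dvd_right _ _
  have hdaR : (d : ℤ) ∣ a * (p : ℤ) ^ (2 * s) := by
    have h1 : (d : ℤ) ∣ (b : ℤ) * A := by
      have : (d : ℤ) ∣ (b : ℤ) := by exact_mod_cast hdb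
      exact this.mul_right _
    have h2 := dvd_add hdg h1
    rw [hg] at h2
    simpa using h2
  have hda : IsCoprime (d : ℤ) a := by
    rw [Int.isCoprime_iff_gcd_eq_one, Int.gcd_eq_natAbs]
    simpa using Nat.Coprime.coprime_dvd_left hdb hab
  have hdR : (d : ℤ) ∣ (p : ℤ) ^ (2 * s) := hda.dvd_of_dvd_mul_left hdaR
  have hdR' : d ∣ p ^ (2 * s) := by exact_mod_cast hdR
  obtain ⟨e, he, hde⟩ := (Nat.dvd_prime_pow hp).1 hdR'
  have hlog : Nat.log p d = e := by rw [hde, Nat.log_pow hp.one_lt]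
  have hb2 : b = d * (b / d) := (Nat.mul_div_cancel' hdb).symm
  have hg2 : g = d * (g / d) := (Int.mul_ediv_cancel' hdg).symm
  have hcop : Nat.Coprime (b / d) (g / d).natAbs := by
    have h1 : (g / (d : ℤ)).natAbs = g.natAbs / d := by
      rw [Int.natAbs_ediv_of_dvd hdg]
      simp
    rw [h1, hd]
    apply Nat.coprime_div_gcd_div_gcd
    rw [← hd]; exact hdpos
  refine ⟨by rw [hlog]; exact hde, by rw [hlog]; exact he, hb2, hg2, Nat.div_pos (Nat.le_of_dvd hb hdb) hdpos,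
    hcop, ?_⟩
  have h1 : rho (P * p ^ (2 * s)) (A * P + W) (b, a) = d * rho P W (b / d, g / d) := by
    unfold rho
    simp only
    have e1 : (d : ℤ) * (g / d * P - ((b / d : ℕ) : ℤ) * W) = (d * (g / d)) * P - ((d * (b / d) : ℕ) : ℤ) * W := by
      push_cast; ring
    rw [e1, ← hg2, ← hb2, hg]
    push_cast
    ring
  unfold nv
  rw [h1, Int.natAbs_mul, Int.natAbs_natCast]
  have h2 : max b (d * (rho P W (b / d, g / d)).natAbs) = d * max (b / d) (rho P W (b / d, g / d)).natAbs := by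
    rw [← Nat.mul_max_mul_left, ← hb2]
  exact h2

/-- the contraction of the potential (first form) -/
theorem contract (p : ℕ) (hp : p.Prime) (s X W : ℕ) (hX : 1 ≤ X) (hW : W < X ^ 2) :
    ∑ A ∈ range (p ^ (2 * s)), ff ((X * p ^ s) ^ 2) (A * X ^ 2 + W) (X * p ^ s) ≤
      (2 * s + 1) * ∑ v ∈ VV (X ^ 2) W (X * p ^ s), ((X * p ^ s : ℕ) : ℝ) / nv (X ^ 2) W v := by
  classical
  set P := X ^ 2 with hP
  set X' := X * p ^ s with hX'
  have hP1 : 1 ≤ P := Nat.one_le_pow _ _ hX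
  have hX'1 : 1 ≤ X' := Nat.mul_pos hX (pow_pos hp.pos _)
  have hP' : X' ^ 2 = P * p ^ (2 * s) := by rw [hX', hP]; ring
  have hP'1 : 1 ≤ P * p ^ (2 * s) := by rw [← hP']; exact Nat.one_le_pow _ _ hX'1
  have hWA : ∀ A ∈ range (p ^ (2 * s)), A * P + W ≤ P * p ^ (2 * s) := by
    intro A hA
    rw [mem_range] at hA
    have : (A + 1) * P ≤ p ^ (2 * s) * P := Nat.mul_le_mul_right _ hA
    nlinarith
  unfold ff
  rw [hP', sum_sigma']
  set Ω := (range (p ^ (2 * s))).sigma (fun A => VV (P * p ^ (2 * s)) (A * P + W) X') with hΩ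
  set π : (Σ _ : ℕ, ℕ × ℤ) → ℕ × (ℕ × ℤ) := fun x =>
    (Nat.log p (Nat.gcd x.2.1 (x.2.2 * (p : ℤ) ^ (2 * s) - x.2.1 * x.1).natAbs),
      (x.2.1 / (Nat.gcd x.2.1 (x.2.2 * (p : ℤ) ^ (2 * s) - x.2.1 * x.1).natAbs),
        (x.2.2 * (p : ℤ) ^ (2 * s) - x.2.1 * x.1) /
          ((Nat.gcd x.2.1 (x.2.2 * (p : ℤ) ^ (2 * s) - x.2.1 * x.1).natAbs : ℕ) : ℤ))) with hπ
  have hmemΩ : ∀ x ∈ Ω, x.1 ∈ range (p ^ (2 * s)) ∧ 1 ≤ x.2.1 ∧ Nat.Coprime x.2.1 x.2.2.natAbs ∧
      nv (P * p ^ (2 * s)) (x.1 * P + W) x.2 ≤ X' := by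
    intro x hx
    rw [hΩ, mem_sigma] at hx
    obtain ⟨h1, h2⟩ := hx
    rw [mem_VV _ _ _ hP'1 (hWA _ h1)] at h2
    exact ⟨h1, h2⟩
  have hmaps : ∀ x ∈ Ω, π x ∈ (range (2 * s + 1)) ×ˢ VV P W X' := by
    rintro ⟨A, b, a⟩ hx
    obtain ⟨h1, h2, h3, h4⟩ := hmemΩ _ hx
    obtain ⟨k1, k2, k3, k4, k5, k6, k7⟩ := descend p hp s P W A b a h2 h3 _ rfl _ rfl
    simp only [hπ, mem_product, mem_range]
    refine ⟨by omega, ?_⟩
    rw [mem_VV P W X' hP1 hW.le]
    refine ⟨k5, k6, ?_⟩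
    simp only at h4
    rw [k7] at h4
    refine le_trans ?_ h4
    apply Nat.le_mul_of_pos_left
    exact Nat.gcd_pos_of_pos_left _ h2
  rw [← sum_fiberwise_of_maps_to hmaps, sum_product, mul_sum]
  have hbound : ∀ e ∈ range (2 * s + 1), ∀ v ∈ VV P W X',
      ∑ x ∈ Ω.filter (fun x => π x = (e, v)), (X' : ℝ) / nv (P * p ^ (2 * s)) (x.1 * P + W) x.2 ≤
        (X' : ℝ) / nv P W v := by
    intro e he v hv
    rw [mem_range] at he
    rw [mem_VV P W X' hP1 hW.le] at hv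
    obtain ⟨hv1, hv2, hv3⟩ := hv
    have hnv : (0 : ℝ) < nv P W v := by
      have : 1 ≤ nv P W v := hv1.trans (le_max_left _ _)
      exact_mod_cast this
    have hpe : (0 : ℝ) < (p : ℝ) ^ e := by
      have : (0 : ℝ) < p := by exact_mod_cast hp.pos
      positivity
    -- the data of the elements of the fibre
    have hdata : ∀ x ∈ Ω.filter (fun x => π x = (e, v)), x.2.1 = p ^ e * v.1 ∧
        x.2.2 * (p : ℤ) ^ (2 * s) - x.2.1 * x.1 = (p : ℤ) ^ e * v.2 ∧
        nv (P * p ^ (2 * s)) (x.1 * P + W) x.2 = p ^ e * nv P W v := by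
      rintro ⟨A, b, a⟩ hx
      rw [mem_filter] at hx
      obtain ⟨h1, h2, h3, h4⟩ := hmemΩ _ hx.1
      obtain ⟨k1, k2, k3, k4, k5, k6, k7⟩ := descend p hp s P W A b a h2 h3 _ rfl _ rfl
      have hx2 := hx.2
      simp only [hπ, Prod.mk.injEq] at hx2
      obtain ⟨m1, m2⟩ := hx2
      rw [m1] at k1
      have m3 : b / (Nat.gcd b (a * (p : ℤ) ^ (2 * s) - b * A).natAbs) = v.1 := by rw [← m2]
      have m4 : (a * (p : ℤ) ^ (2 * s) - b * A) /
          ((Nat.gcd b (a * (p : ℤ) ^ (2 * s) - b * A).natAbs : ℕ) : ℤ) = v.2 := by rw [← m2]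
      refine ⟨?_, ?_, ?_⟩
      · simp only
        rw [m3] at k3
        rw [k3, k1]
      · simp only
        rw [m4] at k4
        rw [k4, k1]
        push_cast
        ring
      · simp only
        rw [k7, m3, m4]
        rw [← k1]
    have hcard : (Ω.filter (fun x => π x = (e, v))).card ≤ p ^ e := by
      refine le_trans ?_ (count_A p hp s e (by omega) v.1 v.2 hv2)
      apply card_le_card_of_injOn (fun x => x.1)
      · intro x hx
        have h1 := hdata x hx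
        rw [mem_coe, mem_filter] at hx
        have h2 := (hmemΩ _ hx.1).1
        simp only [coe_filter, Set.mem_ofPred_eq]
        refine ⟨h2, ⟨x.2.2, ?_⟩⟩
        have h3 := h1.2.1
        rw [h1.1] at h3
        push_cast at h3
        linarith
      · rintro ⟨A, b, a⟩ hx ⟨A', b', a'⟩ hx' hxx
        obtain ⟨h1, h2, _⟩ := hdata _ hx
        obtain ⟨h1', h2', _⟩ := hdata _ hx'
        simp only at hxx h1 h2 h1' h2'
        subst hxx
        have hbb : b = b' := by rw [h1, h1']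
        subst hbb
        have haa : a = a' := by
          have h3 : a * (p : ℤ) ^ (2 * s) = a' * (p : ℤ) ^ (2 * s) := by linarith
          have h4 : (p : ℤ) ^ (2 * s) ≠ 0 := pow_ne_zero _ (by exact_mod_cast hp.ne_zero)
          exact mul_right_cancel₀ h4 h3
        rw [haa]
    calc ∑ x ∈ Ω.filter (fun x => π x = (e, v)), (X' : ℝ) / nv (P * p ^ (2 * s)) (x.1 * P + W) x.2
        = ∑ x ∈ Ω.filter (fun x => π x = (e, v)), (X' : ℝ) / ((p : ℝ) ^ e * nv P W v) := by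
          refine sum_congr rfl fun x hx => ?_
          rw [(hdata x hx).2.2]
          push_cast
          rfl
      _ = ((Ω.filter (fun x => π x = (e, v))).card : ℝ) * ((X' : ℝ) / ((p : ℝ) ^ e * nv P W v)) := by
          rw [sum_const, nsmul_eq_mul]
      _ ≤ ((p : ℝ) ^ e) * ((X' : ℝ) / ((p : ℝ) ^ e * nv P W v)) := by
          have : ((Ω.filter (fun x => π x = (e, v))).card : ℝ) ≤ (p : ℝ) ^ e := by exact_mod_cast hcard
          gcongr
      _ = _ := by field_simp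
  calc ∑ e ∈ range (2 * s + 1), ∑ v ∈ VV P W X',
        ∑ x ∈ Ω.filter (fun x => π x = (e, v)), (X' : ℝ) / nv (P * p ^ (2 * s)) (x.1 * P + W) x.2
      ≤ ∑ e ∈ range (2 * s + 1), ∑ v ∈ VV P W X', (X' : ℝ) / nv P W v :=
        sum_le_sum fun e he => sum_le_sum fun v hv => hbound e he v hv
    _ = _ := by
        rw [sum_const, card_range, nsmul_eq_mul, mul_sum]
        push_cast
        rfl

/-- the sum over the longer vectors -/
lemma layer (p : ℕ) (hp : 2 ≤ p) (X W : ℕ) (hX : 1 ≤ X) (hW : W < X ^ 2) (k : ℕ) :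
    ∑ v ∈ VV (X ^ 2) W (X * p ^ k), (X : ℝ) / nv (X ^ 2) W v ≤ ff (X ^ 2) W X + 6 * (p : ℝ) ^ 2 * (p : ℝ) ^ k := by
  classical
  have hP1 : 1 ≤ X ^ 2 := Nat.one_le_pow _ _ hX
  have hX0 : (0 : ℝ) < X := by exact_mod_cast hX
  have hp0 : (2 : ℝ) ≤ p := by exact_mod_cast hp
  induction k with
  | zero =>
    rw [pow_zero, mul_one]
    have : (0 : ℝ) ≤ 6 * (p : ℝ) ^ 2 * (p : ℝ) ^ 0 := by positivity
    unfold ff
    linarith
  | succ k ih =>
    rw [← sum_filter_add_sum_filter_not (VV (X ^ 2) W (X * p ^ (k + 1))) (fun v => nv (X ^ 2) W v ≤ X * p ^ k)]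
    have h1 : ∑ v ∈ (VV (X ^ 2) W (X * p ^ (k + 1))).filter (fun v => nv (X ^ 2) W v ≤ X * p ^ k),
        (X : ℝ) / nv (X ^ 2) W v ≤ ∑ v ∈ VV (X ^ 2) W (X * p ^ k), (X : ℝ) / nv (X ^ 2) W v := by
      apply sum_le_sum_of_subset_of_nonneg
      · intro v hv
        rw [mem_filter, mem_VV _ _ _ hP1 hW.le] at hv
        rw [mem_VV _ _ _ hP1 hW.le]
        exact ⟨hv.1.1, hv.1.2.1, hv.2⟩
      · intro v _ _
        positivity
    have h2 : ∑ v ∈ (VV (X ^ 2) W (X * p ^ (k + 1))).filter (fun v => ¬ nv (X ^ 2) W v ≤ X * p ^ k),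
        (X : ℝ) / nv (X ^ 2) W v ≤ 6 * (p : ℝ) ^ 2 * (p : ℝ) ^ k := by
      have h3 : ∀ v ∈ (VV (X ^ 2) W (X * p ^ (k + 1))).filter (fun v => ¬ nv (X ^ 2) W v ≤ X * p ^ k),
          (X : ℝ) / nv (X ^ 2) W v ≤ 1 / (p : ℝ) ^ k := by
        intro v hv
        rw [mem_filter] at hv
        have h4 := hv.2
        push Not at h4
        have h5 : (X : ℝ) * (p : ℝ) ^ k ≤ nv (X ^ 2) W v := by exact_mod_cast h4.le
        have h6 : 0 < (X : ℝ) * (p : ℝ) ^ k := by positivity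
        calc (X : ℝ) / nv (X ^ 2) W v ≤ X / (X * (p : ℝ) ^ k) := by gcongr
          _ = _ := by field_simp
      refine (sum_le_sum h3).trans ?_
      rw [sum_const, nsmul_eq_mul]
      have h4 : (((VV (X ^ 2) W (X * p ^ (k + 1))).filter (fun v => ¬ nv (X ^ 2) W v ≤ X * p ^ k)).card : ℝ) ≤
          6 * ((X * p ^ (k + 1) : ℕ) : ℝ) ^ 2 / ((X ^ 2 : ℕ) : ℝ) := by
        refine le_trans ?_ (card_VV (X ^ 2) W (X * p ^ (k + 1)) hP1 hW.le ?_)
        · exact_mod_cast card_filter_le _ _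
        · apply Nat.pow_le_pow_left
          exact Nat.le_mul_of_pos_right _ (pow_pos (by omega) _)
      calc (((VV (X ^ 2) W (X * p ^ (k + 1))).filter (fun v => ¬ nv (X ^ 2) W v ≤ X * p ^ k)).card : ℝ) *
            (1 / (p : ℝ) ^ k) ≤ (6 * ((X * p ^ (k + 1) : ℕ) : ℝ) ^ 2 / ((X ^ 2 : ℕ) : ℝ)) * (1 / (p : ℝ) ^ k) := by
            gcongr
        _ = 6 * (p : ℝ) ^ 2 * (p : ℝ) ^ k := by
            push_cast
            have : (p : ℝ) ^ k ≠ 0 := by positivity
            field_simp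
            ring
    have h3 : 6 * (p : ℝ) ^ 2 * (p : ℝ) ^ (k + 1) = p * (6 * (p : ℝ) ^ 2 * (p : ℝ) ^ k) := by ring
    have h4 : 0 ≤ 6 * (p : ℝ) ^ 2 * (p : ℝ) ^ k := by positivity
    rw [h3]
    nlinarith

/-- **The contraction of the potential.** -/
theorem contract2 (p : ℕ) (hp : p.Prime) (s X W : ℕ) (hX : 1 ≤ X) (hW : W < X ^ 2) :
    ∑ A ∈ range (p ^ (2 * s)), ff ((X * p ^ s) ^ 2) (A * X ^ 2 + W) (X * p ^ s) ≤
      (2 * s + 1) * (p : ℝ) ^ s * (ff (X ^ 2) W X + 6 * (p : ℝ) ^ 2 * (p : ℝ) ^ s) := by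
  refine (contract p hp s X W hX hW).trans ?_
  have h1 : ∑ v ∈ VV (X ^ 2) W (X * p ^ s), ((X * p ^ s : ℕ) : ℝ) / nv (X ^ 2) W v =
      (p : ℝ) ^ s * ∑ v ∈ VV (X ^ 2) W (X * p ^ s), (X : ℝ) / nv (X ^ 2) W v := by
    rw [mul_sum]
    refine sum_congr rfl fun v _ => ?_
    push_cast
    ring
  rw [h1, mul_assoc]
  have h2 := layer p hp.two_le X W hX hW s
  have : (0 : ℝ) ≤ (p : ℝ) ^ s := by positivity
  gcongr

end Pool.Agent.H587.PD
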