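import Mathlib
import Pool.Agent.H587.PD.Pot

set_option autoImplicit false

open Finset MeasureTheory

namespace Pool.Agent.H587.PD

/-- the fractions `g / m` of order `N` in `[W / P, (W + 1) / P)` with `m` prime to `p` -/
noncomputable def SS (p P W N : ℕ) : Finset (ℕ × ℤ) :=
  (VV P W N).filter (fun v => ¬ p ∣ v.1 ∧ 0 ≤ rho P W v ∧ rho P W v < v.1)

/-- a neighbour of a reduced fraction -/
lemma neighbour (b : ℕ) (g : ℤ) (hb : 2 ≤ b) (h : Nat.Coprime b g.natAbs) :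
    ∃ b' : ℕ, ∃ g' : ℤ, 1 ≤ b' ∧ b' ≤ b ∧ g' * b - g * b' = 1 := by
  have hc : IsCoprime (b : ℤ) g := by
    rw [Int.isCoprime_iff_gcd_eq_one, Int.gcd_eq_natAbs]; simpa using h
  obtain ⟨v, u, huv⟩ := hc
  have hb0 : (0 : ℤ) < b := by exact_mod_cast (show 0 < b by omega)
  set r : ℤ := (-u) % b with hr
  set t : ℤ := (-u) / b with ht
  have h1 : -u = b * t + r := (Int.mul_ediv_add_emod (-u) b).symm
  have h2 : 0 ≤ r := Int.emod_nonneg _ hb0.ne'
  have h3 : r < b := Int.emod_lt_of_pos _ hb0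
  have h4 : (v - g * t) * b - g * r = 1 := by
    have : r = -u - b * t := by linarith
    rw [this]
    linarith
  have h5 : r ≠ 0 := by
    intro h0
    rw [h0, mul_zero, sub_zero] at h4
    have h6 : (b : ℤ) ∣ 1 := ⟨v - g * t, by linarith⟩
    have h7 := Int.le_of_dvd one_pos h6
    have : (2 : ℤ) ≤ b := by exact_mod_cast hb
    linarith
  refine ⟨r.toNat, v - g * t, ?_, ?_, ?_⟩
  · omega
  · omega
  · rw [Int.toNat_of_nonneg h2]; exact h4

lemma cast_rho (P W : ℕ) (v : ℕ × ℤ) : (rho P W v : ℝ) = v.2 * P - v.1 * W := by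
  unfold rho; push_cast; ring

/-- the sum over the small denominators -/
lemma small_sum (P W N b₀ : ℕ) (c : ℝ) (hP : 1 ≤ P) (hW : W ≤ P) (hb₀ : 1 ≤ b₀) (hc : (b₀ : ℝ) < c) (k : ℕ) :
    ∑ v ∈ (VV P W N).filter (fun v => 0 ≤ rho P W v ∧ rho P W v ≤ v.1 ∧ c ≤ (v.1 : ℝ) ∧ v.1 ≤ 2 ^ k * b₀),
      1 / (v.1 : ℝ) ≤ 4 * (2 ^ k * b₀) / P + (2 - 2 / 2 ^ k) / b₀ := by
  classical
  have hP0 : (0 : ℝ) < P := by exact_mod_cast hP
  have hb0 : (0 : ℝ) < b₀ := by exact_mod_cast hb₀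
  set S : ℕ → Finset (ℕ × ℤ) := fun k => (VV P W N).filter
    (fun v => 0 ≤ rho P W v ∧ rho P W v ≤ v.1 ∧ c ≤ (v.1 : ℝ) ∧ v.1 ≤ 2 ^ k * b₀) with hS
  have hcard : ∀ k, ((S k).card : ℝ) ≤ (2 ^ k * b₀) ^ 2 / P + 1 := by
    intro k
    have hY : (0 : ℝ) < 2 ^ k * b₀ := by positivity
    have h1 : ((S k).card : ℝ) ≤ (1 / (P : ℝ)) / (1 / (2 ^ k * b₀) ^ 2) + 1 := by
      apply card_le_of_sep (S k) (fun v => (v.2 : ℝ) / v.1) (W / P) (1 / P) _ (by positivity)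
      · intro v hv
        simp only [hS, mem_filter, mem_VV P W N hP hW] at hv
        obtain ⟨⟨h1, h2, h3⟩, h4, h5, h6, h7⟩ := hv
        have hb : (0 : ℝ) < v.1 := by exact_mod_cast h1
        have h8 : (0 : ℝ) ≤ rho P W v := by exact_mod_cast h4
        have h9 : (rho P W v : ℝ) ≤ v.1 := by exact_mod_cast h5
        rw [cast_rho] at h8 h9
        constructor
        · rw [div_le_div_iff₀ hP0 hb]; linarith
        · rw [← add_div, div_le_div_iff₀ hb hP0]; linarith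
      · intro v hv w hw hne
        simp only [hS, mem_filter, mem_VV P W N hP hW] at hv hw
        obtain ⟨⟨h1, h2, h3⟩, h4, h5, h6, h7⟩ := hv
        obtain ⟨⟨k1, k2, k3⟩, k4, k5, k6, k7⟩ := hw
        exact frac_sep' v w _ h1 k1 h2 k2 hne (by exact_mod_cast h7) (by exact_mod_cast k7)
      · positivity
    calc ((S k).card : ℝ) ≤ (1 / (P : ℝ)) / (1 / (2 ^ k * b₀) ^ 2) + 1 := h1
      _ = _ := by field_simp
  change ∑ v ∈ S k, 1 / (v.1 : ℝ) ≤ _
  induction k with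
  | zero =>
    have h1 : S 0 = ∅ := by
      rw [hS]
      simp only
      rw [filter_eq_empty_iff]
      rintro v _ ⟨_, _, h2, h3⟩
      rw [pow_zero, one_mul] at h3
      have h4 : (v.1 : ℝ) ≤ b₀ := by exact_mod_cast h3
      linarith
    rw [h1, sum_empty]
    have : (0 : ℝ) ≤ 4 * (2 ^ 0 * b₀) / P := by positivity
    norm_num
    positivity
  | succ k ih =>
    rw [← sum_filter_add_sum_filter_not (S (k + 1)) (fun v => v.1 ≤ 2 ^ k * b₀)]
    have h1 : (S (k + 1)).filter (fun v => v.1 ≤ 2 ^ k * b₀) ⊆ S k := by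
      intro v hv
      simp only [hS, mem_filter] at hv ⊢
      exact ⟨hv.1.1, hv.1.2.1, hv.1.2.2.1, hv.1.2.2.2.1, hv.2⟩
    have h2 : ∑ v ∈ (S (k + 1)).filter (fun v => v.1 ≤ 2 ^ k * b₀), 1 / (v.1 : ℝ) ≤ ∑ v ∈ S k, 1 / (v.1 : ℝ) :=
      sum_le_sum_of_subset_of_nonneg h1 (fun v _ _ => by positivity)
    have h3 : ∑ v ∈ (S (k + 1)).filter (fun v => ¬ v.1 ≤ 2 ^ k * b₀), 1 / (v.1 : ℝ) ≤
        ((2 ^ (k + 1) * b₀) ^ 2 / P + 1) * (1 / (2 ^ k * b₀)) := by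
      have h4 : ∀ v ∈ (S (k + 1)).filter (fun v => ¬ v.1 ≤ 2 ^ k * b₀), 1 / (v.1 : ℝ) ≤ 1 / (2 ^ k * b₀) := by
        intro v hv
        rw [mem_filter] at hv
        have h5 := hv.2
        push Not at h5
        apply one_div_le_one_div_of_le (by positivity)
        exact_mod_cast h5.le
      refine (sum_le_sum h4).trans ?_
      rw [sum_const, nsmul_eq_mul]
      gcongr
      refine le_trans ?_ (hcard (k + 1))
      exact_mod_cast card_filter_le _ _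
    have h4 : ((2 ^ (k + 1) * (b₀ : ℝ)) ^ 2 / P + 1) * (1 / (2 ^ k * b₀)) = 4 * (2 ^ k * b₀) / P + 1 / (2 ^ k * b₀) := by
      have : (2 : ℝ) ^ k ≠ 0 := by positivity
      field_simp
      ring
    rw [h4] at h3
    have h5 : (4 * (2 ^ (k + 1) * (b₀ : ℝ)) / P + (2 - 2 / 2 ^ (k + 1)) / b₀) =
        (4 * (2 ^ k * b₀) / P + (2 - 2 / 2 ^ k) / b₀) + (4 * (2 ^ k * b₀) / P + 1 / (2 ^ k * b₀)) := by
      have : (2 : ℝ) ^ k ≠ 0 := by positivity
      field_simp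
      ring
    rw [h5]
    linarith

end Pool.Agent.H587.PD
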