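import Mathlib
import Pool.Agent.H587.PD.Succ

set_option autoImplicit false

open Finset MeasureTheory

namespace Pool.Agent.H587.PD

/-- Dirichlet approximation with a denominator prime to `p`, if there are no small vectors -/
lemma approx (p : ℕ) (hp : p.Prime) (X W R : ℕ) (B : ℝ) (hB : 1 ≤ B) (hX : 4 * B ≤ X) (hR : 20000 * B ≤ R)
    (hW : W < X ^ 2) (hf : ff (X ^ 2) W X ≤ B) (x : ℝ) (hx1 : 1 / 4 ≤ (X : ℝ) ^ 2 * x - W)
    (hx2 : (X : ℝ) ^ 2 * x - W ≤ 3 / 4) :
    ∃ v : ℕ × ℤ, (v ∈ (VV (X ^ 2) W (X * R)).filter (fun v => 0 ≤ rho (X ^ 2) W v ∧ rho (X ^ 2) W v ≤ v.1 ∧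
        (X : ℝ) / (2 * B) ≤ (v.1 : ℝ) ∧ 128 * v.1 ≤ (X * R) / 2) ∧
        |x - v.2 / v.1| ≤ 1 / (v.1 * ((X * R) / 2 : ℕ))) ∨
      (v ∈ SS p (X ^ 2) W (X * R) ∧ |x - v.2 / v.1| ≤ 32768 / (((X * R) / 2 : ℕ) : ℝ) ^ 2) := by
  classical
  set P := X ^ 2 with hP
  set N := X * R with hN
  set n := N / 2 with hn
  have hX0 : (0 : ℝ) < X := by linarith
  have hX1 : 1 ≤ X := by
    have : (1 : ℝ) ≤ X := by linarith
    exact_mod_cast this
  have hR0 : (20000 : ℝ) ≤ R := by linarith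
  have hP1 : 1 ≤ P := Nat.one_le_pow _ _ hX1
  have hP0 : (0 : ℝ) < P := by exact_mod_cast hP1
  have hPX : (P : ℝ) = (X : ℝ) ^ 2 := by rw [hP]; push_cast; rfl
  have hn3 : (X : ℝ) * R / 3 ≤ n := by
    have h1 : N ≤ 2 * n + 1 := by omega
    have h2 : (N : ℝ) ≤ 2 * n + 1 := by exact_mod_cast h1
    have h3 : (N : ℝ) = X * R := by rw [hN]; push_cast; rfl
    have h4 : (20000 : ℝ) ≤ X * R := by
      have : (1 : ℝ) ≤ X := by linarith
      nlinarith
    rw [h3] at h2
    linarith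
  have hnN : 2 * n ≤ N := by omega
  have hXR : 0 < (X : ℝ) * R := by positivity
  have hn0 : (0 : ℝ) < n := by linarith [div_pos hXR (by norm_num : (0 : ℝ) < 3)]
  have hn1 : 0 < n := by exact_mod_cast hn0
  have hPn : (P : ℝ) / n ≤ 3 * X / R := by
    rw [div_le_div_iff₀ hn0 (by linarith)]
    rw [hPX]
    nlinarith
  obtain ⟨q, hq1, hq2⟩ := Real.exists_rat_abs_sub_le_and_den_le x hn1
  set b := q.den with hb
  set g := q.num with hg
  have hb1 : 1 ≤ b := q.pos
  have hb0 : (0 : ℝ) < b := by exact_mod_cast hb1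
  have hcop : Nat.Coprime b g.natAbs := q.reduced.symm
  have hqg : (q : ℝ) = g / b := by
    rw [hg, hb]
    exact Rat.cast_def q
  have hxq : |x - (g : ℝ) / b| ≤ 1 / (b * n) := by
    rw [← hqg]
    refine hq1.trans ?_
    apply one_div_le_one_div_of_le (by positivity)
    rw [mul_comm]
    gcongr
    linarith
  set u := (P : ℝ) * x - W with hu
  rw [← hPX] at hx1 hx2
  have hrho : ∀ v : ℕ × ℤ, 1 ≤ v.1 → |(rho P W v : ℝ) - v.1 * u| = v.1 * P * |x - v.2 / v.1| := by
    intro v hv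
    have hv0 : (0 : ℝ) < v.1 := by exact_mod_cast hv
    rw [cast_rho, hu]
    have e1 : (v.2 : ℝ) * P - v.1 * W - v.1 * (P * x - W) = -(v.1 * P * (x - v.2 / v.1)) := by
      field_simp
      ring
    rw [e1, abs_neg, abs_mul, abs_of_pos (by positivity : (0 : ℝ) < v.1 * P)]
  have h1 : |(rho P W (b, g) : ℝ) - b * u| ≤ P / n := by
    rw [hrho (b, g) hb1]
    simp only
    calc (b : ℝ) * P * |x - g / b| ≤ b * P * (1 / (b * n)) := by gcongr
      _ = _ := by field_simp
  have h1' : |(rho P W (b, g) : ℝ) - b * u| ≤ 3 * X / R := h1.trans hPn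
  have hXRB : 3 * (X : ℝ) / R ≤ 3 * X / (20000 * B) := by gcongr
  rw [abs_le] at h1'
  -- the denominator is not small
  have hbig : (X : ℝ) / (2 * B) ≤ b := by
    by_contra hcon
    push Not at hcon
    have hXB : (X : ℝ) / (2 * B) = X / B / 2 := by field_simp
    have hXB1 : (X : ℝ) / B ≤ X := div_le_self hX0.le hB
    have hXB0 : 0 < (X : ℝ) / B := by positivity
    have h3X : 3 * (X : ℝ) / (20000 * B) = (3 / 20000) * (X / B) := by field_simp
    rw [hXB] at hcon
    have h2 : |(rho P W (b, g) : ℝ)| < X / B := by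
      rw [abs_lt]
      have h3 : (b : ℝ) * u ≤ b * (3 / 4) := by gcongr
      have h4 : 0 ≤ (b : ℝ) * u := mul_nonneg hb0.le (by linarith)
      constructor <;> linarith
    have h3 : (nv P W (b, g) : ℝ) < X / B := by
      unfold nv
      rw [Nat.cast_max]
      apply max_lt
      · simp only; linarith
      · have : (((rho P W (b, g)).natAbs : ℕ) : ℝ) = |(rho P W (b, g) : ℝ)| := by
          rw [Nat.cast_natAbs]; push_cast; rfl
        rw [this]; exact h2
    have h4 : (b, g) ∈ VV P W X := by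
      rw [mem_VV P W X hP1 hW.le]
      refine ⟨hb1, hcop, ?_⟩
      have : (nv P W (b, g) : ℝ) ≤ X := by linarith
      exact_mod_cast this
    have h5 : (X : ℝ) / nv P W (b, g) ≤ B := by
      refine le_trans ?_ hf
      unfold ff
      exact single_le_sum (f := fun v => (X : ℝ) / nv P W v) (fun v _ => by positivity) h4
    have h6 : (0 : ℝ) < nv P W (b, g) := by
      have : 1 ≤ nv P W (b, g) := hb1.trans (le_max_left _ _)
      exact_mod_cast this
    rw [div_le_iff₀ h6] at h5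
    rw [lt_div_iff₀ (by linarith)] at h3
    nlinarith
  have h3XR : 3 * (X : ℝ) / R ≤ b / 8 := by
    refine hXRB.trans ?_
    have : 3 * (X : ℝ) / (20000 * B) = (3 / 10000) * (X / (2 * B)) := by field_simp; norm_num
    rw [this]
    have : 0 < (X : ℝ) / (2 * B) := by positivity
    linarith
  have hbu1 : (b : ℝ) * (1 / 4) ≤ b * u := by gcongr
  have hbu2 : (b : ℝ) * u ≤ b * (3 / 4) := by gcongr
  have hrho0 : (0 : ℝ) ≤ rho P W (b, g) := by linarith
  have hrho1 : (rho P W (b, g) : ℝ) < b := by linarith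
  have hrho0' : 0 ≤ rho P W (b, g) := by exact_mod_cast hrho0
  have hrho1' : rho P W (b, g) < b := by exact_mod_cast hrho1
  have hnvle : ∀ v : ℕ × ℤ, v.1 ≤ N → 0 ≤ rho P W v → rho P W v < v.1 → nv P W v ≤ N := by
    intro v h1 h2 h3
    unfold nv
    apply max_le h1
    omega
  by_cases hcase : 128 * b ≤ n
  · -- small denominator
    refine ⟨(b, g), Or.inl ⟨?_, ?_⟩⟩
    · rw [mem_filter, mem_VV P W N hP1 hW.le]
      exact ⟨⟨hb1, hcop, hnvle (b, g) (by simp only; omega) hrho0' hrho1'⟩, hrho0', hrho1'.le, hbig, hcase⟩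
    · exact hxq
  · push Not at hcase
    have hbn : (n : ℝ) / 128 ≤ b := by
      have : (n : ℝ) ≤ 128 * b := by exact_mod_cast hcase.le
      linarith
    have hxq2 : |x - (g : ℝ) / b| ≤ 128 / (n : ℝ) ^ 2 := by
      refine hxq.trans ?_
      rw [div_le_div_iff₀ (by positivity) (by positivity)]
      have : (n : ℝ) ≤ 128 * b := by linarith
      nlinarith
    by_cases hpb : p ∣ b
    · obtain ⟨b', g', hb'1, hb'2, hdet⟩ := neighbour b g (hp.two_le.trans (Nat.le_of_dvd hb1 hpb)) hcop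
      set m := b + b' with hm
      set h := g + g' with hh
      have hm1 : 1 ≤ m := by omega
      have hm0 : (0 : ℝ) < m := by exact_mod_cast hm1
      have hdet2 : h * b - g * m = 1 := by rw [hh, hm]; push_cast; linarith
      have hmc : Nat.Coprime m h.natAbs := by
        have h2 : IsCoprime (m : ℤ) h := ⟨-g, b, by linarith⟩
        rw [Int.isCoprime_iff_gcd_eq_one, Int.gcd_eq_natAbs] at h2
        simpa using h2
      have hpm : ¬ p ∣ m := by
        intro h2
        have h3 : (p : ℤ) ∣ h * b - g * m := by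
          apply dvd_sub
          · exact (Int.natCast_dvd_natCast.2 hpb).mul_left _
          · exact (Int.natCast_dvd_natCast.2 h2).mul_left _
        rw [hdet2] at h3
        have h4 : p ∣ 1 := by exact_mod_cast h3
        exact hp.one_lt.ne' (Nat.dvd_one.1 h4)
      have hdist : |(h : ℝ) / m - g / b| = 1 / (b * m) := by
        have e1 : (h : ℝ) / m - g / b = (h * b - g * m) / (b * m) := by field_simp
        have e2 : (h : ℝ) * b - g * m = 1 := by exact_mod_cast hdet2
        rw [e1, e2, abs_of_pos (by positivity)]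
      have hbm : (b : ℝ) ≤ m := by rw [hm]; push_cast; linarith [(Nat.cast_nonneg b' : (0:ℝ) ≤ b')]
      have hxh : |x - (h : ℝ) / m| ≤ 1 / (b * n) + 1 / (b * m) := by
        have : x - (h : ℝ) / m = (x - g / b) - (h / m - g / b) := by ring
        rw [this]
        refine (abs_sub _ _).trans ?_
        rw [hdist]
        linarith
      have hm2b : (m : ℝ) ≤ 2 * b := by
        have : m ≤ 2 * b := by omega
        exact_mod_cast this
      have hr2 : |(rho P W (m, h) : ℝ) - m * u| ≤ m / 8 := by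
        rw [hrho (m, h) hm1]
        simp only
        have e1 : (m : ℝ) * P * |x - h / m| ≤ m * P * (1 / (b * n) + 1 / (b * m)) := by gcongr
        refine e1.trans ?_
        have e2 : (m : ℝ) * P * (1 / (b * n) + 1 / (b * m)) = (m / b) * (P / n) + (P / n) * (n / b) := by
          field_simp
        rw [e2]
        have e3 : (m : ℝ) / b ≤ 2 := by rw [div_le_iff₀ hb0]; exact hm2b
        have e4 : (n : ℝ) / b ≤ 128 := by rw [div_le_iff₀ hb0]; linarith
        have e5 : 0 ≤ (P : ℝ) / n := by positivity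
        have e6 : (m / b) * ((P : ℝ) / n) + (P / n) * (n / b) ≤ 2 * (P / n) + (P / n) * 128 := by gcongr
        refine e6.trans ?_
        have e7 : (X : ℝ) * R / 384 ≤ m := by linarith
        have e8 : 130 * (3 * (X : ℝ) / R) ≤ (X * R / 384) / 8 := by
          rw [← sub_nonneg]
          have : X * R / 384 / 8 - 130 * (3 * (X : ℝ) / R) = X * (R ^ 2 - 1198080) / (3072 * R) := by
            field_simp; ring
          rw [this]
          apply div_nonneg _ (by positivity)
          apply mul_nonneg hX0.le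
          nlinarith
        linarith
      rw [abs_le] at hr2
      have hmu1 : (m : ℝ) * (1 / 4) ≤ m * u := by gcongr
      have hmu2 : (m : ℝ) * u ≤ m * (3 / 4) := by gcongr
      have hm_rho0 : (0 : ℝ) ≤ rho P W (m, h) := by linarith
      have hm_rho1 : (rho P W (m, h) : ℝ) < m := by linarith
      have hm_rho0' : 0 ≤ rho P W (m, h) := by exact_mod_cast hm_rho0
      have hm_rho1' : rho P W (m, h) < m := by exact_mod_cast hm_rho1
      refine ⟨(m, h), Or.inr ⟨?_, ?_⟩⟩
      · unfold SS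
        rw [mem_filter, mem_VV P W N hP1 hW.le]
        refine ⟨⟨hm1, hmc, hnvle (m, h) (by simp only; omega) hm_rho0' hm_rho1'⟩, hpm, hm_rho0', hm_rho1'⟩
      · simp only
        refine hxh.trans ?_
        have e1 : 1 / ((b : ℝ) * n) ≤ 128 / (n : ℝ) ^ 2 := by
          rw [div_le_div_iff₀ (by positivity) (by positivity)]
          have : (n : ℝ) ≤ 128 * b := by linarith
          nlinarith
        have e2 : 1 / ((b : ℝ) * m) ≤ 16384 / (n : ℝ) ^ 2 := by
          rw [div_le_div_iff₀ (by positivity) (by positivity)]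
          have h5 : (n : ℝ) ≤ 128 * b := by linarith
          have h6 : (n : ℝ) ≤ 128 * m := by linarith
          nlinarith
        have e3 : (32768 : ℝ) / (n : ℝ) ^ 2 = 16384 / (n : ℝ) ^ 2 + 16384 / (n : ℝ) ^ 2 := by ring
        have e4 : (128 : ℝ) / (n : ℝ) ^ 2 ≤ 16384 / (n : ℝ) ^ 2 := by gcongr; norm_num
        linarith
    · refine ⟨(b, g), Or.inr ⟨?_, ?_⟩⟩
      · unfold SS
        rw [mem_filter, mem_VV P W N hP1 hW.le]
        exact ⟨⟨hb1, hcop, hnvle (b, g) (by simp only; omega) hrho0' hrho1'⟩, hpb, hrho0', hrho1'⟩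
      · simp only
        refine hxq2.trans ?_
        gcongr
        norm_num

/-- **The number of the good fractions.** -/
theorem succ_count (p : ℕ) (hp : p.Prime) (X W R : ℕ) (B : ℝ) (hB : 1 ≤ B) (hX : 4 * B ≤ X)
    (hR : 20000 * B ≤ R) (hW : W < X ^ 2) (hf : ff (X ^ 2) W X ≤ B) :
    (R : ℝ) ^ 2 / 2400000 ≤ ((SS p (X ^ 2) W (X * R)).card : ℝ) := by
  classical
  set P := X ^ 2 with hP
  set N := X * R with hN
  set n := N / 2 with hn
  have hX0 : (0 : ℝ) < X := by linarith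
  have hX1 : 1 ≤ X := by
    have : (1 : ℝ) ≤ X := by linarith
    exact_mod_cast this
  have hR0 : (20000 : ℝ) ≤ R := by linarith
  have hP1 : 1 ≤ P := Nat.one_le_pow _ _ hX1
  have hP0 : (0 : ℝ) < P := by exact_mod_cast hP1
  have hPX : (P : ℝ) = (X : ℝ) ^ 2 := by rw [hP]; push_cast; rfl
  have hn3 : (X : ℝ) * R / 3 ≤ n := by
    have h1 : N ≤ 2 * n + 1 := by omega
    have h2 : (N : ℝ) ≤ 2 * n + 1 := by exact_mod_cast h1
    have h3 : (N : ℝ) = X * R := by rw [hN]; push_cast; rfl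
    have h4 : (20000 : ℝ) ≤ X * R := by
      have : (1 : ℝ) ≤ X := by linarith
      nlinarith
    rw [h3] at h2
    linarith
  have hXR : 0 < (X : ℝ) * R := by positivity
  have hn0 : (0 : ℝ) < n := by linarith [div_pos hXR (by norm_num : (0 : ℝ) < 3)]
  set Sm := (VV P W N).filter (fun v => 0 ≤ rho P W v ∧ rho P W v ≤ v.1 ∧
        (X : ℝ) / (2 * B) ≤ (v.1 : ℝ) ∧ 128 * v.1 ≤ n) with hSm
  -- the sum over the small denominators
  set b₀ := ⌈(X : ℝ) / (4 * B)⌉₊ with hb₀
  have hXB1 : 1 ≤ (X : ℝ) / (4 * B) := by rw [le_div_iff₀ (by linarith)]; linarith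
  have hb₀1 : 1 ≤ b₀ := Nat.ceil_pos.2 (by linarith)
  have hb₀2 : (X : ℝ) / (4 * B) ≤ b₀ := Nat.le_ceil _
  have hb₀3 : (b₀ : ℝ) < X / (2 * B) := by
    have h1 := Nat.ceil_lt_add_one (show 0 ≤ (X : ℝ) / (4 * B) by positivity)
    have h2 : (X : ℝ) / (2 * B) = X / (4 * B) + X / (4 * B) := by field_simp; norm_num
    rw [h2]
    linarith
  have hsum : ∑ v ∈ Sm, 1 / (v.1 : ℝ) ≤ n / (16 * P) + 8 * B / X := by
    have hex : ∃ k : ℕ, n ≤ 128 * (2 ^ k * b₀) := by
      refine ⟨n, ?_⟩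
      have h1 : n < 2 ^ n := Nat.lt_two_pow_self
      have h2 : 2 ^ n ≤ 2 ^ n * b₀ := Nat.le_mul_of_pos_right _ hb₀1
      omega
    set k := Nat.find hex with hk
    have hk1 : n ≤ 128 * (2 ^ k * b₀) := Nat.find_spec hex
    have h1 := small_sum P W N b₀ (X / (2 * B)) hP1 hW.le hb₀1 hb₀3 k
    have h2 : Sm ⊆ (VV P W N).filter (fun v => 0 ≤ rho P W v ∧ rho P W v ≤ v.1 ∧
        (X : ℝ) / (2 * B) ≤ (v.1 : ℝ) ∧ v.1 ≤ 2 ^ k * b₀) := by
      intro v hv
      rw [hSm, mem_filter] at hv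
      rw [mem_filter]
      obtain ⟨k1, k2, k3, k4, k5⟩ := hv
      exact ⟨k1, k2, k3, k4, by omega⟩
    have h3 : ∑ v ∈ Sm, 1 / (v.1 : ℝ) ≤ 4 * (2 ^ k * b₀) / P + (2 - 2 / 2 ^ k) / b₀ :=
      (sum_le_sum_of_subset_of_nonneg h2 (fun v _ _ => by positivity)).trans h1
    have h4 : (2 - 2 / (2 : ℝ) ^ k) / b₀ ≤ 8 * B / X := by
      have h5 : (2 - 2 / (2 : ℝ) ^ k) ≤ 2 := by
        have : (0 : ℝ) ≤ 2 / (2 : ℝ) ^ k := by positivity
        linarith
      have h6 : (2 - 2 / (2 : ℝ) ^ k) / b₀ ≤ 2 / (X / (4 * B)) := by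
        have : (0 : ℝ) < X / (4 * B) := by linarith
        gcongr
      refine h6.trans (le_of_eq ?_)
      field_simp
      norm_num
    rcases Nat.eq_zero_or_pos k with hk0 | hk0
    · -- the set is empty
      have h5 : Sm = ∅ := by
        rw [← subset_empty]
        refine h2.trans ?_
        intro v hv
        rw [mem_filter, hk0, pow_zero, one_mul] at hv
        have h6 : (v.1 : ℝ) ≤ b₀ := by exact_mod_cast hv.2.2.2.2
        linarith [hv.2.2.2.1]
      rw [h5, sum_empty]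
      positivity
    · have h5 : ¬ n ≤ 128 * (2 ^ (k - 1) * b₀) := Nat.find_min hex (by omega)
      push Not at h5
      have h6 : 2 * (128 * (2 ^ (k - 1) * b₀)) = 128 * (2 ^ k * b₀) := by
        have : 2 ^ k = 2 * 2 ^ (k - 1) := by rw [← pow_succ']; congr 1; omega
        rw [this]; ring
      have h7 : 128 * (2 ^ k * b₀) ≤ 2 * n := by omega
      have h8 : 64 * ((2 : ℝ) ^ k * b₀) ≤ n := by
        have : (128 : ℝ) * (2 ^ k * b₀) ≤ 2 * n := by exact_mod_cast h7
        linarith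
      have h9 : 4 * ((2 : ℝ) ^ k * b₀) / P ≤ n / (16 * P) := by
        rw [div_le_div_iff₀ hP0 (by positivity)]
        nlinarith
      linarith
  -- the measures
  set J : Set ℝ := Set.Icc ((W + 1 / 4) / P) ((W + 3 / 4) / P) with hJ
  have hJv : volume J = ENNReal.ofReal (1 / (2 * P)) := by
    rw [hJ, Real.volume_Icc]
    congr 1
    field_simp
    ring
  set a₁ : ℕ × ℤ → ℝ := fun v => 1 / (v.1 * n) with ha₁
  set a₂ : ℝ := 32768 / (n : ℝ) ^ 2 with ha₂
  have hcover : J ⊆ (⋃ v ∈ Sm, Set.Icc ((v.2 : ℝ) / v.1 - a₁ v) (v.2 / v.1 + a₁ v)) ∪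
      (⋃ v ∈ SS p P W N, Set.Icc ((v.2 : ℝ) / v.1 - a₂) (v.2 / v.1 + a₂)) := by
    intro x hx
    rw [hJ, Set.mem_Icc, div_le_iff₀ hP0, le_div_iff₀ hP0] at hx
    obtain ⟨v, hv⟩ := approx p hp X W R B hB hX hR hW hf x (by rw [← hPX]; linarith [hx.1]) (by rw [← hPX]; linarith [hx.2])
    rcases hv with ⟨h1, h2⟩ | ⟨h1, h2⟩
    · left
      simp only [Set.mem_iUnion]
      refine ⟨v, h1, ?_⟩
      rw [abs_le] at h2
      constructor <;> simp only [ha₁] <;> linarith
    · right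
      simp only [Set.mem_iUnion]
      refine ⟨v, h1, ?_⟩
      rw [abs_le] at h2
      constructor <;> simp only [ha₂] <;> linarith
  have hmeas : volume J ≤ ENNReal.ofReal (∑ v ∈ Sm, 2 * a₁ v) + ENNReal.ofReal (∑ v ∈ SS p P W N, 2 * a₂) := by
    refine (measure_mono hcover).trans ((measure_union_le _ _).trans ?_)
    gcongr
    · refine (measure_biUnion_finset_le _ _).trans ?_
      rw [ENNReal.ofReal_sum_of_nonneg (fun v _ => by simp only [ha₁]; positivity)]
      apply sum_le_sum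
      intro v _
      rw [Real.volume_Icc]
      apply ENNReal.ofReal_le_ofReal
      linarith
    · refine (measure_biUnion_finset_le _ _).trans ?_
      rw [ENNReal.ofReal_sum_of_nonneg (fun v _ => by simp only [ha₂]; positivity)]
      apply sum_le_sum
      intro v _
      rw [Real.volume_Icc]
      apply ENNReal.ofReal_le_ofReal
      linarith
  have hs1 : 0 ≤ ∑ v ∈ Sm, 2 * a₁ v := sum_nonneg fun v _ => by simp only [ha₁]; positivity
  have hs2 : 0 ≤ ∑ v ∈ SS p P W N, 2 * a₂ := sum_nonneg fun v _ => by simp only [ha₂]; positivity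
  rw [hJv, ← ENNReal.ofReal_add hs1 hs2, ENNReal.ofReal_le_ofReal_iff (by linarith)] at hmeas
  have h1 : ∑ v ∈ Sm, 2 * a₁ v = (2 / n) * ∑ v ∈ Sm, 1 / (v.1 : ℝ) := by
    rw [mul_sum]
    refine sum_congr rfl fun v _ => ?_
    simp only [ha₁]
    field_simp
  have h2 : ∑ v ∈ SS p P W N, 2 * a₂ = ((SS p P W N).card : ℝ) * (2 * a₂) := by
    rw [sum_const, nsmul_eq_mul]
  rw [h1, h2] at hmeas
  have h3 : (2 / (n : ℝ)) * ∑ v ∈ Sm, 1 / (v.1 : ℝ) ≤ 1 / (4 * P) := by
    calc (2 / (n : ℝ)) * ∑ v ∈ Sm, 1 / (v.1 : ℝ) ≤ (2 / n) * (n / (16 * P) + 8 * B / X) := by gcongr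
      _ = 1 / (8 * P) + 16 * B / (X * n) := by field_simp; norm_num
      _ ≤ 1 / (8 * P) + 16 * B / (X * (X * R / 3)) := by gcongr
      _ = 1 / (8 * P) + 48 * (B / R) / P := by rw [hPX]; field_simp; ring
      _ ≤ 1 / (8 * P) + 48 * (1 / 20000) / P := by
          have : B / R ≤ 1 / 20000 := by
            rw [div_le_div_iff₀ (by linarith) (by norm_num)]; linarith
          gcongr
      _ ≤ 1 / (4 * P) := by
          have e1 : 1 / (8 * (P : ℝ)) = (1 / 8) * (1 / P) := by field_simp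
          have e2 : 48 * (1 / 20000) / (P : ℝ) = (48 / 20000) * (1 / P) := by field_simp
          have e3 : 1 / (4 * (P : ℝ)) = (1 / 4) * (1 / P) := by field_simp
          rw [e1, e2, e3]
          have : 0 < 1 / (P : ℝ) := by positivity
          linarith
  have h4 : 1 / (4 * (P : ℝ)) ≤ ((SS p P W N).card : ℝ) * (2 * a₂) := by
    have : 1 / (2 * (P : ℝ)) = 1 / (4 * P) + 1 / (4 * P) := by field_simp; norm_num
    linarith
  have h5 : (n : ℝ) ^ 2 / (262144 * P) ≤ ((SS p P W N).card : ℝ) := by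
    rw [ha₂] at h4
    have h6 : (n : ℝ) ^ 2 / (262144 * P) = (1 / (4 * P)) * ((n : ℝ) ^ 2 / 65536) := by
      field_simp; norm_num
    rw [h6]
    calc (1 / (4 * (P : ℝ))) * ((n : ℝ) ^ 2 / 65536) ≤
          (((SS p P W N).card : ℝ) * (2 * (32768 / (n : ℝ) ^ 2))) * ((n : ℝ) ^ 2 / 65536) := by gcongr
      _ = _ := by field_simp; ring
  refine le_trans ?_ h5
  rw [hPX]
  rw [div_le_div_iff₀ (by norm_num) (by positivity)]
  have h6 : (X * R / 3) ^ 2 ≤ (n : ℝ) ^ 2 := by gcongr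
  have h7 : ((X : ℝ) * R / 3) ^ 2 = X ^ 2 * R ^ 2 / 9 := by ring
  rw [h7] at h6
  nlinarith [sq_nonneg ((X : ℝ) * R)]

end Pool.Agent.H587.PD
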