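import Mathlib
import Pool.Agent.H587.PD.Succ2

set_option autoImplicit false

open Finset

namespace Pool.Agent.H587.PD

/-- the position of the fraction, with `D` cells -/
noncomputable def cell (D P W : ℕ) (v : ℕ × ℤ) : ℕ := D * (rho P W v).toNat / v.1

/-- the occupied cells -/
noncomputable def YY (p s D i W : ℕ) : Finset ℕ :=
  (Icc 1 i).biUnion (fun k => (SS p ((p ^ (s * k)) ^ 2) (W % (p ^ (s * k)) ^ 2) (p ^ (s * k))).image
    (cell D ((p ^ (s * k)) ^ 2) (W % (p ^ (s * k)) ^ 2)))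

lemma mem_SS (p P W N : ℕ) (hP : 1 ≤ P) (hW : W ≤ P) (v : ℕ × ℤ) :
    v ∈ SS p P W N ↔ 1 ≤ v.1 ∧ Nat.Coprime v.1 v.2.natAbs ∧ v.1 ≤ N ∧ ¬ p ∣ v.1 ∧ 0 ≤ rho P W v ∧
      rho P W v < v.1 := by
  unfold SS
  rw [mem_filter, mem_VV P W N hP hW]
  constructor
  · rintro ⟨⟨h1, h2, h3⟩, h4, h5, h6⟩
    exact ⟨h1, h2, (le_max_left _ _).trans h3, h4, h5, h6⟩
  · rintro ⟨h1, h2, h3, h4, h5, h6⟩
    refine ⟨⟨h1, h2, ?_⟩, h4, h5, h6⟩
    unfold nv
    apply max_le h3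
    omega

/-- the fraction lies in the interval -/
lemma SS_pos (p P W N : ℕ) (hP : 1 ≤ P) (hW : W ≤ P) (v : ℕ × ℤ) (hv : v ∈ SS p P W N) :
    (v.2 : ℝ) / v.1 = (W + (rho P W v : ℝ) / v.1) / P := by
  rw [mem_SS p P W N hP hW] at hv
  have h1 : (0 : ℝ) < v.1 := by exact_mod_cast hv.1
  have h2 : (0 : ℝ) < P := by exact_mod_cast hP
  rw [cast_rho]
  field_simp
  ring

lemma card_SS_le_one (p X W : ℕ) (hX : 1 ≤ X) (hW : W < X ^ 2) : (SS p (X ^ 2) W X).card ≤ 1 := by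
  rw [card_le_one]
  intro v hv w hw
  by_contra hne
  have hP1 : 1 ≤ X ^ 2 := Nat.one_le_pow _ _ hX
  have e1 := SS_pos p _ W X hP1 hW.le v hv
  have e2 := SS_pos p _ W X hP1 hW.le w hw
  rw [mem_SS p _ W X hP1 hW.le] at hv hw
  obtain ⟨h1, h2, h3, h4, h5, h6⟩ := hv
  obtain ⟨k1, k2, k3, k4, k5, k6⟩ := hw
  have h7 := frac_sep' v w X h1 k1 h2 k2 hne (by exact_mod_cast h3) (by exact_mod_cast k3)
  rw [e1, e2] at h7
  have hb : (0 : ℝ) < v.1 := by exact_mod_cast h1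
  have hb' : (0 : ℝ) < w.1 := by exact_mod_cast k1
  have hX0 : (0 : ℝ) < (X : ℝ) ^ 2 := by
    have : (0 : ℝ) < X := by exact_mod_cast hX
    positivity
  have a1 : (0 : ℝ) ≤ (rho (X ^ 2) W v : ℝ) / v.1 := by
    apply div_nonneg _ hb.le; exact_mod_cast h5
  have a2 : (rho (X ^ 2) W v : ℝ) / v.1 < 1 := by
    rw [div_lt_one hb]; exact_mod_cast h6
  have a3 : (0 : ℝ) ≤ (rho (X ^ 2) W w : ℝ) / w.1 := by
    apply div_nonneg _ hb'.le; exact_mod_cast k5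
  have a4 : (rho (X ^ 2) W w : ℝ) / w.1 < 1 := by
    rw [div_lt_one hb']; exact_mod_cast k6
  have h8 : (W + (rho (X ^ 2) W v : ℝ) / v.1) / ((X ^ 2 : ℕ) : ℝ) - (W + (rho (X ^ 2) W w : ℝ) / w.1) / ((X ^ 2 : ℕ) : ℝ) =
      ((rho (X ^ 2) W v : ℝ) / v.1 - (rho (X ^ 2) W w : ℝ) / w.1) / (X : ℝ) ^ 2 := by
    push_cast; ring
  rw [h8, abs_div, abs_of_pos hX0, div_le_div_iff_of_pos_right hX0] at h7
  have h9 : |(rho (X ^ 2) W v : ℝ) / v.1 - (rho (X ^ 2) W w : ℝ) / w.1| < 1 := by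
    rw [abs_lt]; constructor <;> linarith
  linarith

lemma cell_lt (p D P W N : ℕ) (hD : 1 ≤ D) (hP : 1 ≤ P) (hW : W ≤ P) (v : ℕ × ℤ) (hv : v ∈ SS p P W N) :
    cell D P W v < D := by
  rw [mem_SS p P W N hP hW] at hv
  obtain ⟨h1, h2, h3, h4, h5, h6⟩ := hv
  unfold cell
  rw [Nat.div_lt_iff_lt_mul (by omega)]
  apply Nat.mul_lt_mul_of_pos_left _ (by omega)
  omega

lemma card_YY (p s D i W : ℕ) (hp : 1 ≤ p) : (YY p s D i W).card ≤ i := by
  unfold YY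
  refine card_biUnion_le.trans ?_
  calc ∑ k ∈ Icc 1 i, ((SS p ((p ^ (s * k)) ^ 2) (W % (p ^ (s * k)) ^ 2) (p ^ (s * k))).image
        (cell D ((p ^ (s * k)) ^ 2) (W % (p ^ (s * k)) ^ 2))).card ≤ ∑ k ∈ Icc 1 i, 1 := by
        apply sum_le_sum
        intro k _
        refine card_image_le.trans ?_
        have h1 : 1 ≤ p ^ (s * k) := Nat.one_le_pow _ _ hp
        exact card_SS_le_one p _ _ h1 (Nat.mod_lt _ (by positivity))
    _ = i := by simp

lemma YY_subset (p s D i W : ℕ) (hp : 1 ≤ p) (hD : 1 ≤ D) : YY p s D i W ⊆ range D := by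
  intro l hl
  unfold YY at hl
  rw [mem_biUnion] at hl
  obtain ⟨k, _, hl⟩ := hl
  rw [mem_image] at hl
  obtain ⟨v, hv, rfl⟩ := hl
  have h1 : 1 ≤ p ^ (s * k) := Nat.one_le_pow _ _ hp
  rw [mem_range]
  exact cell_lt p D _ _ _ hD (Nat.one_le_pow _ _ h1) (Nat.mod_lt _ (by positivity)).le v hv

lemma YY_succ (p s D i W A : ℕ) (hp : 1 ≤ p) (hW : W < (p ^ (s * i)) ^ 2) (hA : A < p ^ (2 * s)) :
    YY p s D (i + 1) (A * (p ^ (s * i)) ^ 2 + W) = YY p s D i W ∪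
      (SS p ((p ^ (s * i) * p ^ s) ^ 2) (A * (p ^ (s * i)) ^ 2 + W) (p ^ (s * i) * p ^ s)).image
        (cell D ((p ^ (s * i) * p ^ s) ^ 2) (A * (p ^ (s * i)) ^ 2 + W)) := by
  unfold YY
  have h1 : Icc 1 (i + 1) = insert (i + 1) (Icc 1 i) := by
    ext k; simp only [mem_Icc, mem_insert]; omega
  rw [h1, biUnion_insert, union_comm]
  have h2 : p ^ (s * (i + 1)) = p ^ (s * i) * p ^ s := by rw [← pow_add]; congr 1
  have h3 : A * (p ^ (s * i)) ^ 2 + W < (p ^ (s * i) * p ^ s) ^ 2 := by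
    have h4 : (p ^ (s * i) * p ^ s) ^ 2 = p ^ (2 * s) * (p ^ (s * i)) ^ 2 := by ring
    rw [h4]
    have h5 : (A + 1) * (p ^ (s * i)) ^ 2 ≤ p ^ (2 * s) * (p ^ (s * i)) ^ 2 := Nat.mul_le_mul_right _ hA
    nlinarith
  rw [h2, Nat.mod_eq_of_lt h3]
  congr 1
  apply biUnion_congr rfl
  intro k hk
  rw [mem_Icc] at hk
  have h4 : (A * (p ^ (s * i)) ^ 2 + W) % (p ^ (s * k)) ^ 2 = W % (p ^ (s * k)) ^ 2 := by
    have h5 : (p ^ (s * k)) ^ 2 ∣ A * (p ^ (s * i)) ^ 2 := by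
      apply Dvd.dvd.mul_left
      apply pow_dvd_pow_of_dvd
      apply pow_dvd_pow
      exact Nat.mul_le_mul_left _ hk.2
    rw [Nat.add_mod, Nat.mod_eq_zero_of_dvd h5, zero_add, Nat.mod_mod]
  rw [h4]

/-- the digit block which realises a fraction -/
lemma realise (p : ℕ) (hp : p.Prime) (s X W : ℕ) (hX : 1 ≤ X) (hW : W < X ^ 2) (v : ℕ × ℤ)
    (hv : v ∈ SS p (X ^ 2) W (X * p ^ s)) :
    ∃ A a, A < p ^ (2 * s) ∧ a * (p : ℤ) ^ (2 * s) = v.2 + v.1 * (A : ℤ) ∧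
      (v.1, a) ∈ SS p ((X * p ^ s) ^ 2) (A * X ^ 2 + W) (X * p ^ s) ∧
      rho ((X * p ^ s) ^ 2) (A * X ^ 2 + W) (v.1, a) = rho (X ^ 2) W v := by
  have hP1 : 1 ≤ X ^ 2 := Nat.one_le_pow _ _ hX
  rw [mem_SS p _ W _ hP1 hW.le] at hv
  obtain ⟨h1, h2, h3, h4, h5, h6⟩ := hv
  have hcop : IsCoprime (v.1 : ℤ) ((p : ℤ) ^ (2 * s)) := by
    apply IsCoprime.pow_right
    rw [Int.isCoprime_iff_gcd_eq_one, Int.gcd_eq_natAbs]
    simpa [Nat.coprime_comm] using (hp.coprime_iff_not_dvd.2 h4).symm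
  obtain ⟨y, z, hyz⟩ := hcop
  have hR : (0 : ℤ) < (p : ℤ) ^ (2 * s) := by
    have : (0 : ℤ) < p := by exact_mod_cast hp.pos
    positivity
  set r : ℤ := (-(v.2 * y)) % (p : ℤ) ^ (2 * s) with hr
  have hr0 : 0 ≤ r := Int.emod_nonneg _ hR.ne'
  have hr1 : r < (p : ℤ) ^ (2 * s) := Int.emod_lt_of_pos _ hR
  have hr2 : -(v.2 * y) = (p : ℤ) ^ (2 * s) * ((-(v.2 * y)) / (p : ℤ) ^ (2 * s)) + r :=
    (Int.mul_ediv_add_emod _ _).symm
  set t := (-(v.2 * y)) / (p : ℤ) ^ (2 * s) with ht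
  have hrt : ((r.toNat : ℕ) : ℤ) = r := Int.toNat_of_nonneg hr0
  set a : ℤ := v.2 * z - v.1 * t with ha
  have haeq : a * (p : ℤ) ^ (2 * s) = v.2 + v.1 * r := by
    have h7 : r = -(v.2 * y) - (p : ℤ) ^ (2 * s) * t := by linarith
    rw [h7, ha]
    have h8 : v.2 * (y * v.1 + z * (p : ℤ) ^ (2 * s)) = v.2 * 1 := by rw [hyz]
    linarith
  have hrho : rho ((X * p ^ s) ^ 2) (r.toNat * X ^ 2 + W) (v.1, a) = rho (X ^ 2) W v := by
    unfold rho
    simp only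
    push_cast
    rw [hrt]
    have h7 : ((X : ℤ) * (p : ℤ) ^ s) ^ 2 = (p : ℤ) ^ (2 * s) * (X : ℤ) ^ 2 := by ring
    rw [h7]
    have h8 : a * ((p : ℤ) ^ (2 * s) * (X : ℤ) ^ 2) = (v.2 + v.1 * r) * (X : ℤ) ^ 2 := by rw [← haeq]; ring
    rw [h8]
    ring
  have hA : r.toNat < p ^ (2 * s) := by
    have : ((r.toNat : ℕ) : ℤ) < ((p ^ (2 * s) : ℕ) : ℤ) := by rw [hrt]; push_cast; exact hr1
    exact_mod_cast this
  have hW' : r.toNat * X ^ 2 + W ≤ (X * p ^ s) ^ 2 := by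
    have h4 : (X * p ^ s) ^ 2 = p ^ (2 * s) * X ^ 2 := by ring
    rw [h4]
    have h5 : (r.toNat + 1) * X ^ 2 ≤ p ^ (2 * s) * X ^ 2 := Nat.mul_le_mul_right _ hA
    nlinarith
  have hP'1 : 1 ≤ (X * p ^ s) ^ 2 := Nat.one_le_pow _ _ (Nat.mul_pos hX (pow_pos hp.pos _))
  have hac : Nat.Coprime v.1 a.natAbs := by
    have h7 : IsCoprime (v.1 : ℤ) v.2 := by
      rw [Int.isCoprime_iff_gcd_eq_one, Int.gcd_eq_natAbs]; simpa using h2
    have h8 : IsCoprime (v.1 : ℤ) (a * (p : ℤ) ^ (2 * s)) := by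
      rw [haeq]
      have : v.2 + (v.1 : ℤ) * r = v.2 + r * v.1 := by ring
      rw [this]
      exact (IsCoprime.add_mul_right_right_iff (z := r)).2 h7
    have h9 := IsCoprime.of_mul_right_left h8
    rw [Int.isCoprime_iff_gcd_eq_one, Int.gcd_eq_natAbs] at h9
    simpa using h9
  refine ⟨r.toNat, a, hA, ?_, ?_, hrho⟩
  · rw [hrt]; exact haeq
  · rw [mem_SS p _ _ _ hP'1 hW', hrho]
    exact ⟨h1, hac, h3, h4, h5, h6⟩

/-- the number of the fractions in a cell -/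
lemma card_cell (p : ℕ) (D X W N l : ℕ) (hD : 1 ≤ D) (hX : 1 ≤ X) (hN : 1 ≤ N) (hW : W < X ^ 2) :
    (((SS p (X ^ 2) W N).filter (fun v => cell D (X ^ 2) W v = l)).card : ℝ) ≤
      (N : ℝ) ^ 2 / (D * (X : ℝ) ^ 2) + 1 := by
  have hP1 : 1 ≤ X ^ 2 := Nat.one_le_pow _ _ hX
  have hX0 : (0 : ℝ) < X := by exact_mod_cast hX
  have hD0 : (0 : ℝ) < D := by exact_mod_cast hD
  have hN0 : (0 : ℝ) < N := by exact_mod_cast hN
  have h1 : (((SS p (X ^ 2) W N).filter (fun v => cell D (X ^ 2) W v = l)).card : ℝ) ≤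
      (1 / (D * (X : ℝ) ^ 2)) / (1 / (N : ℝ) ^ 2) + 1 := by
    apply card_le_of_sep _ (fun v => (v.2 : ℝ) / v.1) ((W + l / D) / (X : ℝ) ^ 2) _ _ (by positivity)
    · intro v hv
      rw [mem_filter] at hv
      have e1 := SS_pos p _ W N hP1 hW.le v hv.1
      have hv1 := hv.1
      rw [mem_SS p _ W N hP1 hW.le] at hv1
      obtain ⟨h1, h2, h3, h4, h5, h6⟩ := hv1
      have hb : (0 : ℝ) < v.1 := by exact_mod_cast h1
      have hr : (((rho (X ^ 2) W v).toNat : ℕ) : ℝ) = rho (X ^ 2) W v := by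
        have : (((rho (X ^ 2) W v).toNat : ℕ) : ℤ) = rho (X ^ 2) W v := Int.toNat_of_nonneg h5
        exact_mod_cast this
      have h7 := hv.2
      unfold cell at h7
      have h8 : l * v.1 ≤ D * (rho (X ^ 2) W v).toNat := by
        rw [← h7]; exact Nat.div_mul_le_self _ _
      have h9 : D * (rho (X ^ 2) W v).toNat < (l + 1) * v.1 := by
        rw [← h7]
        have := Nat.lt_div_mul_add (a := D * (rho (X ^ 2) W v).toNat) h1
        linarith
      have h8' : (l : ℝ) * v.1 ≤ D * rho (X ^ 2) W v := by rw [← hr]; exact_mod_cast h8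
      have h9' : (D : ℝ) * rho (X ^ 2) W v ≤ (l + 1) * v.1 := by rw [← hr]; exact_mod_cast h9.le
      have a1 : (l : ℝ) / D ≤ (rho (X ^ 2) W v : ℝ) / v.1 := by
        rw [div_le_div_iff₀ hD0 hb]; linarith
      have a2 : (rho (X ^ 2) W v : ℝ) / v.1 ≤ (l + 1) / D := by
        rw [div_le_div_iff₀ hb hD0]; linarith
      rw [e1]
      push_cast
      constructor
      · gcongr
      · have : ((W : ℝ) + l / D) / X ^ 2 + 1 / (D * X ^ 2) = (W + (l + 1) / D) / X ^ 2 := by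
          field_simp; ring
        rw [this]
        gcongr
    · intro v hv w hw hne
      rw [mem_filter, mem_SS p _ W N hP1 hW.le] at hv hw
      exact frac_sep' v w N hv.1.1 hw.1.1 hv.1.2.1 hw.1.2.1 hne (by exact_mod_cast hv.1.2.2.1)
        (by exact_mod_cast hw.1.2.2.1)
    · positivity
  calc _ ≤ _ := h1
    _ = _ := by field_simp

/-- the number of the digit blocks which lead to a new cell -/
lemma new_cells (p : ℕ) (hp : p.Prime) (s D i W : ℕ) (hD : 1 ≤ D) (hW : W < (p ^ (s * i)) ^ 2) :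
    ((SS p ((p ^ (s * i)) ^ 2) W (p ^ (s * i) * p ^ s)).card : ℝ) - i * ((p : ℝ) ^ (2 * s) / D + 1) ≤
      (((range (p ^ (2 * s))).filter (fun A => (YY p s D i W).card + 1 ≤
        (YY p s D (i + 1) (A * (p ^ (s * i)) ^ 2 + W)).card)).card : ℝ) := by
  classical
  set X := p ^ (s * i) with hX
  have hX1 : 1 ≤ X := Nat.one_le_pow _ _ hp.pos
  have hN1 : 1 ≤ X * p ^ s := Nat.mul_pos hX1 (pow_pos hp.pos _)
  have hX0 : (0 : ℝ) < X := by exact_mod_cast hX1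
  have hD0 : (0 : ℝ) < D := by exact_mod_cast hD
  set S := SS p (X ^ 2) W (X * p ^ s) with hS
  set G := S.filter (fun v => cell D (X ^ 2) W v ∉ YY p s D i W) with hG
  -- lower bound for G
  have h1 : (S.card : ℝ) - i * ((p : ℝ) ^ (2 * s) / D + 1) ≤ G.card := by
    have h2 : S.card = (S.filter (fun v => cell D (X ^ 2) W v ∈ YY p s D i W)).card + G.card :=
      (card_filter_add_card_filter_not _).symm
    have h3 : S.filter (fun v => cell D (X ^ 2) W v ∈ YY p s D i W) ⊆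
        (YY p s D i W).biUnion (fun l => S.filter (fun v => cell D (X ^ 2) W v = l)) := by
      intro v hv
      rw [mem_filter] at hv
      rw [mem_biUnion]
      exact ⟨_, hv.2, by rw [mem_filter]; exact ⟨hv.1, rfl⟩⟩
    have h4 : ((S.filter (fun v => cell D (X ^ 2) W v ∈ YY p s D i W)).card : ℝ) ≤
        i * ((p : ℝ) ^ (2 * s) / D + 1) := by
      have h5 : (S.filter (fun v => cell D (X ^ 2) W v ∈ YY p s D i W)).card ≤
          ∑ l ∈ YY p s D i W, (S.filter (fun v => cell D (X ^ 2) W v = l)).card :=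
        (card_le_card h3).trans card_biUnion_le
      have h6 : ((S.filter (fun v => cell D (X ^ 2) W v ∈ YY p s D i W)).card : ℝ) ≤
          ∑ l ∈ YY p s D i W, ((S.filter (fun v => cell D (X ^ 2) W v = l)).card : ℝ) := by exact_mod_cast h5
      refine h6.trans ?_
      have h7 : ∀ l ∈ YY p s D i W, ((S.filter (fun v => cell D (X ^ 2) W v = l)).card : ℝ) ≤
          (p : ℝ) ^ (2 * s) / D + 1 := by
        intro l _
        refine (card_cell p D X W (X * p ^ s) l hD hX1 hN1 hW).trans (le_of_eq ?_)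
        push_cast
        have e1 : ((X : ℝ) * (p : ℝ) ^ s) ^ 2 = (p : ℝ) ^ (2 * s) * (X : ℝ) ^ 2 := by ring
        rw [e1]
        field_simp
      refine (sum_le_sum h7).trans ?_
      rw [sum_const, nsmul_eq_mul]
      have h8 : ((YY p s D i W).card : ℝ) ≤ i := by exact_mod_cast card_YY p s D i W hp.pos
      gcongr
    have h5 : (S.card : ℝ) = ((S.filter (fun v => cell D (X ^ 2) W v ∈ YY p s D i W)).card : ℝ) + G.card := by
      exact_mod_cast h2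
    linarith
  refine h1.trans ?_
  -- the injection
  have h2 : ∀ v : ℕ × ℤ, ∃ A : ℕ, v ∈ S → A < p ^ (2 * s) ∧ ∃ a : ℤ, a * (p : ℤ) ^ (2 * s) = v.2 + v.1 * (A : ℤ) ∧
      (v.1, a) ∈ SS p ((X * p ^ s) ^ 2) (A * X ^ 2 + W) (X * p ^ s) ∧
      rho ((X * p ^ s) ^ 2) (A * X ^ 2 + W) (v.1, a) = rho (X ^ 2) W v := by
    intro v
    by_cases hv : v ∈ S
    · obtain ⟨A, a, hA, ha, hb, hc⟩ := realise p hp s X W hX1 hW v hv
      exact ⟨A, fun _ => ⟨hA, a, ha, hb, hc⟩⟩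
    · exact ⟨0, fun h => absurd h hv⟩
  choose F hF using h2
  have hWA : ∀ A < p ^ (2 * s), A * X ^ 2 + W < (X * p ^ s) ^ 2 := by
    intro A hA
    have h4 : (X * p ^ s) ^ 2 = p ^ (2 * s) * X ^ 2 := by ring
    rw [h4]
    have h5 : (A + 1) * X ^ 2 ≤ p ^ (2 * s) * X ^ 2 := Nat.mul_le_mul_right _ hA
    nlinarith
  have h3 : G.card ≤ ((range (p ^ (2 * s))).filter (fun A => (YY p s D i W).card + 1 ≤
        (YY p s D (i + 1) (A * X ^ 2 + W)).card)).card := by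
    apply card_le_card_of_injOn F
    · intro v hv
      rw [mem_coe, hG, mem_filter] at hv
      obtain ⟨hA, a, ha, hb, hc⟩ := hF v hv.1
      simp only [coe_filter, mem_range, Set.mem_ofPred_eq]
      refine ⟨hA, ?_⟩
      rw [YY_succ p s D i W (F v) hp.pos hW hA]
      have h5 : cell D (X ^ 2) W v ∈ (SS p ((X * p ^ s) ^ 2) (F v * X ^ 2 + W) (X * p ^ s)).image
          (cell D ((X * p ^ s) ^ 2) (F v * X ^ 2 + W)) := by
        rw [mem_image]
        refine ⟨(v.1, a), hb, ?_⟩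
        unfold cell
        rw [hc]
      have h6 : (insert (cell D (X ^ 2) W v) (YY p s D i W)).card = (YY p s D i W).card + 1 :=
        card_insert_of_notMem hv.2
      rw [← h6]
      apply card_le_card
      intro l hl
      rw [mem_insert] at hl
      rw [mem_union]
      rcases hl with rfl | hl
      · right; exact h5
      · left; exact hl
    · intro v hv w hw hvw
      rw [mem_coe, hG, mem_filter] at hv hw
      obtain ⟨hA, a, ha, hb, hc⟩ := hF v hv.1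
      obtain ⟨hA', a', ha', hb', hc'⟩ := hF w hw.1
      rw [← hvw] at hb' ha'
      have h5 := card_le_one.1 (card_SS_le_one p (X * p ^ s) (F v * X ^ 2 + W) hN1 (hWA _ hA)) _ hb _ hb'
      rw [Prod.mk.injEq] at h5
      obtain ⟨h6, h7⟩ := h5
      rw [← h7, ← h6, ha] at ha'
      have h8 : v.2 = w.2 := by linarith
      exact Prod.ext h6 h8
  exact_mod_cast h3

end Pool.Agent.H587.PD
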