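import Mathlib
import Pool.Agent.H587.PD.Chain

set_option autoImplicit false

open Finset

namespace Pool.Agent.H587.PD

/-- the truncated potential -/
noncomputable def UU (B f : ℝ) : ℝ := if f ≤ B then 1 else 2 * f / B

lemma UU_le (B f : ℝ) (hB : 0 < B) (hf : 0 ≤ f) : UU B f ≤ 1 + 2 * f / B := by
  unfold UU
  split_ifs
  · have : 0 ≤ 2 * f / B := by positivity
    linarith
  · linarith

lemma one_le_UU (B f : ℝ) (hB : 0 < B) : 1 ≤ UU B f := by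
  unfold UU
  split_ifs with h
  · exact le_refl _
  · push Not at h
    rw [le_div_iff₀ hB]; linarith

/-- the function which decreases along the reversed chain -/
noncomputable def Psi (p s D : ℕ) (B : ℝ) (i W : ℕ) : ℝ :=
  UU B (ff ((p ^ (s * i)) ^ 2) W (p ^ (s * i))) * Real.exp (-((YY p s D i W).card : ℝ))

/-- one step of the reversed chain -/
lemma Psi_step (p : ℕ) (hp : p.Prime) (s D i W : ℕ) (B : ℝ) (hD : 1 ≤ D) (hi : 1 ≤ i) (hB : 1 ≤ B)
    (hR1 : 20000 * B ≤ (p : ℝ) ^ s)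
    (hE1 : (2 * s + 1) * (2 / (p : ℝ) ^ s + 12 * (p : ℝ) ^ 2 / B) ≤ 1 / 19200000)
    (hE2 : (i : ℝ) * (1 / D + 1 / (p : ℝ) ^ (2 * s)) ≤ 1 / 4800000)
    (hW : W < (p ^ (s * i)) ^ 2) :
    ∑ A ∈ range (p ^ (2 * s)), Psi p s D B (i + 1) (A * (p ^ (s * i)) ^ 2 + W) ≤
      (1 - 1 / 19200000) * (p : ℝ) ^ (2 * s) * Psi p s D B i W := by
  have hX1 : 1 ≤ p ^ (s * i) := Nat.one_le_pow _ _ hp.pos
  have hp0 : (0 : ℝ) < p := by exact_mod_cast hp.pos
  have hB0 : (0 : ℝ) < B := by linarith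
  have hD0 : (0 : ℝ) < D := by exact_mod_cast hD
  have hkey := contract2 p hp s (p ^ (s * i)) W hX1 hW
  have hXi : (p : ℝ) ^ s ≤ ((p ^ (s * i) : ℕ) : ℝ) := by
    push_cast
    apply pow_le_pow_right₀ (by exact_mod_cast hp.pos)
    nlinarith
  have e0 : p ^ (s * (i + 1)) = p ^ (s * i) * p ^ s := by rw [← pow_add]; congr 1
  set X := p ^ (s * i) with hX
  set R : ℝ := (p : ℝ) ^ s with hR
  have hR0 : 0 < R := by positivity
  have hRR : (p : ℝ) ^ (2 * s) = R ^ 2 := by rw [hR]; ring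
  set f := ff (X ^ 2) W X with hf
  have hf0 : 0 ≤ f := ff_nonneg _ _ _
  set y : ℕ := (YY p s D i W).card with hy
  set y' : ℕ → ℕ := fun A => (YY p s D (i + 1) (A * X ^ 2 + W)).card with hy'
  set f' : ℕ → ℝ := fun A => ff ((X * p ^ s) ^ 2) (A * X ^ 2 + W) (X * p ^ s) with hf'
  have hPs : ∀ A, Psi p s D B (i + 1) (A * X ^ 2 + W) = UU B (f' A) * Real.exp (-((y' A : ℕ) : ℝ)) := by
    intro A
    unfold Psi
    rw [e0]
  have hmono : ∀ A ∈ range (p ^ (2 * s)), y ≤ y' A := by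
    intro A hA
    rw [mem_range] at hA
    simp only [hy', hy]
    rw [YY_succ p s D i W A hp.pos hW hA]
    exact card_le_card subset_union_left
  have hE : ∀ A ∈ range (p ^ (2 * s)), Real.exp (-((y' A : ℕ) : ℝ)) ≤ Real.exp (-(y : ℝ)) := by
    intro A hA
    apply Real.exp_le_exp.2
    have : (y : ℝ) ≤ (y' A : ℕ) := by exact_mod_cast hmono A hA
    linarith
  have hf'0 : ∀ A, 0 ≤ f' A := fun A => ff_nonneg _ _ _
  have h1 : ∑ A ∈ range (p ^ (2 * s)), Psi p s D B (i + 1) (A * X ^ 2 + W) ≤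
      ∑ A ∈ range (p ^ (2 * s)), Real.exp (-((y' A : ℕ) : ℝ)) + 2 / B * Real.exp (-(y : ℝ)) *
        ∑ A ∈ range (p ^ (2 * s)), f' A := by
    rw [mul_sum, ← sum_add_distrib]
    apply sum_le_sum
    intro A hA
    rw [hPs A]
    have h2 := UU_le B (f' A) hB0 (hf'0 A)
    have h3 := hE A hA
    have h4 : 0 < Real.exp (-((y' A : ℕ) : ℝ)) := Real.exp_pos _
    calc UU B (f' A) * Real.exp (-((y' A : ℕ) : ℝ)) ≤ (1 + 2 * f' A / B) * Real.exp (-((y' A : ℕ) : ℝ)) := by gcongr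
      _ = Real.exp (-((y' A : ℕ) : ℝ)) + 2 / B * Real.exp (-((y' A : ℕ) : ℝ)) * f' A := by ring
      _ ≤ Real.exp (-((y' A : ℕ) : ℝ)) + 2 / B * Real.exp (-(y : ℝ)) * f' A := by
          have := hf'0 A
          gcongr
  have hey : 0 < Real.exp (-(y : ℝ)) := Real.exp_pos _
  have h2 : 2 / B * Real.exp (-(y : ℝ)) * ∑ A ∈ range (p ^ (2 * s)), f' A ≤
      2 / B * Real.exp (-(y : ℝ)) * ((2 * s + 1) * R * (f + 6 * (p : ℝ) ^ 2 * R)) := by
    apply mul_le_mul_of_nonneg_left hkey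
    positivity
  have hcardR : ((range (p ^ (2 * s))).card : ℝ) = R ^ 2 := by
    rw [card_range]; push_cast; exact hRR
  rw [hRR]
  by_cases hcase : f ≤ B
  · -- many new cells
    have h3 := succ_count p hp X W (p ^ s) B hB (by linarith) (by push_cast; exact hR1) hW hcase
    have h4 := new_cells p hp s D i W hD hW
    rw [← hX] at h4
    set T := (range (p ^ (2 * s))).filter (fun A => (YY p s D i W).card + 1 ≤
        (YY p s D (i + 1) (A * X ^ 2 + W)).card) with hT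
    have h5 : R ^ 2 / 4800000 ≤ (T.card : ℝ) := by
      have e1 : (i : ℝ) * ((p : ℝ) ^ (2 * s) / D + 1) = R ^ 2 * ((i : ℝ) * (1 / D + 1 / (p : ℝ) ^ (2 * s))) := by
        rw [hRR]; field_simp
      rw [e1] at h4
      have e2 : R ^ 2 * ((i : ℝ) * (1 / D + 1 / (p : ℝ) ^ (2 * s))) ≤ R ^ 2 * (1 / 4800000) := by gcongr
      have e3 : ((p ^ s : ℕ) : ℝ) ^ 2 = R ^ 2 := by push_cast; rfl
      rw [e3] at h3
      linarith
    have h6 : ∑ A ∈ range (p ^ (2 * s)), Real.exp (-((y' A : ℕ) : ℝ)) ≤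
        Real.exp (-(y : ℝ)) * (R ^ 2 - 1 / 2 * T.card) := by
      have h7 : ∀ A ∈ range (p ^ (2 * s)), Real.exp (-((y' A : ℕ) : ℝ)) ≤
          Real.exp (-(y : ℝ)) * (1 - 1 / 2 * (if y + 1 ≤ y' A then 1 else 0)) := by
        intro A hA
        split_ifs with h8
        · have h9 : Real.exp (-((y' A : ℕ) : ℝ)) ≤ Real.exp (-(y : ℝ) + (-1)) := by
            apply Real.exp_le_exp.2
            have : (y : ℝ) + 1 ≤ (y' A : ℕ) := by exact_mod_cast h8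
            linarith
          rw [Real.exp_add] at h9
          have h10 : Real.exp (-1) ≤ 1 / 2 := by
            have := Real.exp_neg_one_lt_d9
            linarith
          nlinarith
        · simpa using hE A hA
      refine (sum_le_sum h7).trans (le_of_eq ?_)
      rw [← mul_sum, sum_sub_distrib, ← mul_sum, sum_const, nsmul_eq_mul, hcardR, sum_boole]
      simp [hT, hy, hy']
    have h7 : Psi p s D B i W = Real.exp (-(y : ℝ)) := by
      unfold Psi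
      rw [← hX, ← hf, ← hy, UU, if_pos hcase, one_mul]
    rw [h7]
    have h8 : 2 / B * Real.exp (-(y : ℝ)) * ((2 * s + 1) * R * (f + 6 * (p : ℝ) ^ 2 * R)) ≤
        Real.exp (-(y : ℝ)) * (R ^ 2 * (1 / 19200000)) := by
      calc 2 / B * Real.exp (-(y : ℝ)) * ((2 * s + 1) * R * (f + 6 * (p : ℝ) ^ 2 * R))
          ≤ 2 / B * Real.exp (-(y : ℝ)) * ((2 * s + 1) * R * (B + 6 * (p : ℝ) ^ 2 * R)) := by gcongr
        _ = Real.exp (-(y : ℝ)) * (R ^ 2 * ((2 * s + 1) * (2 / R + 12 * (p : ℝ) ^ 2 / B))) := by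
            field_simp
            ring
        _ ≤ _ := by gcongr
    have h9 : Real.exp (-(y : ℝ)) * (R ^ 2 - 1 / 2 * T.card) ≤ Real.exp (-(y : ℝ)) * (R ^ 2 * (1 - 1 / 9600000)) := by
      apply mul_le_mul_of_nonneg_left _ hey.le
      linarith
    calc _ ≤ _ := h1
      _ ≤ Real.exp (-(y : ℝ)) * (R ^ 2 * (1 - 1 / 9600000)) + Real.exp (-(y : ℝ)) * (R ^ 2 * (1 / 19200000)) := by
          linarith
      _ = (1 - 1 / 19200000) * R ^ 2 * Real.exp (-(y : ℝ)) := by ring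
  · push Not at hcase
    have h7 : Psi p s D B i W = 2 * f / B * Real.exp (-(y : ℝ)) := by
      unfold Psi
      rw [← hX, ← hf, ← hy, UU, if_neg (by linarith)]
    rw [h7]
    have h6 : ∑ A ∈ range (p ^ (2 * s)), Real.exp (-((y' A : ℕ) : ℝ)) ≤ R ^ 2 * Real.exp (-(y : ℝ)) := by
      refine (sum_le_sum hE).trans (le_of_eq ?_)
      rw [sum_const, nsmul_eq_mul, hcardR]
    have h8 : 2 / B * Real.exp (-(y : ℝ)) * ((2 * s + 1) * R * (f + 6 * (p : ℝ) ^ 2 * R)) ≤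
        2 * f / B * Real.exp (-(y : ℝ)) * (R ^ 2 * (1 / 19200000)) := by
      have e1 : f + 6 * (p : ℝ) ^ 2 * R ≤ f * (1 + 6 * (p : ℝ) ^ 2 * R / B) := by
        have : 6 * (p : ℝ) ^ 2 * R ≤ f * (6 * (p : ℝ) ^ 2 * R / B) := by
          rw [mul_div_assoc', le_div_iff₀ hB0]
          have : 6 * (p : ℝ) ^ 2 * R * B ≤ 6 * (p : ℝ) ^ 2 * R * f := by gcongr
          linarith
        linarith
      calc 2 / B * Real.exp (-(y : ℝ)) * ((2 * s + 1) * R * (f + 6 * (p : ℝ) ^ 2 * R))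
          ≤ 2 / B * Real.exp (-(y : ℝ)) * ((2 * s + 1) * R * (f * (1 + 6 * (p : ℝ) ^ 2 * R / B))) := by gcongr
        _ = 2 * f / B * Real.exp (-(y : ℝ)) * (R ^ 2 * ((2 * s + 1) * (1 / R + 6 * (p : ℝ) ^ 2 / B))) := by
            field_simp
        _ ≤ 2 * f / B * Real.exp (-(y : ℝ)) * (R ^ 2 * ((2 * s + 1) * (2 / R + 12 * (p : ℝ) ^ 2 / B))) := by
            gcongr <;> norm_num
        _ ≤ _ := by gcongr
    have h9 : R ^ 2 * Real.exp (-(y : ℝ)) ≤ 1 / 2 * (2 * f / B * Real.exp (-(y : ℝ)) * R ^ 2) := by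
      have e1 : 1 ≤ f / B := by rw [le_div_iff₀ hB0]; linarith
      have e2 : 0 < R ^ 2 * Real.exp (-(y : ℝ)) := by positivity
      calc R ^ 2 * Real.exp (-(y : ℝ)) = 1 * (R ^ 2 * Real.exp (-(y : ℝ))) := by ring
        _ ≤ f / B * (R ^ 2 * Real.exp (-(y : ℝ))) := by gcongr
        _ = _ := by ring
    have h10 : 0 ≤ 2 * f / B * Real.exp (-(y : ℝ)) * R ^ 2 := by positivity
    have h11 : (1 - 1 / 19200000) * R ^ 2 * (2 * f / B * Real.exp (-(y : ℝ))) =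
      (1 - 1 / 19200000) * (2 * f / B * Real.exp (-(y : ℝ)) * R ^ 2) := by ring
    rw [h11]
    have h12 : 2 * f / B * Real.exp (-(y : ℝ)) * (R ^ 2 * (1 / 19200000)) =
      1 / 19200000 * (2 * f / B * Real.exp (-(y : ℝ)) * R ^ 2) := by ring
    rw [h12] at h8
    linarith

lemma sum_blocks (n : ℕ) (g : ℕ → ℝ) (m : ℕ) :
    ∑ W ∈ range (m * n), g W = ∑ A ∈ range m, ∑ W ∈ range n, g (A * n + W) := by
  induction m with
  | zero => simp
  | succ m ih => rw [add_mul, one_mul, sum_range_add, ih, sum_range_succ]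

lemma sum_digits (p s X : ℕ) (g : ℕ → ℝ) :
    ∑ W ∈ range ((X * p ^ s) ^ 2), g W = ∑ W ∈ range (X ^ 2), ∑ A ∈ range (p ^ (2 * s)), g (A * X ^ 2 + W) := by
  have h4 : (X * p ^ s) ^ 2 = p ^ (2 * s) * X ^ 2 := by ring
  rw [h4, sum_blocks, sum_comm]

lemma Psi_one (p : ℕ) (hp : p.Prime) (s D : ℕ) (B : ℝ) (hB : 1 ≤ B)
    (hR1 : 20000 * B ≤ (p : ℝ) ^ s)
    (hE1 : (2 * s + 1) * (2 / (p : ℝ) ^ s + 12 * (p : ℝ) ^ 2 / B) ≤ 1 / 19200000) :
    ∑ W ∈ range ((p ^ (s * 1)) ^ 2), Psi p s D B 1 W ≤ 2 * ((p : ℝ) ^ (s * 1)) ^ 2 := by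
  have hB0 : (0 : ℝ) < B := by linarith
  have hp0 : (0 : ℝ) < p := by exact_mod_cast hp.pos
  have hp1 : (1 : ℝ) ≤ p := by exact_mod_cast hp.pos
  have hkey := contract2 p hp s 1 0 le_rfl (by norm_num)
  have h6 : ff (1 ^ 2) 0 1 ≤ 6 := by
    unfold ff
    have h1 : ∀ v ∈ VV (1 ^ 2) 0 1, (((1 : ℕ) : ℝ)) / nv (1 ^ 2) 0 v ≤ 1 := by
      intro v hv
      rw [mem_VV _ _ _ (by norm_num) (by norm_num)] at hv
      have h2 : 1 ≤ nv (1 ^ 2) 0 v := hv.1.trans (le_max_left _ _)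
      rw [div_le_one (by exact_mod_cast h2)]
      exact_mod_cast h2
    refine (sum_le_sum h1).trans ?_
    rw [sum_const, nsmul_eq_mul, mul_one]
    have := card_VV (1 ^ 2) 0 1 (by norm_num) (by norm_num) (by norm_num)
    refine this.trans ?_
    norm_num
  have h1 : ∑ W ∈ range ((p ^ (s * 1)) ^ 2), Psi p s D B 1 W ≤ ∑ W ∈ range ((1 * p ^ s) ^ 2),
      (1 + 2 / B * ff ((1 * p ^ s) ^ 2) W (1 * p ^ s)) := by
    rw [mul_one, one_mul]
    apply sum_le_sum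
    intro W _
    unfold Psi
    rw [mul_one]
    have h2 := UU_le B (ff ((p ^ s) ^ 2) W (p ^ s)) hB0 (ff_nonneg _ _ _)
    have h3 : Real.exp (-((YY p s D 1 W).card : ℝ)) ≤ 1 := by
      rw [Real.exp_le_one_iff]
      simp
    have h4 := one_le_UU B (ff ((p ^ s) ^ 2) W (p ^ s)) hB0
    calc UU B (ff ((p ^ s) ^ 2) W (p ^ s)) * Real.exp (-((YY p s D 1 W).card : ℝ)) ≤
        UU B (ff ((p ^ s) ^ 2) W (p ^ s)) * 1 := by
          apply mul_le_mul_of_nonneg_left h3; linarith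
      _ ≤ _ := by rw [mul_one]; refine h2.trans (le_of_eq ?_); ring
  rw [sum_add_distrib, ← mul_sum, sum_digits] at h1
  have h7 : ∑ W ∈ range ((1 * p ^ s) ^ 2), ff ((1 * p ^ s) ^ 2) W (1 * p ^ s) =
      ∑ A ∈ range (p ^ (2 * s)), ff ((1 * p ^ s) ^ 2) (A * 1 ^ 2 + 0) (1 * p ^ s) := by
    rw [sum_digits]; simp
  rw [h7] at h1
  set R : ℝ := (p : ℝ) ^ s with hR
  have hR0 : 0 < R := by positivity
  have hR20 : 20000 ≤ R := by linarith
  have h8 : ∑ W ∈ range (1 ^ 2), ∑ A ∈ range (p ^ (2 * s)), (1 : ℝ) = R ^ 2 := by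
    simp [hR]; ring
  rw [h8] at h1
  have h9 : 2 / B * ∑ A ∈ range (p ^ (2 * s)), ff ((1 * p ^ s) ^ 2) (A * 1 ^ 2 + 0) (1 * p ^ s) ≤
      2 / B * ((2 * s + 1) * R * (6 + 6 * (p : ℝ) ^ 2 * R)) := by
    apply mul_le_mul_of_nonneg_left _ (by positivity)
    refine hkey.trans ?_
    gcongr
  have h10 : 2 / B * ((2 * s + 1) * R * (6 + 6 * (p : ℝ) ^ 2 * R)) ≤
      R ^ 2 * (2 * ((2 * s + 1) * (2 / (p : ℝ) ^ s + 12 * (p : ℝ) ^ 2 / B))) := by
    have e1 : 6 + 6 * (p : ℝ) ^ 2 * R ≤ 12 * (p : ℝ) ^ 2 * R := by nlinarith [sq_nonneg ((p : ℝ)), one_le_pow₀ (n := 2) hp1]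
    calc 2 / B * ((2 * s + 1) * R * (6 + 6 * (p : ℝ) ^ 2 * R)) ≤ 2 / B * ((2 * s + 1) * R * (12 * (p : ℝ) ^ 2 * R)) := by gcongr
      _ = R ^ 2 * (2 * ((2 * s + 1) * (0 + 12 * (p : ℝ) ^ 2 / B))) := by ring
      _ ≤ _ := by
        have : 0 ≤ 2 / (p : ℝ) ^ s := by positivity
        gcongr
  have h11 : R ^ 2 * (2 * ((2 * s + 1) * (2 / (p : ℝ) ^ s + 12 * (p : ℝ) ^ 2 / B))) ≤ R ^ 2 * (2 * (1 / 19200000)) := by
    gcongr
  rw [show s * 1 = s from mul_one s] at h1 ⊢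
  have h12 : 0 ≤ R ^ 2 := by positivity
  rw [← hR]
  rw [← hR] at h10
  linarith

lemma Psi_total (p : ℕ) (hp : p.Prime) (s D : ℕ) (B : ℝ) (hD : 1 ≤ D) (hB : 1 ≤ B)
    (hR1 : 20000 * B ≤ (p : ℝ) ^ s)
    (hE1 : (2 * s + 1) * (2 / (p : ℝ) ^ s + 12 * (p : ℝ) ^ 2 / B) ≤ 1 / 19200000) (m : ℕ)
    (hE2 : ((m : ℝ) + 1) * (1 / D + 1 / (p : ℝ) ^ (2 * s)) ≤ 1 / 4800000) :
    ∑ W ∈ range ((p ^ (s * (m + 1))) ^ 2), Psi p s D B (m + 1) W ≤
      2 * (1 - 1 / 19200000) ^ m * ((p : ℝ) ^ (s * (m + 1))) ^ 2 := by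
  induction m with
  | zero =>
    have := Psi_one p hp s D B hB hR1 hE1
    simpa using this
  | succ m ih =>
    have hp0 : (0 : ℝ) < p := by exact_mod_cast hp.pos
    have hE3 : ((m : ℝ) + 1) * (1 / D + 1 / (p : ℝ) ^ (2 * s)) ≤ 1 / 4800000 := by
      refine le_trans ?_ hE2
      push_cast
      gcongr
      linarith
    have e0 : p ^ (s * (m + 1 + 1)) = p ^ (s * (m + 1)) * p ^ s := by rw [← pow_add]; congr 1
    rw [e0, sum_digits]
    have h1 : ∀ W ∈ range ((p ^ (s * (m + 1))) ^ 2), ∑ A ∈ range (p ^ (2 * s)),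
        Psi p s D B (m + 1 + 1) (A * (p ^ (s * (m + 1))) ^ 2 + W) ≤
        (1 - 1 / 19200000) * (p : ℝ) ^ (2 * s) * Psi p s D B (m + 1) W := by
      intro W hW
      rw [mem_range] at hW
      exact Psi_step p hp s D (m + 1) W B hD (by omega) hB hR1 hE1 (by push_cast; exact hE3) hW
    refine (sum_le_sum h1).trans ?_
    rw [← mul_sum]
    calc (1 - 1 / 19200000) * (p : ℝ) ^ (2 * s) * ∑ W ∈ range ((p ^ (s * (m + 1))) ^ 2), Psi p s D B (m + 1) W
        ≤ (1 - 1 / 19200000) * (p : ℝ) ^ (2 * s) * (2 * (1 - 1 / 19200000) ^ m * ((p : ℝ) ^ (s * (m + 1))) ^ 2) := by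
          apply mul_le_mul_of_nonneg_left (ih hE3)
          have : (0 : ℝ) ≤ 1 - 1 / 19200000 := by norm_num
          positivity
      _ = 2 * (1 - 1 / 19200000) ^ (m + 1) * ((p : ℝ) ^ (s * (m + 1 + 1))) ^ 2 := by
          have : ((p : ℝ) ^ (s * (m + 1 + 1))) ^ 2 = (p : ℝ) ^ (2 * s) * ((p : ℝ) ^ (s * (m + 1))) ^ 2 := by
            rw [← pow_mul, ← pow_mul, ← pow_add]; congr 1; ring
          rw [this, pow_succ]
          ring

/-- most digit blocks lead to many cells -/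
theorem few_cells (p : ℕ) (hp : p.Prime) (s D : ℕ) (B : ℝ) (hD : 1 ≤ D) (hB : 1 ≤ B)
    (hR1 : 20000 * B ≤ (p : ℝ) ^ s)
    (hE1 : (2 * s + 1) * (2 / (p : ℝ) ^ s + 12 * (p : ℝ) ^ 2 / B) ≤ 1 / 19200000) (M : ℕ) (hM : 1 ≤ M)
    (hE2 : (M : ℝ) * (1 / D + 1 / (p : ℝ) ^ (2 * s)) ≤ 1 / 4800000) :
    ((((range ((p ^ (s * M)) ^ 2)).filter (fun W => ((YY p s D M W).card : ℝ) ≤ M / 38400000)).card : ℕ) : ℝ) ≤
      4 * Real.exp (-(M : ℝ) / 38400000) * ((p : ℝ) ^ (s * M)) ^ 2 := by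
  obtain ⟨m, rfl⟩ : ∃ m, M = m + 1 := ⟨M - 1, by omega⟩
  have hB0 : (0 : ℝ) < B := by linarith
  have hp0 : (0 : ℝ) < p := by exact_mod_cast hp.pos
  have h1 := Psi_total p hp s D B hD hB hR1 hE1 m (by push_cast at hE2; exact hE2)
  set T := (range ((p ^ (s * (m + 1))) ^ 2)).filter (fun W => ((YY p s D (m + 1) W).card : ℝ) ≤ ((m + 1 : ℕ) : ℝ) / 38400000) with hT
  have h2 : (T.card : ℝ) * Real.exp (-(((m + 1 : ℕ) : ℝ) / 38400000)) ≤
      ∑ W ∈ range ((p ^ (s * (m + 1))) ^ 2), Psi p s D B (m + 1) W := by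
    have h3 : ∑ W ∈ T, Psi p s D B (m + 1) W ≤ ∑ W ∈ range ((p ^ (s * (m + 1))) ^ 2), Psi p s D B (m + 1) W := by
      apply sum_le_sum_of_subset_of_nonneg (filter_subset _ _)
      intro W _ _
      unfold Psi
      have := one_le_UU B (ff ((p ^ (s * (m + 1))) ^ 2) W (p ^ (s * (m + 1)))) hB0
      have := Real.exp_pos (-((YY p s D (m + 1) W).card : ℝ))
      positivity
    refine le_trans ?_ h3
    rw [← nsmul_eq_mul, ← sum_const]
    apply sum_le_sum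
    intro W hW
    rw [hT, mem_filter] at hW
    unfold Psi
    have h4 := one_le_UU B (ff ((p ^ (s * (m + 1))) ^ 2) W (p ^ (s * (m + 1)))) hB0
    have h5 : Real.exp (-(((m + 1 : ℕ) : ℝ) / 38400000)) ≤ Real.exp (-((YY p s D (m + 1) W).card : ℝ)) := by
      apply Real.exp_le_exp.2
      linarith [hW.2]
    have h6 := Real.exp_pos (-((YY p s D (m + 1) W).card : ℝ))
    nlinarith
  have h3 : (1 - 1 / 19200000 : ℝ) ^ m ≤ Real.exp (-(m : ℝ) / 19200000) := by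
    have h4 : (1 - 1 / 19200000 : ℝ) ≤ Real.exp (-(1 / 19200000)) := by
      have := Real.add_one_le_exp (-(1 / 19200000 : ℝ))
      linarith
    calc (1 - 1 / 19200000 : ℝ) ^ m ≤ (Real.exp (-(1 / 19200000))) ^ m := by
          apply pow_le_pow_left₀ (by norm_num) h4
      _ = _ := by rw [← Real.exp_nat_mul]; congr 1; ring
  have h4 : (T.card : ℝ) * Real.exp (-(((m + 1 : ℕ) : ℝ) / 38400000)) ≤
      2 * Real.exp (-(m : ℝ) / 19200000) * ((p : ℝ) ^ (s * (m + 1))) ^ 2 := by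
    refine (h2.trans h1).trans ?_
    gcongr
  have h5 : (T.card : ℝ) = (T.card : ℝ) * Real.exp (-(((m + 1 : ℕ) : ℝ) / 38400000)) * Real.exp (((m + 1 : ℕ) : ℝ) / 38400000) := by
    rw [mul_assoc, ← Real.exp_add]; simp
  rw [h5]
  calc _ ≤ 2 * Real.exp (-(m : ℝ) / 19200000) * ((p : ℝ) ^ (s * (m + 1))) ^ 2 * Real.exp (((m + 1 : ℕ) : ℝ) / 38400000) := by
        gcongr
    _ = 2 * Real.exp (1 / 19200000) * Real.exp (-((m + 1 : ℕ) : ℝ) / 38400000) * ((p : ℝ) ^ (s * (m + 1))) ^ 2 := by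
        have : Real.exp (-(m : ℝ) / 19200000) * Real.exp (((m + 1 : ℕ) : ℝ) / 38400000) =
            Real.exp (1 / 19200000) * Real.exp (-((m + 1 : ℕ) : ℝ) / 38400000) := by
          rw [← Real.exp_add, ← Real.exp_add]; congr 1; push_cast; ring
        linear_combination 2 * ((p : ℝ) ^ (s * (m + 1))) ^ 2 * this
    _ ≤ _ := by
        have h6 : Real.exp (1 / 19200000) ≤ 2 := by
          have h7 : Real.exp (1 / 19200000) ≤ Real.exp (Real.log 2) := by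
            apply Real.exp_le_exp.2
            have := Real.log_two_gt_d9
            linarith
          rwa [Real.exp_log (by norm_num)] at h7
        gcongr
        linarith

end Pool.Agent.H587.PD
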