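import Mathlib
import Pool.Agent.H587.PD.Mart

set_option autoImplicit false

open Finset

namespace Pool.Agent.H587.PD

/-- the distance to the nearest integer -/
noncomputable def nint (x : ℝ) : ℝ := |x - round x|

lemma nint_le (x : ℝ) (b : ℤ) : nint x ≤ |x - b| := round_le x b

/-- a digit block which hits a cell gives a good approximation -/
lemma hit (p : ℕ) (hp : p.Prime) (s D M n : ℕ) (hD : 1 ≤ D) (hn : 2 * s * M ≤ n) (x θ : ℝ)
    (W A : ℕ) (hx : (p : ℝ) ^ n * x = W + θ) (h1 : (A : ℝ) ≤ D * θ) (h2 : D * θ < A + 1)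
    (hA : A ∈ YY p s D M (W % (p ^ (s * M)) ^ 2)) :
    ∃ j m : ℕ, n - 2 * s * M ≤ j ∧ p ^ j * m ≤ p ^ n ∧ ¬ p ∣ m ∧ 1 ≤ m ∧
      (m : ℝ) * nint ((p : ℝ) ^ j * m * x) < 1 / D := by
  unfold YY at hA
  rw [mem_biUnion] at hA
  obtain ⟨k, hk, hA⟩ := hA
  rw [mem_Icc] at hk
  have hdvd : (p ^ (s * k)) ^ 2 ∣ (p ^ (s * M)) ^ 2 :=
    pow_dvd_pow_of_dvd (pow_dvd_pow _ (Nat.mul_le_mul_left _ hk.2)) _
  rw [Nat.mod_mod_of_dvd _ hdvd, mem_image] at hA
  obtain ⟨v, hv, hcell⟩ := hA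
  have hp0 : (0 : ℝ) < p := by exact_mod_cast hp.pos
  have hX1 : 1 ≤ p ^ (s * k) := Nat.one_le_pow _ _ hp.pos
  have hkn : 2 * (s * k) ≤ n := by
    have : 2 * s * k ≤ 2 * s * M := Nat.mul_le_mul_left _ hk.2
    nlinarith
  have hpn : p ^ n = p ^ (n - 2 * (s * k)) * (p ^ (s * k)) ^ 2 := by
    rw [← pow_mul, ← pow_add]; congr 1; omega
  set X := p ^ (s * k) with hX
  set j := n - 2 * (s * k) with hj
  have hX0 : (0 : ℝ) < X := by exact_mod_cast hX1
  have hD0 : (0 : ℝ) < D := by exact_mod_cast hD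
  have hPX : 1 ≤ X ^ 2 := Nat.one_le_pow _ _ hX1
  set V := W % X ^ 2 with hV
  have hVX : V < X ^ 2 := Nat.mod_lt _ (by omega)
  rw [mem_SS p _ _ _ hPX hVX.le] at hv
  obtain ⟨g1, g2, g3, g4, g5, g6⟩ := hv
  have hm0 : (0 : ℝ) < v.1 := by exact_mod_cast g1
  refine ⟨j, v.1, ?_, ?_, g4, g1, ?_⟩
  · have : 2 * (s * k) ≤ 2 * s * M := by
      have : 2 * s * k ≤ 2 * s * M := Nat.mul_le_mul_left _ hk.2
      nlinarith
    omega
  · rw [hpn]
    apply Nat.mul_le_mul_left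
    calc v.1 ≤ X := g3
      _ = X ^ 1 := (pow_one _).symm
      _ ≤ X ^ 2 := Nat.pow_le_pow_right hX1 (by norm_num)
  · have hr : (((rho (X ^ 2) V v).toNat : ℕ) : ℝ) = rho (X ^ 2) V v := by
      have : (((rho (X ^ 2) V v).toNat : ℕ) : ℤ) = rho (X ^ 2) V v := Int.toNat_of_nonneg g5
      exact_mod_cast this
    unfold cell at hcell
    have h8 : A * v.1 ≤ D * (rho (X ^ 2) V v).toNat := by
      rw [← hcell]; exact Nat.div_mul_le_self _ _
    have h9 : D * (rho (X ^ 2) V v).toNat < (A + 1) * v.1 := by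
      rw [← hcell]
      have := Nat.lt_div_mul_add (a := D * (rho (X ^ 2) V v).toNat) g1
      linarith
    have h8' : (A : ℝ) * v.1 ≤ D * rho (X ^ 2) V v := by rw [← hr]; exact_mod_cast h8
    have h9' : (D : ℝ) * rho (X ^ 2) V v < (A + 1) * v.1 := by rw [← hr]; exact_mod_cast h9
    have h10 : |(v.1 : ℝ) * (D * θ) - D * rho (X ^ 2) V v| < v.1 := by
      rw [abs_lt]
      constructor
      · nlinarith
      · nlinarith
    obtain ⟨u, hu⟩ : ∃ u : ℕ, W = V + X ^ 2 * u := ⟨W / X ^ 2, (Nat.mod_add_div W (X ^ 2)).symm⟩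
    have hWV : (W : ℝ) = V + (X : ℝ) ^ 2 * (u : ℝ) := by exact_mod_cast hu
    have hx2 : (p : ℝ) ^ j * x * (X : ℝ) ^ 2 = W + θ := by
      rw [← hx]
      have : (p : ℝ) ^ n = (p : ℝ) ^ j * (X : ℝ) ^ 2 := by exact_mod_cast hpn
      rw [this]; ring
    have h11 : nint ((p : ℝ) ^ j * v.1 * x) ≤ |(p : ℝ) ^ j * v.1 * x - ((v.1 * (u : ℤ) + v.2 : ℤ) : ℝ)| :=
      nint_le _ _
    have h12 : (p : ℝ) ^ j * v.1 * x - ((v.1 * (u : ℤ) + v.2 : ℤ) : ℝ) =
        (v.1 * (D * θ) - D * rho (X ^ 2) V v) / (D * (X : ℝ) ^ 2) := by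
      rw [cast_rho, eq_div_iff (by positivity)]
      push_cast
      have : (p : ℝ) ^ j * x * (X : ℝ) ^ 2 = V + (X : ℝ) ^ 2 * (u : ℝ) + θ := by rw [hx2, hWV]
      linear_combination (v.1 : ℝ) * D * this
    rw [h12, abs_div, abs_of_pos (show (0 : ℝ) < D * (X : ℝ) ^ 2 by positivity)] at h11
    have h13 : nint ((p : ℝ) ^ j * v.1 * x) < v.1 / (D * (X : ℝ) ^ 2) := by
      refine lt_of_le_of_lt h11 ?_
      gcongr
    have h14 : (v.1 : ℝ) ≤ X := by exact_mod_cast g3
    calc (v.1 : ℝ) * nint ((p : ℝ) ^ j * v.1 * x) < v.1 * (v.1 / (D * (X : ℝ) ^ 2)) := by gcongr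
      _ ≤ X * (X / (D * (X : ℝ) ^ 2)) := by gcongr
      _ = 1 / D := by field_simp

lemma card_mod (n m : ℕ) (q : ℕ → Prop) [DecidablePred q] :
    ((range (m * n)).filter (fun W => q (W % n))).card = m * ((range n).filter q).card := by
  have h1 : ((((range (m * n)).filter (fun W => q (W % n))).card : ℕ) : ℝ) =
      (m : ℝ) * (((range n).filter q).card : ℕ) := by
    rw [← sum_boole, ← sum_boole, sum_blocks n (fun W => if q (W % n) then (1 : ℝ) else 0) m]
    have h2 : ∀ A ∈ range m, ∑ W ∈ range n, (if q ((A * n + W) % n) then (1 : ℝ) else 0) =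
        ∑ W ∈ range n, (if q W then (1 : ℝ) else 0) := by
      intro A _
      apply sum_congr rfl
      intro W hW
      rw [mem_range] at hW
      have : (A * n + W) % n = W := by
        rw [Nat.add_mod, Nat.mul_mod_left, zero_add, Nat.mod_mod, Nat.mod_eq_of_lt hW]
      rw [this]
    rw [sum_congr rfl h2, sum_const, card_range, nsmul_eq_mul]
  exact_mod_cast h1

open Classical in
/-- the prefixes of the elements of `E` -/
noncomputable def TT (p n : ℕ) (E : Set ℝ) : Finset ℕ :=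
  (range (p ^ n)).filter (fun W => ∃ x ∈ E, (W : ℝ) ≤ (p : ℝ) ^ n * x ∧ (p : ℝ) ^ n * x < W + 1)

/-- the number of the prefixes -/
theorem survivors (p : ℕ) (hp : p.Prime) (s S' M n₀ Nq : ℕ) (B : ℝ) (hB : 1 ≤ B)
    (hR1 : 20000 * B ≤ (p : ℝ) ^ s)
    (hE1 : (2 * s + 1) * (2 / (p : ℝ) ^ s + 12 * (p : ℝ) ^ 2 / B) ≤ 1 / 19200000) (hM : 1 ≤ M)
    (hE2 : (M : ℝ) * (1 / (p : ℝ) ^ S' + 1 / (p : ℝ) ^ (2 * s)) ≤ 1 / 4800000) (hn : 2 * s * M ≤ n₀)
    (E : Set ℝ) (hE : ∀ x ∈ E, ∀ j m : ℕ, n₀ - 2 * s * M ≤ j → p ^ j * m ≤ p ^ Nq → ¬ p ∣ m → 1 ≤ m →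
      1 / (p : ℝ) ^ S' ≤ m * nint ((p : ℝ) ^ j * m * x)) (L : ℕ) (hL : n₀ + L * S' ≤ Nq) :
    ((TT p (n₀ + L * S') E).card : ℝ) ≤ (p : ℝ) ^ (n₀ + L * S') *
      ((1 - (M : ℝ) / 38400000 / (p : ℝ) ^ S') ^ L + 4 * L * Real.exp (-(M : ℝ) / 38400000)) := by
  classical
  have hp0 : (0 : ℝ) < p := by exact_mod_cast hp.pos
  have hM0 : (0 : ℝ) < M := by exact_mod_cast hM
  have hD1 : 1 ≤ p ^ S' := Nat.one_le_pow _ _ hp.pos
  have hDr : ((p ^ S' : ℕ) : ℝ) = (p : ℝ) ^ S' := by push_cast; rfl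
  have hD0 : (0 : ℝ) < (p : ℝ) ^ S' := by positivity
  have hMD : (M : ℝ) / (p : ℝ) ^ S' ≤ 1 := by
    have h1 : (M : ℝ) * (1 / (p : ℝ) ^ S') ≤ (M : ℝ) * (1 / (p : ℝ) ^ S' + 1 / (p : ℝ) ^ (2 * s)) := by
      apply mul_le_mul_of_nonneg_left _ hM0.le
      have : 0 < 1 / (p : ℝ) ^ (2 * s) := by positivity
      linarith
    have h2 : (M : ℝ) / (p : ℝ) ^ S' = (M : ℝ) * (1 / (p : ℝ) ^ S') := by ring
    rw [h2]; linarith
  have hc : 0 ≤ 1 - (M : ℝ) / 38400000 / (p : ℝ) ^ S' := by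
    have : (M : ℝ) / 38400000 / (p : ℝ) ^ S' = (M : ℝ) / (p : ℝ) ^ S' / 38400000 := by ring
    rw [this]
    linarith
  have hc1 : 1 - (M : ℝ) / 38400000 / (p : ℝ) ^ S' ≤ 1 := by
    have : 0 ≤ (M : ℝ) / 38400000 / (p : ℝ) ^ S' := by positivity
    linarith
  induction L with
  | zero =>
    simp only [zero_mul, add_zero, pow_zero, Nat.cast_zero, mul_zero, mul_one]
    have h1 : (TT p n₀ E).card ≤ p ^ n₀ := by
      unfold TT
      refine (card_filter_le _ _).trans ?_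
      rw [card_range]
    exact_mod_cast h1
  | succ L ih =>
    have ih' := ih (by rw [add_mul] at hL; omega)
    set n := n₀ + L * S' with hndef
    have hn1 : n₀ + (L + 1) * S' = n + S' := by rw [hndef]; ring
    rw [hn1] at hL ⊢
    have hn2 : 2 * s * M ≤ n := by omega
    set D := p ^ S' with hD
    set PM := (p ^ (s * M)) ^ 2 with hPM
    have hsub : TT p (n + S') E ⊆ (TT p n E).biUnion (fun W => ((range D) \ YY p s D M (W % PM)).image
        (fun A => W * D + A)) := by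
      intro V hV
      unfold TT at hV
      rw [mem_filter, mem_range] at hV
      obtain ⟨hV1, x, hx, hx1, hx2⟩ := hV
      rw [mem_biUnion]
      have hVD := Nat.div_add_mod V D
      have hVD2 : V % D < D := Nat.mod_lt _ hD1
      have hpnS : (p : ℝ) ^ (n + S') * x = (p : ℝ) ^ n * x * D := by rw [hDr, pow_add]; ring
      rw [hpnS] at hx1 hx2
      have hDp : (0 : ℝ) < D := by rw [hDr]; exact hD0
      have hVr : (V : ℝ) = D * ((V / D : ℕ) : ℝ) + ((V % D : ℕ) : ℝ) := by exact_mod_cast hVD.symm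
      have hmod0 : (0 : ℝ) ≤ ((V % D : ℕ) : ℝ) := by positivity
      have hmod1 : ((V % D : ℕ) : ℝ) + 1 ≤ D := by exact_mod_cast hVD2
      have hW1 : ((V / D : ℕ) : ℝ) ≤ (p : ℝ) ^ n * x := by
        by_contra hcon
        push Not at hcon
        have : (p : ℝ) ^ n * x * D < ((V / D : ℕ) : ℝ) * D := by gcongr
        nlinarith
      have hW2 : (p : ℝ) ^ n * x < ((V / D : ℕ) : ℝ) + 1 := by
        by_contra hcon
        push Not at hcon
        have : (((V / D : ℕ) : ℝ) + 1) * D ≤ (p : ℝ) ^ n * x * D := by gcongr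
        nlinarith
      refine ⟨V / D, ?_, ?_⟩
      · unfold TT
        rw [mem_filter, mem_range]
        refine ⟨?_, x, hx, hW1, hW2⟩
        rw [Nat.div_lt_iff_lt_mul hD1, hD, ← pow_add]
        exact hV1
      · rw [mem_image]
        refine ⟨V % D, ?_, by rw [mul_comm]; exact hVD⟩
        rw [mem_sdiff, mem_range]
        refine ⟨hVD2, fun hA => ?_⟩
        obtain ⟨j, m, g1, g2, g3, g4, g5⟩ := hit p hp s D M n hD1 hn2 x ((p : ℝ) ^ n * x - ((V / D : ℕ) : ℝ)) (V / D)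
          (V % D) (by ring) (by nlinarith) (by nlinarith) hA
        have h6 := hE x hx j m (by omega) (g2.trans (Nat.pow_le_pow_right hp.pos (by omega))) g3 g4
        rw [hDr] at g5
        linarith
    have h1 : ((TT p (n + S') E).card : ℝ) ≤ ∑ W ∈ TT p n E, ((D : ℝ) - ((YY p s D M (W % PM)).card : ℝ)) := by
      have h2 : (TT p (n + S') E).card ≤ ∑ W ∈ TT p n E, ((range D) \ YY p s D M (W % PM)).card :=
        (card_le_card hsub).trans (card_biUnion_le.trans (sum_le_sum fun W _ => card_image_le))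
      have h3 : ((TT p (n + S') E).card : ℝ) ≤ ∑ W ∈ TT p n E, (((range D) \ YY p s D M (W % PM)).card : ℝ) := by
        exact_mod_cast h2
      refine h3.trans (le_of_eq (sum_congr rfl fun W _ => ?_))
      rw [cast_card_sdiff (YY_subset p s D M _ hp.pos hD1), card_range]
    set bad := (range (p ^ n)).filter (fun W => ((YY p s D M (W % PM)).card : ℝ) ≤ M / 38400000) with hbad
    have h2 : ∑ W ∈ TT p n E, ((D : ℝ) - ((YY p s D M (W % PM)).card : ℝ)) ≤
        ((D : ℝ) - M / 38400000) * (TT p n E).card + D * bad.card := by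
      have h3 : ∀ W ∈ TT p n E, ((D : ℝ) - ((YY p s D M (W % PM)).card : ℝ)) ≤ ((D : ℝ) - M / 38400000) +
          D * (if ((YY p s D M (W % PM)).card : ℝ) ≤ M / 38400000 then 1 else 0) := by
        intro W _
        split_ifs with h4
        · have h5 : (0 : ℝ) ≤ ((YY p s D M (W % PM)).card : ℝ) := by positivity
          have h6 : (M : ℝ) / 38400000 ≤ D := by
            rw [hDr]
            rw [div_le_one hD0] at hMD
            linarith
          linarith
        · push Not at h4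
          linarith
      refine (sum_le_sum h3).trans ?_
      rw [sum_add_distrib, sum_const, nsmul_eq_mul, ← mul_sum, sum_boole]
      have h4 : (((TT p n E).filter (fun W => ((YY p s D M (W % PM)).card : ℝ) ≤ M / 38400000)).card : ℝ) ≤ bad.card := by
        have : ((TT p n E).filter (fun W => ((YY p s D M (W % PM)).card : ℝ) ≤ M / 38400000)) ⊆ bad := by
          rw [hbad]
          apply filter_subset_filter
          unfold TT
          exact filter_subset _ _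
        exact_mod_cast card_le_card this
      have h5 : (0 : ℝ) ≤ D := by positivity
      nlinarith
    have h3 : (bad.card : ℝ) ≤ (p : ℝ) ^ n * (4 * Real.exp (-(M : ℝ) / 38400000)) := by
      have e1 : p ^ n = p ^ (n - 2 * (s * M)) * PM := by
        rw [hPM, ← pow_mul, ← pow_add]; congr 1
        have : 2 * s * M = 2 * (s * M) := by ring
        omega
      have e2 : bad.card = p ^ (n - 2 * (s * M)) * ((range PM).filter (fun W => ((YY p s D M W).card : ℝ) ≤ M / 38400000)).card := by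
        rw [hbad, e1]
        exact card_mod PM _ (fun W => ((YY p s D M W).card : ℝ) ≤ M / 38400000)
      have e3 := few_cells p hp s D B hD1 hB hR1 hE1 M hM (by rw [hDr]; exact hE2)
      rw [e2]
      push_cast
      rw [← hPM] at e3
      have e4 : (p : ℝ) ^ n = (p : ℝ) ^ (n - 2 * (s * M)) * ((p : ℝ) ^ (s * M)) ^ 2 := by
        have : ((p ^ n : ℕ) : ℝ) = ((p ^ (n - 2 * (s * M)) * PM : ℕ) : ℝ) := by rw [e1]
        rw [hPM] at this
        push_cast at this
        exact this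
      rw [e4]
      calc (p : ℝ) ^ (n - 2 * (s * M)) * (((range PM).filter (fun W => ((YY p s D M W).card : ℝ) ≤ M / 38400000)).card : ℝ)
          ≤ (p : ℝ) ^ (n - 2 * (s * M)) * (4 * Real.exp (-(M : ℝ) / 38400000) * ((p : ℝ) ^ (s * M)) ^ 2) := by gcongr
        _ = _ := by ring
    have h4 : (D : ℝ) - M / 38400000 = D * (1 - (M : ℝ) / 38400000 / (p : ℝ) ^ S') := by
      rw [hDr]; field_simp
    have hpn0 : (0 : ℝ) < (p : ℝ) ^ n := by positivity
    have hDn : (0 : ℝ) ≤ D := by positivity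
    set E1 := Real.exp (-(M : ℝ) / 38400000) with hE1'
    have hE10 : 0 < E1 := Real.exp_pos _
    set r := 1 - (M : ℝ) / 38400000 / (p : ℝ) ^ S' with hr
    calc ((TT p (n + S') E).card : ℝ) ≤ _ := h1
      _ ≤ _ := h2
      _ = D * r * (TT p n E).card + D * bad.card := by rw [h4]
      _ ≤ D * r * ((p : ℝ) ^ n * (r ^ L + 4 * L * E1)) + D * ((p : ℝ) ^ n * (4 * E1)) := by gcongr
      _ = D * (p : ℝ) ^ n * (r ^ (L + 1) + r * (4 * L * E1) + 4 * E1) := by ring
      _ ≤ D * (p : ℝ) ^ n * (r ^ (L + 1) + 1 * (4 * L * E1) + 4 * E1) := by gcongr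
      _ = (p : ℝ) ^ (n + S') * (r ^ (L + 1) + 4 * ((L + 1 : ℕ) : ℝ) * E1) := by
          rw [hDr, pow_add]; push_cast; ring

end Pool.Agent.H587.PD
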