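import Mathlib
import Pool.Agent.H587.PD.Forward

set_option autoImplicit false

open Finset Filter

namespace Pool.Agent.H587.PD

lemma ev_log (a b c r : ℝ) (hc : 0 < c) (hr : 0 < r) :
    ∀ᶠ K : ℕ in atTop, a + b * Real.log K ≤ c * (K : ℝ) ^ r := by
  have h1 := (isLittleO_log_rpow_atTop hr).def (c := c / (2 * (|b| + 1))) (by positivity)
  have h2 : ∀ᶠ x : ℝ in atTop, a ≤ c / 2 * x ^ r := by
    have := (tendsto_rpow_atTop hr).const_mul_atTop (show 0 < c / 2 by positivity)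
    exact this.eventually_ge_atTop a
  have h3 : ∀ᶠ x : ℝ in atTop, a + b * Real.log x ≤ c * x ^ r := by
    filter_upwards [h1, h2, eventually_ge_atTop 1] with x h1 h2 hx
    have hx0 : 0 ≤ Real.log x := Real.log_nonneg hx
    have hxr : 0 < x ^ r := by positivity
    rw [Real.norm_of_nonneg hx0, Real.norm_of_nonneg hxr.le] at h1
    have h4 : b * Real.log x ≤ (|b| + 1) * Real.log x := by
      apply mul_le_mul_of_nonneg_right _ hx0
      linarith [le_abs_self b]
    have h5 : (|b| + 1) * Real.log x ≤ c / 2 * x ^ r := by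
      calc (|b| + 1) * Real.log x ≤ (|b| + 1) * (c / (2 * (|b| + 1)) * x ^ r) := by gcongr
        _ = c / 2 * x ^ r := by field_simp
    linarith
  exact tendsto_natCast_atTop_atTop.eventually h3

lemma exists_s (p : ℕ) (hp : p.Prime) : ∃ s₁ : ℕ, 10000000 ≤ s₁ ∧ ∀ s : ℕ, s₁ ≤ s →
    1 ≤ (p : ℝ) ^ s / 20000 ∧
    (2 * (s : ℝ) + 1) * (2 / (p : ℝ) ^ s + 12 * (p : ℝ) ^ 2 / ((p : ℝ) ^ s / 20000)) ≤ 1 / 19200000 := by
  have hp1 : (1 : ℝ) < p := by exact_mod_cast hp.one_lt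
  have hp0 : (0 : ℝ) < p := by linarith
  have h1 : Tendsto (fun n : ℕ => (n : ℝ) / (p : ℝ) ^ n) atTop (nhds 0) := by
    have := tendsto_pow_const_div_const_pow_of_one_lt 1 hp1
    simpa using this
  have h2 : ∀ᶠ n : ℕ in atTop, (n : ℝ) / (p : ℝ) ^ n < 1 / (3 * (2 + 240000 * (p : ℝ) ^ 2) * 19200000) := by
    apply h1.eventually_lt_const
    positivity
  have h3 : ∀ᶠ n : ℕ in atTop, (20000 : ℝ) ≤ (p : ℝ) ^ n :=
    (tendsto_pow_atTop_atTop_of_one_lt hp1).eventually_ge_atTop _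
  obtain ⟨s₁, hs₁⟩ := eventually_atTop.1 (h2.and h3)
  refine ⟨max s₁ 10000000, le_max_right _ _, fun s hs => ?_⟩
  obtain ⟨h4, h5⟩ := hs₁ s ((le_max_left _ _).trans hs)
  have hs1 : (1 : ℝ) ≤ s := by
    have : 1 ≤ s := by have := (le_max_right s₁ 10000000).trans hs; omega
    exact_mod_cast this
  have hps : 0 < (p : ℝ) ^ s := by positivity
  refine ⟨by rw [le_div_iff₀ (by norm_num)]; linarith, ?_⟩
  have e1 : (2 * (s : ℝ) + 1) * (2 / (p : ℝ) ^ s + 12 * (p : ℝ) ^ 2 / ((p : ℝ) ^ s / 20000)) =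
      (2 * (s : ℝ) + 1) * (2 + 240000 * (p : ℝ) ^ 2) / (p : ℝ) ^ s := by
    field_simp
    ring
  rw [e1]
  rw [div_lt_div_iff₀ hps (by positivity)] at h4
  rw [div_le_div_iff₀ hps (by norm_num)]
  nlinarith [sq_nonneg (p : ℝ), mul_nonneg (sub_nonneg.2 hs1) (show (0 : ℝ) ≤ 2 + 240000 * (p : ℝ) ^ 2 by positivity)]

lemma clog_bound (p : ℕ) (hp : p.Prime) (x : ℕ) (hx : 1 ≤ x) :
    (Nat.clog p x : ℝ) ≤ 1 + 2 * Real.log x := by
  have hp1 : (1 : ℝ) < p := by exact_mod_cast hp.one_lt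
  have hx0 : (1 : ℝ) ≤ x := by exact_mod_cast hx
  have hlx : 0 ≤ Real.log x := Real.log_nonneg hx0
  rcases Nat.lt_or_ge 1 x with h | h
  · have h1 := Nat.pow_pred_clog_lt_self hp.one_lt h
    have h2 : (((Nat.clog p x).pred : ℕ) : ℝ) * Real.log p ≤ Real.log x := by
      rw [← Real.log_pow]
      apply Real.log_le_log (by positivity)
      exact_mod_cast h1.le
    have h3 : (1 : ℝ) / 2 ≤ Real.log p := by
      have h4 : Real.log 2 ≤ Real.log p := Real.log_le_log (by norm_num) (by exact_mod_cast hp.two_le)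
      have := Real.log_two_gt_d9
      linarith
    have h5 : (Nat.clog p x : ℝ) ≤ (((Nat.clog p x).pred : ℕ) : ℝ) + 1 := by
      have : Nat.clog p x ≤ (Nat.clog p x).pred + 1 := by rw [Nat.pred_eq_sub_one]; omega
      exact_mod_cast this
    have h6 : (0 : ℝ) ≤ (((Nat.clog p x).pred : ℕ) : ℝ) := by positivity
    nlinarith
  · have : x = 1 := by omega
    subst this
    simp

/-- the choice of the parameters -/
theorem params (p : ℕ) (hp : p.Prime) (N : ℕ) (c η : ℝ) (hc1 : 1 ≤ c) (hη0 : 0 ≤ η) (hη : η < 2 - c) :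
    ∀ᶠ K : ℕ in atTop, ∃ s S' M L : ℕ, ∃ B : ℝ, 1 ≤ B ∧ 20000 * B ≤ (p : ℝ) ^ s ∧
      (2 * s + 1) * (2 / (p : ℝ) ^ s + 12 * (p : ℝ) ^ 2 / B) ≤ 1 / 19200000 ∧ 1 ≤ M ∧
      (M : ℝ) * (1 / (p : ℝ) ^ S' + 1 / (p : ℝ) ^ (2 * s)) ≤ 1 / 4800000 ∧ 2 * s * M ≤ K ∧
      N ≤ p ^ (K - 2 * s * M) ∧ K + L * S' ≤ 2 * K ∧
      ((N : ℝ) + 1) * (2 * K * Real.log p) ^ c ≤ (p : ℝ) ^ S' ∧
      (1 - (M : ℝ) / 38400000 / (p : ℝ) ^ S') ^ L + 4 * L * Real.exp (-(M : ℝ) / 38400000) ≤
        Real.exp (-(K : ℝ) ^ η) := by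
  obtain ⟨s₁, hs₁, hs⟩ := exists_s p hp
  have hp1 : (1 : ℝ) < p := by exact_mod_cast hp.one_lt
  have hp0 : (0 : ℝ) < p := by linarith
  have hlp : 1 / 2 ≤ Real.log p := by
    have h4 : Real.log 2 ≤ Real.log p := Real.log_le_log (by norm_num) (by exact_mod_cast hp.two_le)
    have := Real.log_two_gt_d9
    linarith
  set ε := (2 - c - η) / 4 with hε
  have hε0 : 0 < ε := by rw [hε]; linarith
  have hN0 : (0 : ℝ) ≤ N := by positivity
  set C₁ := 2 * p * (((N : ℝ) + 1) * (2 * Real.log p) ^ c) with hC₁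
  have hC₁0 : 0 < C₁ := by positivity
  set c₃ := 1 / (38400000 * 16 * C₁) with hc₃
  have hc₃0 : 0 < c₃ := by positivity
  -- the eventual inequalities
  have f1 := ev_log (s₁ + 2) 2 1 ε one_pos hε0
  have f2 := ev_log (1 + 2 * Real.log (2 * (((N : ℝ) + 1) * (2 * Real.log p) ^ c))) (2 * c) 1 ε one_pos hε0
  have f3 := ev_log 8 0 1 (1 - ε) one_pos (by linarith)
  have f4 := ev_log 2 0 c₃ (2 * ε) hc₃0 (by linarith)
  have f5 := ev_log (Real.log 8) 1 (1 / (38400000 * 16)) (1 - ε) (by norm_num) (by linarith)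
  have f6 := ev_log 1 0 (1 / (38400000 * 16)) (3 * ε) (by norm_num) (by linarith)
  have f7 : ∀ᶠ K : ℕ in atTop, N + 8 ≤ K / 2 := by
    rw [eventually_atTop]
    exact ⟨2 * N + 16, fun K hK => by omega⟩
  filter_upwards [f1, f2, f3, f4, f5, f6, f7] with K f1 f2 f3 f4 f5 f6 f7
  have hK1 : 1 ≤ K := by omega
  have hKr : (1 : ℝ) ≤ K := by exact_mod_cast hK1
  have hK0 : (0 : ℝ) < K := by linarith
  -- s
  set s := s₁ + Nat.clog p K with hsdef
  have hsK : (K : ℝ) ≤ (p : ℝ) ^ s := by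
    have h1 : K ≤ p ^ Nat.clog p K := Nat.le_pow_clog hp.one_lt K
    have h2 : p ^ Nat.clog p K ≤ p ^ s := Nat.pow_le_pow_right hp.pos (by omega)
    exact_mod_cast h1.trans h2
  have hsε : (s : ℝ) ≤ (K : ℝ) ^ ε := by
    have := clog_bound p hp K hK1
    rw [hsdef]
    push_cast
    linarith
  have hs10 : (10000000 : ℝ) ≤ s := by
    have : 10000000 ≤ s := by omega
    exact_mod_cast this
  have hs0 : 0 < s := by omega
  -- S'
  set Q := ((N : ℝ) + 1) * (2 * K * Real.log p) ^ c with hQ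
  have hQ2 : Q = ((N : ℝ) + 1) * (2 * Real.log p) ^ c * (K : ℝ) ^ c := by
    rw [hQ]
    have : (2 * (K : ℝ) * Real.log p) = (2 * Real.log p) * K := by ring
    rw [this, Real.mul_rpow (by positivity) (by positivity)]
    ring
  have hQK : (K : ℝ) ≤ Q := by
    have h1 : (K : ℝ) ≤ 2 * K * Real.log p := by nlinarith
    have h2 : (2 * (K : ℝ) * Real.log p) ≤ (2 * K * Real.log p) ^ c := by
      apply Real.self_le_rpow_of_one_le _ hc1
      linarith
    have h3 : (2 * (K : ℝ) * Real.log p) ^ c ≤ Q := by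
      rw [hQ]
      have : 0 ≤ (2 * (K : ℝ) * Real.log p) ^ c := by positivity
      nlinarith
    linarith
  have hQ1 : 1 ≤ Q := by linarith
  have hQ0 : 0 < Q := by linarith
  set x := ⌈Q⌉₊ with hx
  have hx1 : Q ≤ x := Nat.le_ceil Q
  have hx2 : (x : ℝ) ≤ 2 * Q := by
    have := Nat.ceil_lt_add_one hQ0.le
    rw [← hx] at this
    linarith
  have hxn : 1 < x := by
    have : (8 : ℝ) ≤ K := by
      have : 8 ≤ K := by omega
      exact_mod_cast this
    have h2 : (1 : ℝ) < x := by linarith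
    exact_mod_cast h2
  set S' := Nat.clog p x with hS'
  have hD1 : Q ≤ (p : ℝ) ^ S' := by
    have h1 : x ≤ p ^ S' := Nat.le_pow_clog hp.one_lt x
    have h2 : (x : ℝ) ≤ (p : ℝ) ^ S' := by exact_mod_cast h1
    linarith
  have hD2 : (p : ℝ) ^ S' ≤ C₁ * (K : ℝ) ^ c := by
    have h1 := Nat.pow_pred_clog_lt_self hp.one_lt hxn
    rw [← hS'] at h1
    have h2 : S' ≠ 0 := by
      intro h
      rw [h] at hD1
      have : (8 : ℝ) ≤ K := by
        have : 8 ≤ K := by omega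
        exact_mod_cast this
      simp at hD1
      linarith
    have h3 : p ^ S' = p * p ^ S'.pred := by
      rw [← pow_succ']
      congr 1
      rw [Nat.pred_eq_sub_one]
      omega
    have h4 : (p : ℝ) ^ S' = p * (p : ℝ) ^ S'.pred := by exact_mod_cast h3
    have h5 : (p : ℝ) ^ S'.pred ≤ x := by exact_mod_cast h1.le
    calc (p : ℝ) ^ S' = p * (p : ℝ) ^ S'.pred := h4
      _ ≤ p * (2 * Q) := by gcongr; linarith
      _ = C₁ * (K : ℝ) ^ c := by rw [hC₁, hQ2]; ring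
  have hSε : (S' : ℝ) ≤ (K : ℝ) ^ ε := by
    have h1 := clog_bound p hp x (by omega)
    rw [← hS'] at h1
    have h2 : Real.log x ≤ Real.log (2 * (((N : ℝ) + 1) * (2 * Real.log p) ^ c)) + c * Real.log K := by
      rw [← Real.log_rpow hK0, ← Real.log_mul (by positivity) (by positivity)]
      apply Real.log_le_log (by linarith)
      rw [hQ2] at hx2
      linarith
    linarith
  have hS0 : 0 < S' := by
    rcases Nat.eq_zero_or_pos S' with h | h
    · rw [h] at hD1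
      have : (8 : ℝ) ≤ K := by
        have : 8 ≤ K := by omega
        exact_mod_cast this
      simp at hD1
      linarith
    · exact h
  have hSr : (0 : ℝ) < S' := by exact_mod_cast hS0
  have hsr : (0 : ℝ) < s := by exact_mod_cast hs0
  have hKε : 0 < (K : ℝ) ^ ε := by positivity
  have hK1ε : (K : ℝ) ^ (1 - ε) = K / (K : ℝ) ^ ε := by rw [Real.rpow_sub hK0, Real.rpow_one]
  have f3' : 8 ≤ (K : ℝ) ^ (1 - ε) := by linarith
  -- M
  set M := K / (4 * s) with hM
  have hM1 : (K : ℝ) ^ (1 - ε) / 8 ≤ M := by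
    have h1 : K < (M + 1) * (4 * s) := by
      rw [hM]
      have := Nat.lt_div_mul_add (a := K) (b := 4 * s) (by omega)
      linarith
    have h2 : (K : ℝ) < (M + 1) * (4 * s) := by exact_mod_cast h1
    have h3 : (K : ℝ) / (4 * s) < M + 1 := by rw [div_lt_iff₀ (by positivity)]; exact h2
    have h4 : (K : ℝ) ^ (1 - ε) / 4 ≤ (K : ℝ) / (4 * s) := by
      rw [hK1ε, div_div]
      apply div_le_div_of_nonneg_left hK0.le (by positivity)
      linarith
    linarith
  have hM2 : (M : ℝ) ≤ K / (4 * s) := by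
    rw [le_div_iff₀ (by positivity)]
    have : M * (4 * s) ≤ K := Nat.div_mul_le_self _ _
    exact_mod_cast this
  have hMpos : 1 ≤ M := by
    have : (1 : ℝ) ≤ M := by linarith
    exact_mod_cast this
  have h4sM : M * (4 * s) ≤ K := Nat.div_mul_le_self _ _
  have h2sM : 2 * s * M ≤ K := by nlinarith
  -- L
  set L := K / S' with hL
  have hL1 : (K : ℝ) ^ (1 - ε) / 2 ≤ L := by
    have h1 : K < (L + 1) * S' := by
      rw [hL]
      have := Nat.lt_div_mul_add (a := K) (b := S') hS0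
      linarith
    have h2 : (K : ℝ) < (L + 1) * S' := by exact_mod_cast h1
    have h3 : (K : ℝ) / S' < L + 1 := by rw [div_lt_iff₀ hSr]; exact h2
    have h4 : (K : ℝ) ^ (1 - ε) ≤ (K : ℝ) / S' := by
      rw [hK1ε]
      exact div_le_div_of_nonneg_left hK0.le hSr hSε
    linarith
  have hL2 : (L : ℝ) ≤ K := by
    have : L ≤ K := Nat.div_le_self _ _
    exact_mod_cast this
  have hLS : L * S' ≤ K := Nat.div_mul_le_self _ _
  have hDp : 0 < (p : ℝ) ^ S' := by positivity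
  have hMDs : (M : ℝ) / (p : ℝ) ^ S' ≤ 1 / (4 * s) := by
    rw [div_le_div_iff₀ hDp (by positivity)]
    have : (M : ℝ) * (4 * s) ≤ K := by exact_mod_cast h4sM
    linarith
  refine ⟨s, S', M, L, (p : ℝ) ^ s / 20000, (hs s (by omega)).1, by linarith, (hs s (by omega)).2, hMpos, ?_,
    h2sM, ?_, by omega, hD1, ?_⟩
  · -- (E2)
    have h1 : (M : ℝ) * (1 / (p : ℝ) ^ S') ≤ 1 / (4 * s) := by rw [mul_one_div]; exact hMDs
    have h2 : (M : ℝ) * (1 / (p : ℝ) ^ (2 * s)) ≤ 1 / (4 * s) := by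
      rw [mul_one_div, div_le_div_iff₀ (by positivity) (by positivity)]
      have e1 : (M : ℝ) * (4 * s) ≤ K := by exact_mod_cast h4sM
      have e2 : (K : ℝ) ≤ (p : ℝ) ^ (2 * s) := by
        have : (p : ℝ) ^ (2 * s) = (p : ℝ) ^ s * (p : ℝ) ^ s := by ring
        rw [this]
        nlinarith
      linarith
    have h3 : 1 / (4 * (s : ℝ)) ≤ 1 / (4 * 10000000) := by
      apply one_div_le_one_div_of_le (by norm_num)
      linarith
    rw [mul_add]
    norm_num at h3 ⊢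
    norm_num at h1 h2
    linarith
  · -- N ≤ p ^ (K - 2 s M)
    have h1 : K / 2 ≤ K - 2 * s * M := by
      have : 2 * s * M + 2 * s * M ≤ K := by nlinarith
      omega
    have h2 : N ≤ 2 ^ (K / 2) := by
      have : K / 2 < 2 ^ (K / 2) := Nat.lt_two_pow_self
      omega
    calc N ≤ 2 ^ (K / 2) := h2
      _ ≤ p ^ (K / 2) := Nat.pow_le_pow_left hp.two_le _
      _ ≤ _ := Nat.pow_le_pow_right hp.pos h1
  · -- the measure
    have hMr : (0 : ℝ) < M := by exact_mod_cast hMpos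
    have e1 : (1 - (M : ℝ) / 38400000 / (p : ℝ) ^ S') ^ L ≤ Real.exp (-((M : ℝ) / 38400000 / (p : ℝ) ^ S' * L)) := by
      have h0 : 0 ≤ 1 - (M : ℝ) / 38400000 / (p : ℝ) ^ S' := by
        have h3 : 1 / (4 * (s : ℝ)) ≤ 1 := by
          rw [div_le_one (by positivity)]; linarith
        have : (M : ℝ) / 38400000 / (p : ℝ) ^ S' = (M : ℝ) / (p : ℝ) ^ S' / 38400000 := by ring
        rw [this]
        linarith
      calc (1 - (M : ℝ) / 38400000 / (p : ℝ) ^ S') ^ L ≤ (Real.exp (-((M : ℝ) / 38400000 / (p : ℝ) ^ S'))) ^ L := by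
            apply pow_le_pow_left₀ h0
            have := Real.add_one_le_exp (-((M : ℝ) / 38400000 / (p : ℝ) ^ S'))
            linarith
        _ = _ := by rw [← Real.exp_nat_mul]; congr 1; ring
    have e2 : (K : ℝ) ^ η + 1 ≤ (M : ℝ) / 38400000 / (p : ℝ) ^ S' * L := by
      have h1 : c₃ * ((K : ℝ) ^ η * (K : ℝ) ^ (2 * ε)) ≤ (M : ℝ) / 38400000 / (p : ℝ) ^ S' * L := by
        have h2 : (K : ℝ) ^ (1 - ε) / 8 / 38400000 / (C₁ * (K : ℝ) ^ c) * ((K : ℝ) ^ (1 - ε) / 2) ≤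
            (M : ℝ) / 38400000 / (p : ℝ) ^ S' * L := by gcongr
        refine le_trans (le_of_eq ?_) h2
        rw [← Real.rpow_add hK0]
        have h3 : η + 2 * ε = (1 - ε) + (1 - ε) - c := by rw [hε]; ring
        rw [h3, Real.rpow_sub hK0, Real.rpow_add hK0, hc₃]
        field_simp
        norm_num
      have h2 : 2 ≤ c₃ * (K : ℝ) ^ (2 * ε) := by linarith
      have h3 : 1 ≤ (K : ℝ) ^ η := Real.one_le_rpow hKr hη0
      have h4 : c₃ * ((K : ℝ) ^ η * (K : ℝ) ^ (2 * ε)) = (K : ℝ) ^ η * (c₃ * (K : ℝ) ^ (2 * ε)) := by ring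
      rw [h4] at h1
      nlinarith
    have e3 : (1 - (M : ℝ) / 38400000 / (p : ℝ) ^ S') ^ L ≤ Real.exp (-(K : ℝ) ^ η) / 2 := by
      refine e1.trans ?_
      have h1 : Real.exp (-((M : ℝ) / 38400000 / (p : ℝ) ^ S' * L)) ≤ Real.exp (-(K : ℝ) ^ η + (-1)) := by
        apply Real.exp_le_exp.2; linarith
      rw [Real.exp_add] at h1
      have h10 : Real.exp (-1) ≤ 1 / 2 := by
        have := Real.exp_neg_one_lt_d9
        linarith
      have := Real.exp_pos (-(K : ℝ) ^ η)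
      nlinarith
    have e4 : 4 * L * Real.exp (-(M : ℝ) / 38400000) ≤ Real.exp (-(K : ℝ) ^ η) / 2 := by
      have h1 : Real.log 8 + Real.log K + (K : ℝ) ^ η ≤ M / 38400000 := by
        have h2 : (K : ℝ) ^ η ≤ 1 / (38400000 * 16) * (K : ℝ) ^ (1 - ε) := by
          have h3 : (K : ℝ) ^ η * (K : ℝ) ^ (3 * ε) ≤ (K : ℝ) ^ (1 - ε) := by
            rw [← Real.rpow_add hK0]
            apply Real.rpow_le_rpow_of_exponent_le hKr
            rw [hε]; linarith
          have h4 : 1 ≤ 1 / (38400000 * 16) * (K : ℝ) ^ (3 * ε) := by linarith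
          have h5 : 0 < (K : ℝ) ^ η := by positivity
          nlinarith
        have h3 : Real.log 8 + Real.log K ≤ 1 / (38400000 * 16) * (K : ℝ) ^ (1 - ε) := by linarith
        linarith
      have h2 : Real.exp (-(M : ℝ) / 38400000) ≤ Real.exp (-(K : ℝ) ^ η) / (8 * K) := by
        rw [le_div_iff₀ (by positivity)]
        calc Real.exp (-(M : ℝ) / 38400000) * (8 * K) = Real.exp (-(M : ℝ) / 38400000) * Real.exp (Real.log 8 + Real.log K) := by
              rw [Real.exp_add, Real.exp_log (by norm_num), Real.exp_log hK0]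
          _ = Real.exp (-(M : ℝ) / 38400000 + (Real.log 8 + Real.log K)) := by rw [← Real.exp_add]
          _ ≤ _ := by
            apply Real.exp_le_exp.2
            linarith
      have h0 : 0 < Real.exp (-(M : ℝ) / 38400000) := Real.exp_pos _
      calc 4 * L * Real.exp (-(M : ℝ) / 38400000) ≤ 4 * K * (Real.exp (-(K : ℝ) ^ η) / (8 * K)) := by gcongr
        _ = Real.exp (-(K : ℝ) ^ η) / 2 := by field_simp; norm_num
    linarith

end Pool.Agent.H587.PD
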