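import Mathlib
import Pool.Agent.H587.PD.Param

set_option autoImplicit false

open Finset Filter MeasureTheory

namespace Pool.Agent.H587.PD

/-- the exceptional set with explicit constants -/
def FF (p N : ℕ) (c : ℝ) : Set ℝ :=
  {x | ∀ j m : ℕ, N ≤ p ^ j * m → 1 ≤ m → ¬ p ∣ m →
    1 / ((N : ℝ) + 1) ≤ m * Real.log ((p : ℝ) ^ j * m) ^ c * nint ((p : ℝ) ^ j * m * x)}

lemma nint_nonneg (x : ℝ) : 0 ≤ nint x := abs_nonneg _

lemma nint_add_int (x : ℝ) (k : ℤ) : nint (x + k) = nint x := by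
  unfold nint
  rw [round_add_intCast]
  push_cast
  congr 1
  ring

lemma FF_add (p N : ℕ) (c : ℝ) (x : ℝ) (k : ℤ) (hx : x ∈ FF p N c) : x + k ∈ FF p N c := by
  intro j m h1 h2 h3
  have h4 := hx j m h1 h2 h3
  have h5 : (p : ℝ) ^ j * m * (x + k) = (p : ℝ) ^ j * m * x + ((p ^ j * m * k : ℤ) : ℝ) := by push_cast; ring
  rw [h5, nint_add_int]
  exact h4

theorem prefix_bound (p : ℕ) (hp : p.Prime) (N : ℕ) (c η : ℝ) (hc1 : 1 ≤ c) (hη0 : 0 ≤ η) (hη : η < 2 - c) :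
    ∀ᶠ K : ℕ in atTop, ∃ n : ℕ, K ≤ n ∧ n ≤ 2 * K ∧
      ((TT p n (FF p N c)).card : ℝ) ≤ (p : ℝ) ^ n * Real.exp (-(K : ℝ) ^ η) := by
  filter_upwards [params p hp N c η hc1 hη0 hη, eventually_ge_atTop 1] with K hK hK1
  obtain ⟨s, S', M, L, B, h1, h2, h3, h4, h5, h6, h7, h8, h9, h10⟩ := hK
  have hp1 : (1 : ℝ) < p := by exact_mod_cast hp.one_lt
  have hp0 : (0 : ℝ) < p := by linarith
  have hlp : 0 < Real.log p := Real.log_pos hp1
  have hKr : (1 : ℝ) ≤ K := by exact_mod_cast hK1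
  refine ⟨K + L * S', by omega, h8, ?_⟩
  have hE : ∀ x ∈ FF p N c, ∀ j m : ℕ, K - 2 * s * M ≤ j → p ^ j * m ≤ p ^ (2 * K) → ¬ p ∣ m → 1 ≤ m →
      1 / (p : ℝ) ^ S' ≤ m * nint ((p : ℝ) ^ j * m * x) := by
    intro x hx j m g1 g2 g3 g4
    have g5 : N ≤ p ^ j * m := by
      calc N ≤ p ^ (K - 2 * s * M) := h7
        _ ≤ p ^ j := Nat.pow_le_pow_right hp.pos g1
        _ = p ^ j * 1 := (mul_one _).symm
        _ ≤ p ^ j * m := Nat.mul_le_mul_left _ g4
    have g6 := hx j m g5 g4 g3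
    have hm : (1 : ℝ) ≤ m := by exact_mod_cast g4
    have hpj : (1 : ℝ) ≤ (p : ℝ) ^ j := one_le_pow₀ hp1.le
    have hq1 : (1 : ℝ) ≤ (p : ℝ) ^ j * m := by nlinarith
    have g7 : Real.log ((p : ℝ) ^ j * m) ≤ 2 * K * Real.log p := by
      have e1 : (p : ℝ) ^ j * m ≤ (p : ℝ) ^ (2 * K) := by exact_mod_cast g2
      have e2 := Real.log_le_log (by linarith) e1
      rw [Real.log_pow] at e2
      push_cast at e2
      exact e2
    have g8 : Real.log ((p : ℝ) ^ j * m) ^ c ≤ (2 * K * Real.log p) ^ c :=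
      Real.rpow_le_rpow (Real.log_nonneg hq1) g7 (by linarith)
    have hni := nint_nonneg ((p : ℝ) ^ j * m * x)
    have g9 : 1 / ((N : ℝ) + 1) ≤ (2 * K * Real.log p) ^ c * (m * nint ((p : ℝ) ^ j * m * x)) := by
      calc 1 / ((N : ℝ) + 1) ≤ _ := g6
        _ ≤ m * (2 * K * Real.log p) ^ c * nint ((p : ℝ) ^ j * m * x) := by gcongr
        _ = _ := by ring
    have hQ0 : 0 < (2 * K * Real.log p) ^ c := by
      apply Real.rpow_pos_of_pos; positivity
    have hN0 : (0 : ℝ) < (N : ℝ) + 1 := by positivity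
    have g10 : 1 / (((N : ℝ) + 1) * (2 * K * Real.log p) ^ c) ≤ m * nint ((p : ℝ) ^ j * m * x) := by
      rw [div_le_iff₀ (by positivity)]
      rw [div_le_iff₀ hN0] at g9
      linarith
    refine le_trans ?_ g10
    exact one_div_le_one_div_of_le (by positivity) h9
  have h11 := survivors p hp s S' M K (2 * K) B h1 h2 h3 h4 h5 h6 (FF p N c) hE L h8
  refine h11.trans ?_
  gcongr

/-- the gauge function `r exp ((log (1 / r)) ^ θ)` -/
noncomputable def gauge (θ : ℝ) (r : ENNReal) : ENNReal :=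
  ENNReal.ofReal (r.toReal * Real.exp (Real.log (1 / r.toReal) ^ θ))

/-- the exceptional set is null for the small gauges -/
theorem null_piece (p : ℕ) (hp : p.Prime) (N T : ℕ) (c θ θ' : ℝ) (hc1 : 1 ≤ c) (hc2 : c < 2) (hθ : θ < 2 - c)
    (hθ' : θ' < 2 - c) (Γ : Set ℝ)
    (hΓ : ∃ C' : ℝ, ∀ K : ℕ, 1 ≤ K → ∃ F : Finset ℝ, (F.card : ℝ) ≤ Real.exp (C' * (K : ℝ) ^ θ') ∧
      ∀ γ ∈ Γ, ∃ f ∈ F, nint (γ - f) ≤ Real.exp (-K)) :
    Measure.mkMetric (gauge θ) {y : ℝ | |y| ≤ T ∧ ∃ x ∈ FF p N c, ∃ γ ∈ Γ, y = x + γ} = 0 := by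
  classical
  obtain ⟨C', hΓ⟩ := hΓ
  have hp1 : (1 : ℝ) < p := by exact_mod_cast hp.one_lt
  have hp0 : (0 : ℝ) < p := by linarith
  have hlp : 1 / 2 ≤ Real.log p := by
    have h4 : Real.log 2 ≤ Real.log p := Real.log_le_log (by norm_num) (by exact_mod_cast hp.two_le)
    have := Real.log_two_gt_d9
    linarith
  set η₀ := max (max θ θ') 0 with hη₀
  have hη₀2 : η₀ < 2 - c := max_lt (max_lt hθ hθ') (by linarith)
  have hη₀0 : 0 ≤ η₀ := le_max_right _ _
  have hθη : θ ≤ η₀ := (le_max_left _ _).trans (le_max_left _ _)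
  have hθ'η : θ' ≤ η₀ := (le_max_right _ _).trans (le_max_left _ _)
  set η := (η₀ + (2 - c)) / 2 with hη
  have hη1 : η₀ < η := by rw [hη]; linarith
  have hη2 : η < 2 - c := by rw [hη]; linarith
  have hη0 : 0 < η := by linarith
  set A := |C'| * (4 * Real.log p) ^ η₀ + (2 * Real.log p) ^ η₀ with hA
  have f1 := ev_log A 0 (1 / 2) (η - η₀) (by norm_num) (by linarith)
  obtain ⟨K₀, hK₀⟩ := eventually_atTop.1 ((prefix_bound p hp N c η hc1 hη0.le hη2).and
    (f1.and (eventually_ge_atTop 10)))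
  have hdata : ∀ k : ℕ, ∃ n : ℕ, ∃ F : Finset ℝ, k + K₀ ≤ n ∧ n ≤ 2 * (k + K₀) ∧
      ((TT p n (FF p N c)).card : ℝ) ≤ (p : ℝ) ^ n * Real.exp (-((k + K₀ : ℕ) : ℝ) ^ η) ∧
      (F.card : ℝ) ≤ Real.exp (|C'| * (4 * ((k + K₀ : ℕ) : ℝ) * Real.log p) ^ η₀) ∧
      (∀ γ ∈ Γ, ∃ f ∈ F, nint (γ - f) ≤ 1 / (p : ℝ) ^ n) ∧ 10 ≤ k + K₀ ∧
      A ≤ 1 / 2 * ((k + K₀ : ℕ) : ℝ) ^ (η - η₀) := by
    intro k
    obtain ⟨⟨n, h1, h2, h3⟩, h4, h5⟩ := hK₀ (k + K₀) (by omega)
    set K := k + K₀ with hK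
    have hn1 : (10 : ℝ) ≤ n := by
      have : 10 ≤ n := by omega
      exact_mod_cast this
    have hKr : (10 : ℝ) ≤ K := by exact_mod_cast h5
    have hnK : (n : ℝ) ≤ 2 * K := by exact_mod_cast h2
    set K' := ⌈(n : ℝ) * Real.log p⌉₊ with hK'
    have hK'1 : (n : ℝ) * Real.log p ≤ K' := Nat.le_ceil _
    have hK'2 : (K' : ℝ) < n * Real.log p + 1 := Nat.ceil_lt_add_one (by positivity)
    have hK'3 : (1 : ℝ) ≤ K' := by nlinarith
    obtain ⟨F, hF1, hF2⟩ := hΓ K' (by exact_mod_cast hK'3)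
    refine ⟨n, F, h1, h2, h3, ?_, ?_, h5, by linarith⟩
    · refine hF1.trans (Real.exp_le_exp.2 ?_)
      have e1 : (K' : ℝ) ^ θ' ≤ (K' : ℝ) ^ η₀ := Real.rpow_le_rpow_of_exponent_le hK'3 hθ'η
      have e2 : (K' : ℝ) ≤ 4 * K * Real.log p := by nlinarith
      have e3 : (K' : ℝ) ^ η₀ ≤ (4 * K * Real.log p) ^ η₀ := Real.rpow_le_rpow (by linarith) e2 hη₀0
      calc C' * (K' : ℝ) ^ θ' ≤ |C'| * (K' : ℝ) ^ θ' := by
            apply mul_le_mul_of_nonneg_right (le_abs_self _)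
            positivity
        _ ≤ |C'| * (4 * K * Real.log p) ^ η₀ := by
            apply mul_le_mul_of_nonneg_left (e1.trans e3) (abs_nonneg _)
    · intro γ hγ
      obtain ⟨f, hf, hf2⟩ := hF2 γ hγ
      refine ⟨f, hf, hf2.trans ?_⟩
      have : 1 / (p : ℝ) ^ n = Real.exp (-(n * Real.log p)) := by
        rw [Real.exp_neg, one_div, ← Real.log_pow, Real.exp_log (by positivity)]
      rw [this]
      exact Real.exp_le_exp.2 (by linarith)
  choose n F h1 h2 h3 h4 h5 h6 h7 using hdata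
  have hkey := Measure.mkMetric_le_liminf_sum (X := ℝ) (β := ℕ)
    (ι := fun k => ↥(Icc (-(T : ℤ) - 2) (T + 2)) × ↥(TT p (n k) (FF p N c)) × ↥(F k))
    {y : ℝ | |y| ≤ T ∧ ∃ x ∈ FF p N c, ∃ γ ∈ Γ, y = x + γ} (l := atTop)
    (fun k => ENNReal.ofReal (3 / (p : ℝ) ^ (n k))) ?_
    (fun k i => Set.Icc (((i.1 : ℤ) : ℝ) + ((i.2.1 : ℕ) : ℝ) / (p : ℝ) ^ (n k) + Int.fract (i.2.2 : ℝ) - 1 / (p : ℝ) ^ (n k))
      (((i.1 : ℤ) : ℝ) + ((i.2.1 : ℕ) : ℝ) / (p : ℝ) ^ (n k) + Int.fract (i.2.2 : ℝ) + 2 / (p : ℝ) ^ (n k))) ?_ ?_ (gauge θ)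
  · -- the sum tends to zero
    have hb : Tendsto (fun k : ℕ => ENNReal.ofReal ((2 * T + 5) * 3 * Real.exp (-(1 / 2 * ((k + K₀ : ℕ) : ℝ) ^ η)))) atTop (nhds 0) := by
      have e1 : Tendsto (fun k : ℕ => ((k + K₀ : ℕ) : ℝ)) atTop atTop :=
        tendsto_natCast_atTop_atTop.comp (tendsto_add_atTop_nat K₀)
      have e2 : Tendsto (fun k : ℕ => 1 / 2 * ((k + K₀ : ℕ) : ℝ) ^ η) atTop atTop :=
        ((tendsto_rpow_atTop hη0).comp e1).const_mul_atTop (by norm_num)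
      have e3 : Tendsto (fun k : ℕ => Real.exp (-(1 / 2 * ((k + K₀ : ℕ) : ℝ) ^ η))) atTop (nhds 0) :=
        Real.tendsto_exp_neg_atTop_nhds_zero.comp e2
      have e4 := (e3.const_mul ((2 * (T : ℝ) + 5) * 3))
      rw [mul_zero] at e4
      have e5 := ENNReal.tendsto_ofReal e4
      rwa [ENNReal.ofReal_zero] at e5
    have hle : ∀ k : ℕ, (∑ i : ↥(Icc (-(T : ℤ) - 2) (T + 2)) × ↥(TT p (n k) (FF p N c)) × ↥(F k),
        gauge θ (Metric.ediam (Set.Icc (((i.1 : ℤ) : ℝ) + ((i.2.1 : ℕ) : ℝ) / (p : ℝ) ^ (n k) + Int.fract (i.2.2 : ℝ) - 1 / (p : ℝ) ^ (n k))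
      (((i.1 : ℤ) : ℝ) + ((i.2.1 : ℕ) : ℝ) / (p : ℝ) ^ (n k) + Int.fract (i.2.2 : ℝ) + 2 / (p : ℝ) ^ (n k))))) ≤
        ENNReal.ofReal ((2 * T + 5) * 3 * Real.exp (-(1 / 2 * ((k + K₀ : ℕ) : ℝ) ^ η))) := by
      intro k
      set K := k + K₀ with hK
      have hKr : (10 : ℝ) ≤ K := by exact_mod_cast h6 k
      have hK0 : (0 : ℝ) < K := by linarith
      have hn1 : (K : ℝ) ≤ n k := by exact_mod_cast h1 k
      have hn2 : (n k : ℝ) ≤ 2 * K := by exact_mod_cast h2 k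
      have hpn : 0 < (p : ℝ) ^ (n k) := by positivity
      have e1 : ∀ a : ℝ, Metric.ediam (Set.Icc (a - 1 / (p : ℝ) ^ (n k)) (a + 2 / (p : ℝ) ^ (n k))) =
          ENNReal.ofReal (3 / (p : ℝ) ^ (n k)) := by
        intro a
        rw [Real.ediam_Icc]
        congr 1
        ring
      simp_rw [e1]
      rw [sum_const, nsmul_eq_mul]
      unfold gauge
      rw [ENNReal.toReal_ofReal (by positivity)]
      have e2 : Real.log (1 / (3 / (p : ℝ) ^ (n k))) = n k * Real.log p - Real.log 3 := by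
        rw [one_div, inv_div, Real.log_div (by positivity) (by norm_num), Real.log_pow]
      have hl3 : Real.log 3 ≤ 2 := by
        have := Real.log_le_sub_one_of_pos (show (0 : ℝ) < 3 by norm_num)
        linarith
      have hl3' : 0 ≤ Real.log 3 := Real.log_nonneg (by norm_num)
      have e3 : 1 ≤ n k * Real.log p - Real.log 3 := by nlinarith
      have e4 : (n k * Real.log p - Real.log 3) ^ θ ≤ (2 * K * Real.log p) ^ η₀ := by
        calc (n k * Real.log p - Real.log 3) ^ θ ≤ (n k * Real.log p - Real.log 3) ^ η₀ :=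
              Real.rpow_le_rpow_of_exponent_le e3 hθη
          _ ≤ _ := by
            apply Real.rpow_le_rpow (by linarith) _ hη₀0
            nlinarith
      have hcard : (Fintype.card (↥(Icc (-(T : ℤ) - 2) (T + 2)) × ↥(TT p (n k) (FF p N c)) × ↥(F k)) : ℝ) ≤
          (2 * T + 5) * (((p : ℝ) ^ (n k) * Real.exp (-(K : ℝ) ^ η)) * Real.exp (|C'| * (4 * (K : ℝ) * Real.log p) ^ η₀)) := by
        rw [Fintype.card_prod, Fintype.card_prod, Fintype.card_coe, Fintype.card_coe, Fintype.card_coe]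
        push_cast
        have e5 : ((Icc (-(T : ℤ) - 2) (T + 2)).card : ℝ) = 2 * T + 5 := by
          rw [Int.card_Icc]
          have : ((T : ℤ) + 2 + 1 - (-(T : ℤ) - 2)).toNat = 2 * T + 5 := by omega
          rw [this]; push_cast; rfl
        rw [e5]
        have h3' := h3 k
        have h4' := h4 k
        gcongr
      rw [card_univ]
      have e6 : ((Fintype.card (↥(Icc (-(T : ℤ) - 2) (T + 2)) × ↥(TT p (n k) (FF p N c)) × ↥(F k)) : ℕ) : ENNReal) *
          ENNReal.ofReal (3 / (p : ℝ) ^ (n k) * Real.exp (Real.log (1 / (3 / (p : ℝ) ^ (n k))) ^ θ)) =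
          ENNReal.ofReal ((Fintype.card (↥(Icc (-(T : ℤ) - 2) (T + 2)) × ↥(TT p (n k) (FF p N c)) × ↥(F k)) : ℝ) *
          (3 / (p : ℝ) ^ (n k) * Real.exp (Real.log (1 / (3 / (p : ℝ) ^ (n k))) ^ θ))) := by
        rw [← ENNReal.ofReal_natCast, ← ENNReal.ofReal_mul (by positivity)]
      rw [e6]
      apply ENNReal.ofReal_le_ofReal
      rw [e2]
      calc (Fintype.card (↥(Icc (-(T : ℤ) - 2) (T + 2)) × ↥(TT p (n k) (FF p N c)) × ↥(F k)) : ℝ) *
          (3 / (p : ℝ) ^ (n k) * Real.exp ((n k * Real.log p - Real.log 3) ^ θ)) ≤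
          ((2 * T + 5) * (((p : ℝ) ^ (n k) * Real.exp (-(K : ℝ) ^ η)) * Real.exp (|C'| * (4 * (K : ℝ) * Real.log p) ^ η₀))) *
          (3 / (p : ℝ) ^ (n k) * Real.exp ((2 * K * Real.log p) ^ η₀)) := by
            have := Real.exp_le_exp.2 e4
            gcongr
        _ = (2 * T + 5) * 3 * Real.exp (-(K : ℝ) ^ η + |C'| * (4 * (K : ℝ) * Real.log p) ^ η₀ + (2 * K * Real.log p) ^ η₀) := by
            rw [Real.exp_add, Real.exp_add]
            field_simp
        _ ≤ _ := by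
            have e7 : (4 * (K : ℝ) * Real.log p) ^ η₀ = (4 * Real.log p) ^ η₀ * (K : ℝ) ^ η₀ := by
              rw [← Real.mul_rpow (by positivity) (by positivity)]; congr 1; ring
            have e8 : (2 * (K : ℝ) * Real.log p) ^ η₀ = (2 * Real.log p) ^ η₀ * (K : ℝ) ^ η₀ := by
              rw [← Real.mul_rpow (by positivity) (by positivity)]; congr 1; ring
            have e9 : A * (K : ℝ) ^ η₀ ≤ 1 / 2 * (K : ℝ) ^ η := by
              have e10 : (K : ℝ) ^ η = (K : ℝ) ^ (η - η₀) * (K : ℝ) ^ η₀ := by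
                rw [← Real.rpow_add hK0]; congr 1; ring
              rw [e10]
              have h7' := h7 k
              have : 0 < (K : ℝ) ^ η₀ := by positivity
              nlinarith
            have e11 : -(K : ℝ) ^ η + |C'| * (4 * (K : ℝ) * Real.log p) ^ η₀ + (2 * K * Real.log p) ^ η₀ ≤ -(1 / 2 * (K : ℝ) ^ η) := by
              rw [e7, e8]
              have : |C'| * ((4 * Real.log p) ^ η₀ * (K : ℝ) ^ η₀) + (2 * Real.log p) ^ η₀ * (K : ℝ) ^ η₀ = A * (K : ℝ) ^ η₀ := by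
                rw [hA]; ring
              linarith
            have := Real.exp_le_exp.2 e11
            gcongr
    have hlim := tendsto_of_tendsto_of_tendsto_of_le_of_le tendsto_const_nhds hb (fun k => zero_le) hle
    rw [hlim.liminf_eq] at hkey
    exact le_antisymm hkey zero_le
  · -- the diameters
    have e1 : Tendsto (fun k : ℕ => (3 : ℝ) / (p : ℝ) ^ (n k)) atTop (nhds 0) := by
      have e2 : Tendsto n atTop atTop := tendsto_atTop_mono (fun k => (by have := h1 k; omega : k ≤ n k)) tendsto_id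
      have e3 : Tendsto (fun k : ℕ => (p : ℝ) ^ (n k)) atTop atTop := (tendsto_pow_atTop_atTop_of_one_lt hp1).comp e2
      exact e3.const_div_atTop 3
    have e5 := ENNReal.tendsto_ofReal e1
    rwa [ENNReal.ofReal_zero] at e5
  · refine Eventually.of_forall fun k i => ?_
    rw [Real.ediam_Icc]
    apply ENNReal.ofReal_le_ofReal
    apply le_of_eq
    ring
  · refine Eventually.of_forall fun k => ?_
    rintro y ⟨hyT, x, hx, γ, hγ, rfl⟩
    obtain ⟨f, hf, hf2⟩ := h5 k γ hγ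
    have hpn : 0 < (p : ℝ) ^ (n k) := by positivity
    have hpn1 : 1 / (p : ℝ) ^ (n k) ≤ 1 := by
      rw [div_le_one hpn]
      exact one_le_pow₀ hp1.le
    set u := γ - f - round (γ - f) with hu
    have hu1 : |u| ≤ 1 / (p : ℝ) ^ (n k) := hf2
    rw [abs_le] at hu1
    set x' := x + ((round (γ - f) + ⌊f⌋ : ℤ) : ℝ) with hx'
    have hy : x + γ = x' + Int.fract f + u := by
      rw [hx', hu, Int.fract]; push_cast; ring
    set z := ⌊x'⌋ with hz
    have hz1 : (z : ℝ) ≤ x' := Int.floor_le x'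
    have hz2 : x' < z + 1 := Int.lt_floor_add_one x'
    have hfr0 := Int.fract_nonneg f
    have hfr1 := Int.fract_lt_one f
    rw [abs_le] at hyT
    have hx'' : x' - z ∈ FF p N c := by
      have := FF_add p N c x (round (γ - f) + ⌊f⌋ - z) hx
      have e1 : x' - z = x + ((round (γ - f) + ⌊f⌋ - z : ℤ) : ℝ) := by rw [hx']; push_cast; ring
      rw [e1]
      exact this
    set W := ⌊(p : ℝ) ^ (n k) * (x' - z)⌋₊ with hW
    have hW1 : (W : ℝ) ≤ (p : ℝ) ^ (n k) * (x' - z) := Nat.floor_le (by apply mul_nonneg hpn.le; linarith)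
    have hW2 : (p : ℝ) ^ (n k) * (x' - z) < W + 1 := Nat.lt_floor_add_one _
    have hWT : W ∈ TT p (n k) (FF p N c) := by
      unfold TT
      rw [mem_filter, mem_range]
      refine ⟨?_, x' - z, hx'', hW1, hW2⟩
      have : (W : ℝ) < (p : ℝ) ^ (n k) := by
        refine lt_of_le_of_lt hW1 ?_
        nlinarith
      exact_mod_cast this
    have hzI : z ∈ Icc (-(T : ℤ) - 2) (T + 2) := by
      rw [mem_Icc]
      constructor
      · have : (-(T : ℝ) - 3) < z := by linarith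
        have h8 : (((-(T : ℤ) - 3 : ℤ)) : ℝ) < z := by push_cast; exact this
        have h9 := Int.cast_lt.1 h8
        omega
      · have : (z : ℝ) ≤ T + 2 := by linarith
        exact_mod_cast this
    rw [Set.mem_iUnion]
    refine ⟨(⟨z, hzI⟩, ⟨W, hWT⟩, ⟨f, hf⟩), ?_⟩
    simp only [Set.mem_Icc]
    have hW3 : (W : ℝ) / (p : ℝ) ^ (n k) ≤ x' - z := by rw [div_le_iff₀ hpn]; linarith
    have hW4 : x' - z ≤ (W : ℝ) / (p : ℝ) ^ (n k) + 1 / (p : ℝ) ^ (n k) := by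
      rw [← add_div, le_div_iff₀ hpn]; linarith
    have e2 : 2 / (p : ℝ) ^ (n k) = 1 / (p : ℝ) ^ (n k) + 1 / (p : ℝ) ^ (n k) := by ring
    rw [hy, e2]
    constructor <;> linarith

end Pool.Agent.H587.PD
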