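import Mathlib
import Pool.Agent.H587.PD.Null

set_option autoImplicit false

open Finset Filter

namespace Pool.Agent.H587.PD

open Classical in
/-- the surviving digit strings -/
noncomputable def Sur (p : ℕ) (R : ℕ → Set ℕ) : ℕ → Finset ℕ
  | 0 => {0}
  | n + 1 => (range (p ^ (n + 1))).filter (fun W => W / p ∈ Sur p R n ∧ W ∉ R (n + 1))

lemma Sur_subset (p : ℕ) (R : ℕ → Set ℕ) (n : ℕ) : Sur p R n ⊆ range (p ^ n) := by
  classical
  cases n with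
  | zero => simp [Sur]
  | succ n => unfold Sur; exact filter_subset _ _

lemma Sur_anc (p : ℕ) (hp : 1 ≤ p) (R : ℕ → Set ℕ) (k i W : ℕ) (hW : W ∈ Sur p R (k + i)) : W / p ^ i ∈ Sur p R k := by
  classical
  induction i generalizing W with
  | zero => simpa using hW
  | succ i ih =>
    have h1 : W / p ∈ Sur p R (k + i) := by
      rw [← add_assoc] at hW
      unfold Sur at hW
      rw [mem_filter] at hW
      exact hW.2.1
    have h2 := ih _ h1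
    rwa [Nat.div_div_eq_div_mul, ← pow_succ'] at h2

/-- a point which is not removed -/
lemma exists_point (p : ℕ) (hp : 1 ≤ p) (R : ℕ → Set ℕ) (h : ∀ n, (Sur p R n).Nonempty) :
    ∃ x : ℝ, 0 ≤ x ∧ x ≤ 1 ∧ ∀ n, ∃ W ∈ Sur p R n, (W : ℝ) ≤ (p : ℝ) ^ n * x ∧ (p : ℝ) ^ n * x ≤ W + 1 := by
  have hp0 : (0 : ℝ) < p := by exact_mod_cast hp
  set J : ℕ → Set ℝ := fun n => ⋃ W ∈ Sur p R n, Set.Icc ((W : ℝ) / (p : ℝ) ^ n) (((W : ℝ) + 1) / (p : ℝ) ^ n) with hJ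
  have hmem : ∀ n x, x ∈ J n ↔ ∃ W ∈ Sur p R n, (W : ℝ) ≤ (p : ℝ) ^ n * x ∧ (p : ℝ) ^ n * x ≤ W + 1 := by
    intro n x
    have hpn : 0 < (p : ℝ) ^ n := by positivity
    simp only [hJ, Set.mem_iUnion, Set.mem_Icc, exists_prop, div_le_iff₀ hpn, le_div_iff₀ hpn, mul_comm x]
  have hdec : ∀ n, J (n + 1) ⊆ J n := by
    intro n x hx
    rw [hmem] at hx ⊢
    obtain ⟨W, hW, h1, h2⟩ := hx
    refine ⟨W / p, by simpa using Sur_anc p hp R n 1 W hW, ?_, ?_⟩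
    · have h3 : (W / p) * p ≤ W := Nat.div_mul_le_self _ _
      have h4 : ((W / p : ℕ) : ℝ) * p ≤ W := by exact_mod_cast h3
      rw [pow_succ] at h1
      have h5 : ((W / p : ℕ) : ℝ) * p ≤ ((p : ℝ) ^ n * x) * p := by linarith
      exact le_of_mul_le_mul_right h5 hp0
    · have h3 : W + 1 ≤ (W / p + 1) * p := by
        have := Nat.lt_div_mul_add (a := W) (b := p) hp
        linarith
      have h4 : (W : ℝ) + 1 ≤ (((W / p : ℕ) : ℝ) + 1) * p := by exact_mod_cast h3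
      rw [pow_succ] at h2
      have h5 : ((p : ℝ) ^ n * x) * p ≤ (((W / p : ℕ) : ℝ) + 1) * p := by linarith
      exact le_of_mul_le_mul_right h5 hp0
  have hcomp : ∀ n, IsCompact (J n) := by
    intro n
    exact (Sur p R n).isCompact_biUnion (fun _ _ => isCompact_Icc)
  have hne : ∀ n, (J n).Nonempty := by
    intro n
    obtain ⟨W, hW⟩ := h n
    refine ⟨(W : ℝ) / (p : ℝ) ^ n, ?_⟩
    rw [hmem]
    have hpn : 0 < (p : ℝ) ^ n := by positivity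
    refine ⟨W, hW, ?_, ?_⟩
    · rw [mul_div_cancel₀ _ hpn.ne']
    · rw [mul_div_cancel₀ _ hpn.ne']; linarith
  obtain ⟨x, hx⟩ := IsCompact.nonempty_iInter_of_sequence_nonempty_isCompact_isClosed J hdec hne (hcomp 0)
    (fun n => (hcomp n).isClosed)
  rw [Set.mem_iInter] at hx
  have hx0 := (hmem 0 x).1 (hx 0)
  obtain ⟨W, hW, h1, h2⟩ := hx0
  have hW0 : W = 0 := by simpa [Sur] using hW
  subst hW0
  simp at h1 h2
  exact ⟨x, h1, h2, fun n => (hmem n x).1 (hx n)⟩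

/-- the children -/
lemma card_children (p : ℕ) (hp : 1 ≤ p) (n : ℕ) (S : Finset ℕ) (hS : S ⊆ range (p ^ n)) :
    ((range (p ^ (n + 1))).filter (fun W => W / p ∈ S)).card = p * S.card := by
  have h1 : (range (p ^ (n + 1))).filter (fun W => W / p ∈ S) = (S ×ˢ range p).image (fun v => v.1 * p + v.2) := by
    ext W
    rw [mem_filter, mem_range, mem_image]
    constructor
    · rintro ⟨h1, h2⟩
      refine ⟨(W / p, W % p), ?_, ?_⟩
      · rw [mem_product, mem_range]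
        exact ⟨h2, Nat.mod_lt _ hp⟩
      · simp only
        rw [mul_comm]
        exact Nat.div_add_mod W p
    · rintro ⟨⟨a, b⟩, h1, rfl⟩
      rw [mem_product, mem_range] at h1
      simp only at h1 ⊢
      have h2 : (a * p + b) / p = a := by
        rw [mul_comm, Nat.mul_add_div hp, Nat.div_eq_of_lt h1.2, add_zero]
      refine ⟨?_, by rw [h2]; exact h1.1⟩
      have h3 := mem_range.1 (hS h1.1)
      rw [pow_succ]
      have h4 : (a + 1) * p ≤ p ^ n * p := Nat.mul_le_mul_right _ h3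
      linarith [h1.2]
  rw [h1, card_image_of_injOn, card_product, card_range, mul_comm]
  rintro ⟨a, b⟩ h1 ⟨a', b'⟩ h2 h3
  rw [mem_coe, mem_product, mem_range] at h1 h2
  simp only at h1 h2 h3
  have e1 : a = a' := by
    have h4 : (a * p + b) / p = a := by rw [mul_comm, Nat.mul_add_div hp, Nat.div_eq_of_lt h1.2, add_zero]
    have h5 : (a' * p + b') / p = a' := by rw [mul_comm, Nat.mul_add_div hp, Nat.div_eq_of_lt h2.2, add_zero]
    rw [← h4, ← h5, h3]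
  subst e1
  have e2 : b = b' := by omega
  rw [e2]

lemma Sur_step (p : ℕ) (hp : 1 ≤ p) (R : ℕ → Set ℕ) (n : ℕ) (G : Finset ℕ)
    (hG : ∀ W ∈ range (p ^ (n + 1)), W / p ∈ Sur p R n → W ∈ R (n + 1) → W ∈ G) :
    p * (Sur p R n).card ≤ (Sur p R (n + 1)).card + G.card := by
  classical
  rw [← card_children p hp n _ (Sur_subset p R n)]
  refine le_trans (card_le_card ?_) (card_union_le _ _)
  intro W hW
  rw [mem_filter] at hW
  rw [mem_union]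
  by_cases h : W ∈ R (n + 1)
  · right; exact hG W hW.1 hW.2 h
  · left
    unfold Sur
    rw [mem_filter]
    exact ⟨hW.1, hW.2, h⟩

/-- the fractions of the block `(j, t)` -/
noncomputable def QQ (p j t : ℕ) : Finset ℝ :=
  (Ico 1 (p ^ (t + 1))).biUnion (fun m => (Icc (-(p ^ j * m : ℤ)) (2 * (p ^ j * m))).image
    (fun a : ℤ => (a : ℝ) / ((p : ℝ) ^ j * m)))

lemma mem_QQ (p j t : ℕ) (y : ℝ) : y ∈ QQ p j t ↔ ∃ m : ℕ, ∃ a : ℤ, 1 ≤ m ∧ m < p ^ (t + 1) ∧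
    -(p ^ j * m : ℤ) ≤ a ∧ a ≤ 2 * (p ^ j * m) ∧ y = (a : ℝ) / ((p : ℝ) ^ j * m) := by
  unfold QQ
  simp only [mem_biUnion, mem_Ico, mem_image, mem_Icc]
  constructor
  · rintro ⟨m, ⟨h1, h2⟩, a, ⟨h3, h4⟩, rfl⟩
    exact ⟨m, a, h1, h2, h3, h4, rfl⟩
  · rintro ⟨m, a, h1, h2, h3, h4, rfl⟩
    exact ⟨m, ⟨h1, h2⟩, a, ⟨h3, h4⟩, rfl⟩

lemma QQ_sep (p : ℕ) (hp : 1 ≤ p) (j t : ℕ) (y z : ℝ) (hy : y ∈ QQ p j t) (hz : z ∈ QQ p j t) (hne : y ≠ z) :
    1 / ((p : ℝ) ^ (j + 2 * t) * (p : ℝ) ^ 2) ≤ |y - z| := by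
  rw [mem_QQ] at hy hz
  obtain ⟨m, a, h1, h2, _, _, rfl⟩ := hy
  obtain ⟨m', a', k1, k2, _, _, rfl⟩ := hz
  have hp0 : (0 : ℝ) < p := by exact_mod_cast hp
  have hm : (0 : ℝ) < m := by exact_mod_cast h1
  have hm' : (0 : ℝ) < m' := by exact_mod_cast k1
  have hmt : (m : ℝ) ≤ (p : ℝ) ^ (t + 1) := by exact_mod_cast h2.le
  have hmt' : (m' : ℝ) ≤ (p : ℝ) ^ (t + 1) := by exact_mod_cast k2.le
  have e1 : (a : ℝ) / ((p : ℝ) ^ j * m) - (a' : ℝ) / ((p : ℝ) ^ j * m') =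
      ((a * m' - a' * m : ℤ) : ℝ) / ((p : ℝ) ^ j * (m * m')) := by
    push_cast
    field_simp
  have e2 : a * m' - a' * m ≠ 0 := by
    intro h
    apply hne
    have h3 : (a : ℝ) / ((p : ℝ) ^ j * m) - (a' : ℝ) / ((p : ℝ) ^ j * m') = 0 := by
      rw [e1, h]; simp
    linarith
  rw [e1, abs_div, abs_of_pos (show (0 : ℝ) < (p : ℝ) ^ j * (m * m') by positivity)]
  have e3 : (1 : ℝ) ≤ |((a * m' - a' * m : ℤ) : ℝ)| := by
    have := Int.one_le_abs e2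
    exact_mod_cast this
  apply div_le_div₀ (by positivity) e3 (by positivity)
  calc (p : ℝ) ^ j * (m * m') ≤ (p : ℝ) ^ j * ((p : ℝ) ^ (t + 1) * (p : ℝ) ^ (t + 1)) := by gcongr
    _ = _ := by ring

/-- integers near a point -/
lemma card_near (X : Finset ℕ) (y : ℝ) (h : ∀ W ∈ X, |(W : ℝ) - y| ≤ 2) : (X.card : ℝ) ≤ 5 := by
  have h1 := card_le_of_sep X (fun W : ℕ => (W : ℝ)) (y - 2) 4 1 one_pos
    (fun W hW => by
      have := h W hW
      rw [abs_le] at this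
      constructor <;> linarith)
    (fun W _ V _ hne => by
      have : (1 : ℤ) ≤ |(W : ℤ) - V| := Int.one_le_abs (by omega)
      have h2 : ((1 : ℤ) : ℝ) ≤ ((|(W : ℤ) - V| : ℤ) : ℝ) := by exact_mod_cast this
      push_cast at h2
      exact h2) (by norm_num)
  linarith

open Classical in
/-- the descendants of `V` near the fractions of the block `(j, t)` -/
lemma card_block (p : ℕ) (hp : 2 ≤ p) (j t e V : ℕ) (he : 1 ≤ e) :
    ((((range (p ^ (j + 2 * t + e))).filter (fun W => W / p ^ e = V ∧ ∃ y ∈ QQ p j t,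
      |(W : ℝ) - (p : ℝ) ^ (j + 2 * t + e) * y| ≤ 2)).card : ℕ) : ℝ) ≤ 20 * (p : ℝ) ^ 2 := by
  have hp0 : (0 : ℝ) < p := by positivity
  have hp2 : (2 : ℝ) ≤ p := by exact_mod_cast hp
  set n := j + 2 * t + e with hn
  have hpn : 0 < (p : ℝ) ^ n := by positivity
  have hpe : (p : ℝ) ^ n = (p : ℝ) ^ (j + 2 * t) * (p : ℝ) ^ e := by rw [hn, pow_add]
  have hpe2 : (2 : ℝ) ≤ (p : ℝ) ^ e := by
    calc (2 : ℝ) ≤ p := hp2
      _ = (p : ℝ) ^ 1 := (pow_one _).symm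
      _ ≤ (p : ℝ) ^ e := pow_le_pow_right₀ (by linarith) he
  set Q' := (QQ p j t).filter (fun y => (V : ℝ) / (p : ℝ) ^ (j + 2 * t) - 2 / (p : ℝ) ^ n ≤ y ∧
    y ≤ ((V : ℝ) + 1) / (p : ℝ) ^ (j + 2 * t) + 2 / (p : ℝ) ^ n) with hQ'
  have h1 : (range (p ^ n)).filter (fun W => W / p ^ e = V ∧ ∃ y ∈ QQ p j t,
      |(W : ℝ) - (p : ℝ) ^ n * y| ≤ 2) ⊆ Q'.biUnion (fun y => (range (p ^ n)).filter (fun W : ℕ => |(W : ℝ) - (p : ℝ) ^ n * y| ≤ 2)) := by
    intro W hW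
    rw [mem_filter] at hW
    obtain ⟨h1, h2, y, hy, h3⟩ := hW
    rw [mem_biUnion]
    refine ⟨y, ?_, by rw [mem_filter]; exact ⟨h1, h3⟩⟩
    rw [hQ', mem_filter]
    refine ⟨hy, ?_⟩
    have h4 : V * p ^ e ≤ W := by rw [← h2]; exact Nat.div_mul_le_self _ _
    have h5 : W < (V + 1) * p ^ e := by
      rw [← h2]
      have := Nat.lt_div_mul_add (a := W) (b := p ^ e) (by positivity)
      linarith
    have h4' : (V : ℝ) * (p : ℝ) ^ e ≤ W := by exact_mod_cast h4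
    have h5' : (W : ℝ) < (V + 1) * (p : ℝ) ^ e := by exact_mod_cast h5
    rw [abs_le] at h3
    have e1 : (V : ℝ) / (p : ℝ) ^ (j + 2 * t) = V * (p : ℝ) ^ e / (p : ℝ) ^ n := by rw [hpe]; field_simp
    have e2 : ((V : ℝ) + 1) / (p : ℝ) ^ (j + 2 * t) = (V + 1) * (p : ℝ) ^ e / (p : ℝ) ^ n := by rw [hpe]; field_simp
    rw [e1, e2, ← sub_div, ← add_div, div_le_iff₀ hpn, le_div_iff₀ hpn]
    constructor <;> linarith
  have h2 : (Q'.card : ℝ) ≤ 4 * (p : ℝ) ^ 2 := by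
    have h3 := card_le_of_sep Q' (fun y => y) ((V : ℝ) / (p : ℝ) ^ (j + 2 * t) - 2 / (p : ℝ) ^ n)
      (1 / (p : ℝ) ^ (j + 2 * t) + 4 / (p : ℝ) ^ n) (1 / ((p : ℝ) ^ (j + 2 * t) * (p : ℝ) ^ 2)) (by positivity)
      (fun y hy => by
        rw [hQ', mem_filter] at hy
        refine ⟨hy.2.1, hy.2.2.trans (le_of_eq ?_)⟩
        ring)
      (fun y hy z hz hne => by
        rw [hQ', mem_filter] at hy hz
        exact QQ_sep p (by omega) j t y z hy.1 hz.1 hne) (by positivity)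
    refine h3.trans ?_
    have e1 : (1 / (p : ℝ) ^ (j + 2 * t) + 4 / (p : ℝ) ^ n) / (1 / ((p : ℝ) ^ (j + 2 * t) * (p : ℝ) ^ 2)) =
        (p : ℝ) ^ 2 * (1 + 4 / (p : ℝ) ^ e) := by
      rw [hpe]; field_simp
    rw [e1]
    have e2 : 4 / (p : ℝ) ^ e ≤ 2 := by
      rw [div_le_iff₀ (by positivity)]; linarith
    have e3 : (4 : ℝ) ≤ (p : ℝ) ^ 2 := by nlinarith
    nlinarith
  have h3 : ((range (p ^ n)).filter (fun W => W / p ^ e = V ∧ ∃ y ∈ QQ p j t,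
      |(W : ℝ) - (p : ℝ) ^ n * y| ≤ 2)).card ≤ ∑ y ∈ Q', ((range (p ^ n)).filter (fun W : ℕ => |(W : ℝ) - (p : ℝ) ^ n * y| ≤ 2)).card :=
    (card_le_card h1).trans card_biUnion_le
  have h4 : ((((range (p ^ n)).filter (fun W => W / p ^ e = V ∧ ∃ y ∈ QQ p j t,
      |(W : ℝ) - (p : ℝ) ^ n * y| ≤ 2)).card : ℕ) : ℝ) ≤ ∑ y ∈ Q', (5 : ℝ) := by
    have h5 : ((((range (p ^ n)).filter (fun W => W / p ^ e = V ∧ ∃ y ∈ QQ p j t,
      |(W : ℝ) - (p : ℝ) ^ n * y| ≤ 2)).card : ℕ) : ℝ) ≤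
      ((∑ y ∈ Q', ((range (p ^ n)).filter (fun W : ℕ => |(W : ℝ) - (p : ℝ) ^ n * y| ≤ 2)).card : ℕ) : ℝ) :=
      Nat.cast_le.2 h3
    refine h5.trans ?_
    rw [Nat.cast_sum]
    apply sum_le_sum
    intro y _
    apply card_near _ ((p : ℝ) ^ n * y)
    intro W hW
    rw [mem_filter] at hW
    exact hW.2
  rw [sum_const, nsmul_eq_mul] at h4
  nlinarith

end Pool.Agent.H587.PD
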