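import Mathlib
import Pool.Agent.H587.PD.Tree

set_option autoImplicit false

open Finset Filter

namespace Pool.Agent.H587.PD

/-- the removed digit strings -/
def RR (p n₀ : ℕ) (e : ℕ → ℕ) (pts : ℕ → Set ℝ) (n : ℕ) : Set ℕ :=
  {W | n₀ < n ∧ ((∃ j t, j + 2 * t + e (j + t) = n ∧ ∃ y ∈ QQ p j t, |(W : ℝ) - (p : ℝ) ^ n * y| ≤ 2) ∨
    ∃ y ∈ pts n, |(W : ℝ) - (p : ℝ) ^ n * y| ≤ 2)}

lemma Sur_full (p n₀ : ℕ) (hp : 1 ≤ p) (e : ℕ → ℕ) (pts : ℕ → Set ℝ) (n : ℕ) (hn : n ≤ n₀) :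
    Sur p (RR p n₀ e pts) n = range (p ^ n) := by
  classical
  induction n with
  | zero => simp [Sur]
  | succ n ih =>
    have ih' := ih (by omega)
    unfold Sur
    rw [filter_eq_self, ih']
    intro W hW
    refine ⟨?_, ?_⟩
    · rw [mem_range] at hW ⊢
      rw [Nat.div_lt_iff_lt_mul hp, ← pow_succ]
      exact hW
    · intro h
      have := h.1
      omega

lemma exp_le_one_sub (x : ℝ) (h0 : 0 ≤ x) (h1 : x ≤ 1 / 2) : Real.exp (-(2 * x)) ≤ 1 - x := by
  have h2 : 1 + 2 * x ≤ Real.exp (2 * x) := by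
    have := Real.add_one_le_exp (2 * x)
    linarith
  have h3 : 0 < Real.exp (2 * x) := Real.exp_pos _
  rw [Real.exp_neg, inv_le_comm₀ h3 (by linarith)]
  refine le_trans ?_ h2
  rw [inv_le_iff_one_le_mul₀ (by linarith)]
  nlinarith

open Classical in
/-- the number of the removed strings near the fractions -/
lemma card_R1 (p : ℕ) (hp : 2 ≤ p) (R : ℕ → Set ℕ) (e : ℕ → ℕ) (he : ∀ k, 1 ≤ e k) (n : ℕ) :
    ((((range (p ^ (n + 1))).filter (fun W => W / p ∈ Sur p R n ∧ ∃ j t, j + 2 * t + e (j + t) = n + 1 ∧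
      ∃ y ∈ QQ p j t, |(W : ℝ) - (p : ℝ) ^ (n + 1) * y| ≤ 2)).card : ℕ) : ℝ) ≤
      ∑ v ∈ ((range (n + 2)) ×ˢ (range (n + 2))).filter (fun v => v.1 + 2 * v.2 + e (v.1 + v.2) = n + 1),
        20 * (p : ℝ) ^ 2 * ((Sur p R (v.1 + 2 * v.2)).card : ℝ) := by
  set P := ((range (n + 2)) ×ˢ (range (n + 2))).filter (fun v => v.1 + 2 * v.2 + e (v.1 + v.2) = n + 1) with hP
  have h1 : (range (p ^ (n + 1))).filter (fun W => W / p ∈ Sur p R n ∧ ∃ j t, j + 2 * t + e (j + t) = n + 1 ∧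
      ∃ y ∈ QQ p j t, |(W : ℝ) - (p : ℝ) ^ (n + 1) * y| ≤ 2) ⊆
      P.biUnion (fun v => (Sur p R (v.1 + 2 * v.2)).biUnion (fun V =>
        (range (p ^ (v.1 + 2 * v.2 + e (v.1 + v.2)))).filter (fun W : ℕ => W / p ^ (e (v.1 + v.2)) = V ∧ ∃ y ∈ QQ p v.1 v.2,
      |(W : ℝ) - (p : ℝ) ^ (v.1 + 2 * v.2 + e (v.1 + v.2)) * y| ≤ 2))) := by
    intro W hW
    rw [mem_filter] at hW
    obtain ⟨hW1, hW2, j, t, hjt, hy⟩ := hW
    rw [mem_biUnion]
    refine ⟨(j, t), ?_, ?_⟩
    · rw [hP, mem_filter, mem_product, mem_range, mem_range]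
      have := he (j + t)
      refine ⟨⟨?_, ?_⟩, hjt⟩
      · simp only; omega
      · simp only; omega
    · rw [mem_biUnion]
      refine ⟨W / p ^ (e (j + t)), ?_, ?_⟩
      · have h2 : W ∈ range (p ^ (n + 1)) := hW1
        have h3 : n = (j + 2 * t) + (e (j + t) - 1) := by have := he (j + t); omega
        have h4 : W / p ∈ Sur p R ((j + 2 * t) + (e (j + t) - 1)) := by rw [← h3]; exact hW2
        have h5 := Sur_anc p (by omega) R (j + 2 * t) (e (j + t) - 1) (W / p) h4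
        rw [Nat.div_div_eq_div_mul, ← pow_succ'] at h5
        have h6 : e (j + t) - 1 + 1 = e (j + t) := by have := he (j + t); omega
        rwa [h6] at h5
      · rw [mem_filter]
        refine ⟨?_, rfl, ?_⟩
        · show W ∈ range (p ^ (j + 2 * t + e (j + t)))
          rw [hjt]; exact hW1
        · show ∃ y ∈ QQ p j t, |(W : ℝ) - (p : ℝ) ^ (j + 2 * t + e (j + t)) * y| ≤ 2
          rw [hjt]; exact hy
  have h2 := (card_le_card h1).trans (card_biUnion_le.trans (sum_le_sum fun v _ => card_biUnion_le))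
  have h3 : ((((range (p ^ (n + 1))).filter (fun W => W / p ∈ Sur p R n ∧ ∃ j t, j + 2 * t + e (j + t) = n + 1 ∧
      ∃ y ∈ QQ p j t, |(W : ℝ) - (p : ℝ) ^ (n + 1) * y| ≤ 2)).card : ℕ) : ℝ) ≤
      ((∑ v ∈ P, ∑ V ∈ Sur p R (v.1 + 2 * v.2), ((range (p ^ (v.1 + 2 * v.2 + e (v.1 + v.2)))).filter (fun W : ℕ => W / p ^ (e (v.1 + v.2)) = V ∧ ∃ y ∈ QQ p v.1 v.2,
      |(W : ℝ) - (p : ℝ) ^ (v.1 + 2 * v.2 + e (v.1 + v.2)) * y| ≤ 2)).card : ℕ) : ℝ) := Nat.cast_le.2 h2
  refine h3.trans ?_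
  rw [Nat.cast_sum]
  apply sum_le_sum
  intro v _
  rw [Nat.cast_sum]
  have h4 : ∀ V ∈ Sur p R (v.1 + 2 * v.2), ((((range (p ^ (v.1 + 2 * v.2 + e (v.1 + v.2)))).filter (fun W : ℕ => W / p ^ (e (v.1 + v.2)) = V ∧ ∃ y ∈ QQ p v.1 v.2,
      |(W : ℝ) - (p : ℝ) ^ (v.1 + 2 * v.2 + e (v.1 + v.2)) * y| ≤ 2)).card : ℕ) : ℝ) ≤ 20 * (p : ℝ) ^ 2 := by
    intro V _
    exact card_block p hp v.1 v.2 (e (v.1 + v.2)) V (he _)
  refine (sum_le_sum h4).trans (le_of_eq ?_)
  rw [sum_const, nsmul_eq_mul]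
  ring

/-- the number of the pairs -/
lemma card_pairs (e : ℕ → ℕ) (he : Monotone e) (n : ℕ) :
    (((range (n + 2)) ×ˢ (range (n + 2))).filter (fun v => v.1 + 2 * v.2 + e (v.1 + v.2) = n + 1)).card ≤ n + 2 := by
  have h1 : (((range (n + 2)) ×ˢ (range (n + 2))).filter (fun v => v.1 + 2 * v.2 + e (v.1 + v.2) = n + 1)).card ≤
      (range (n + 2)).card := by
    apply card_le_card_of_injOn (fun v => v.2)
    · intro v hv
      rw [mem_coe, mem_filter, mem_product] at hv
      exact hv.1.2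
    · rintro ⟨j, t⟩ hv ⟨j', t'⟩ hv' h
      rw [mem_coe, mem_filter] at hv hv'
      simp only at h hv hv'
      subst h
      have h2 := hv.2
      have h3 := hv'.2
      rcases lt_trichotomy j j' with h | h | h
      · have := he (show j + t ≤ j' + t by omega)
        omega
      · rw [h]
      · have := he (show j' + t ≤ j + t by omega)
        omega
  rwa [card_range] at h1

/-- the main induction -/
theorem tree_main (p n₀ : ℕ) (hp : 2 ≤ p) (e : ℕ → ℕ) (he : Monotone e) (he1 : ∀ k, 1 ≤ e k) (c β β' : ℝ)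
    (hc : 0 ≤ c) (hec : ∀ k : ℕ, ((k : ℝ) + 1) ^ c ≤ (p : ℝ) ^ (e k)) (hβ1 : β < 1) (hβ'0 : 0 ≤ β') (hβ'1 : β' ≤ 1)
    (hA1 : ∀ n, n₀ < n → 3 * e n ≤ n)
    (hA2 : ∀ n, n₀ < n → (e n : ℝ) * ((n : ℝ) / 2) ^ (β - 1) ≤ 1 / 2)
    (hA3 : ∀ n : ℕ, n₀ < n → 80 * ((n : ℝ) + 1) * (p : ℝ) ^ 2 * (3 : ℝ) ^ c * (n : ℝ) ^ (-c) ≤ (n : ℝ) ^ (β - 1))
    (hA5 : ∀ n : ℕ, n₀ < n → 2 * (n : ℝ) ^ (β - 1) ≤ β' * (n : ℝ) ^ (β' - 1) ∧ (n : ℝ) ^ (β - 1) ≤ 1 / 2)
    (pts : ℕ → Set ℝ)
    (hpts : ∀ n : ℕ, n₀ < n → ∀ X : Finset ℕ, (∀ W ∈ X, ∃ y ∈ pts n, |(W : ℝ) - (p : ℝ) ^ n * y| ≤ 2) →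
      (X.card : ℝ) ≤ 1 / 2 * (p : ℝ) ^ n * (n : ℝ) ^ (β - 1) * Real.exp (-(((n : ℝ) - 1) ^ β'))) :
    ∃ x : ℝ, 0 ≤ x ∧ x ≤ 1 ∧
      (∀ j t, n₀ < j + 2 * t + e (j + t) → ∀ y ∈ QQ p j t, 1 / (p : ℝ) ^ (j + 2 * t + e (j + t)) < |x - y|) ∧
      (∀ n, n₀ < n → ∀ y ∈ pts n, 1 / (p : ℝ) ^ n < |x - y|) := by
  classical
  have hp0 : (0 : ℝ) < p := by positivity
  set R := RR p n₀ e pts with hR
  set σ : ℕ → ℝ := fun n => ((Sur p R n).card : ℝ) / (p : ℝ) ^ n with hσ
  have hσcard : ∀ n, ((Sur p R n).card : ℝ) = σ n * (p : ℝ) ^ n := by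
    intro n
    simp only [hσ]
    field_simp
  have hσ0 : ∀ n, 0 ≤ σ n := fun n => div_nonneg (Nat.cast_nonneg _) (pow_nonneg hp0.le _)
  have hσfull : ∀ n, n ≤ n₀ → σ n = 1 := by
    intro n hn
    simp only [hσ]
    rw [hR, Sur_full p n₀ (by omega) e pts n hn, card_range]
    push_cast
    apply div_self
    positivity
  clear_value σ
  have hmain : ∀ n, (∀ k, k < n → (1 - (if n₀ < k + 1 then ((k + 1 : ℕ) : ℝ) ^ (β - 1) else 0)) * σ k ≤ σ (k + 1)) ∧
      Real.exp (-((n : ℝ) ^ β')) ≤ σ n := by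
    intro n
    induction n with
    | zero =>
      refine ⟨fun k hk => absurd hk (Nat.not_lt_zero k), ?_⟩
      rw [hσfull 0 (Nat.zero_le _), Real.exp_le_one_iff]
      have : 0 ≤ ((0 : ℕ) : ℝ) ^ β' := by positivity
      linarith
    | succ n ih =>
      obtain ⟨ih1, ih2⟩ := ih
      by_cases hn : n + 1 ≤ n₀
      · refine ⟨fun k hk => ?_, ?_⟩
        · rw [if_neg (by omega), hσfull k (by omega), hσfull (k + 1) (by omega)]
          norm_num
        · rw [hσfull (n + 1) hn, Real.exp_le_one_iff]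
          have : 0 ≤ ((n + 1 : ℕ) : ℝ) ^ β' := by positivity
          linarith
      · push Not at hn
        -- positivity
        have hσn : 0 < σ n := lt_of_lt_of_le (Real.exp_pos _) ih2
        have hn1 : (0 : ℝ) < ((n + 1 : ℕ) : ℝ) := by positivity
        -- the ratio
        have hratio : ∀ i k : ℕ, k + i ≤ n → (n + 1 : ℕ) ≤ 2 * k → (1 - i * (((n + 1 : ℕ) : ℝ) / 2) ^ (β - 1)) * σ k ≤ σ (k + i) := by
          intro i
          induction i with
          | zero => intro k _ _; simp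
          | succ i ihi =>
            intro k hk hk2
            have h1 := ihi k (by omega) hk2
            have h2 := ih1 (k + i) (by omega)
            have ha0 : 0 ≤ (((n + 1 : ℕ) : ℝ) / 2) ^ (β - 1) := by positivity
            have hσk : 0 ≤ σ k := hσ0 _
            have hσki : 0 ≤ σ (k + i) := hσ0 _
            have h3 : (if n₀ < k + i + 1 then ((k + i + 1 : ℕ) : ℝ) ^ (β - 1) else 0) ≤ (((n + 1 : ℕ) : ℝ) / 2) ^ (β - 1) := by
              split_ifs
              · apply Real.rpow_le_rpow_of_nonpos (by positivity) _ (by linarith)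
                rw [div_le_iff₀ (by norm_num)]
                have : n + 1 ≤ (k + i + 1) * 2 := by omega
                exact_mod_cast this
              · exact ha0
            set a := (((n + 1 : ℕ) : ℝ) / 2) ^ (β - 1) with ha
            have h4 : (1 - a) * σ (k + i) ≤ σ (k + (i + 1)) := by
              refine le_trans ?_ h2
              apply mul_le_mul_of_nonneg_right _ hσki
              linarith
            have h5 : (1 - ((i + 1 : ℕ) : ℝ) * a) * σ k ≤ (1 - i * a) * σ k - a * σ k := by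
              push_cast
              linarith
            -- (1 - a) σ_{k+i} ≥ σ_{k+i} - a σ_{k+i}; use the cases
            by_cases hcase : σ (k + i) ≤ σ k
            · have h6 : a * σ (k + i) ≤ a * σ k := mul_le_mul_of_nonneg_left hcase ha0
              linarith
            · push Not at hcase
              by_cases h1a : a ≤ 1
              · have h7 : (1 - a) * σ k ≤ (1 - a) * σ (k + i) := mul_le_mul_of_nonneg_left hcase.le (by linarith)
                have h8 : (1 - ((i + 1 : ℕ) : ℝ) * a) * σ k ≤ (1 - a) * σ k := by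
                  apply mul_le_mul_of_nonneg_right _ hσk
                  push_cast
                  have : 0 ≤ (i : ℝ) * a := by positivity
                  linarith
                linarith
              · push Not at h1a
                have h8 : (1 - ((i + 1 : ℕ) : ℝ) * a) * σ k ≤ 0 := by
                  apply mul_nonpos_of_nonpos_of_nonneg _ hσk
                  push_cast
                  have : 0 ≤ (i : ℝ) * a := by positivity
                  linarith
                have : 0 ≤ σ (k + (i + 1)) := hσ0 _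
                linarith
        -- the counts
        set G1 := (range (p ^ (n + 1))).filter (fun W => W / p ∈ Sur p R n ∧ ∃ j t, j + 2 * t + e (j + t) = n + 1 ∧
          ∃ y ∈ QQ p j t, |(W : ℝ) - (p : ℝ) ^ (n + 1) * y| ≤ 2) with hG1
        set G2 := (range (p ^ (n + 1))).filter (fun W : ℕ => ∃ y ∈ pts (n + 1), |(W : ℝ) - (p : ℝ) ^ (n + 1) * y| ≤ 2) with hG2
        have hstep := Sur_step p (by omega) R n (G1 ∪ G2) (by
          intro W hW1 hW2 hW3
          rw [mem_union]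
          obtain ⟨_, hW4⟩ := hW3
          rcases hW4 with h | h
          · left; rw [hG1, mem_filter]; exact ⟨hW1, hW2, h⟩
          · right; rw [hG2, mem_filter]; exact ⟨hW1, h⟩)
        have hG2c : (G2.card : ℝ) ≤ 1 / 2 * (p : ℝ) ^ (n + 1) * ((n + 1 : ℕ) : ℝ) ^ (β - 1) * σ n := by
          have h1 := hpts (n + 1) (by omega) G2 (fun W hW => by rw [hG2, mem_filter] at hW; exact hW.2)
          refine h1.trans ?_
          have h2 : Real.exp (-((((n + 1 : ℕ) : ℝ) - 1) ^ β')) ≤ σ n := by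
            have : (((n + 1 : ℕ) : ℝ) - 1) = n := by push_cast; ring
            rw [this]
            exact ih2
          gcongr
        have hG1c : (G1.card : ℝ) ≤ 1 / 2 * (p : ℝ) ^ (n + 1) * ((n + 1 : ℕ) : ℝ) ^ (β - 1) * σ n := by
          have h1 := card_R1 p hp R e he1 n
          refine h1.trans ?_
          have h2 : ∀ v ∈ ((range (n + 2)) ×ˢ (range (n + 2))).filter (fun v => v.1 + 2 * v.2 + e (v.1 + v.2) = n + 1),
              20 * (p : ℝ) ^ 2 * ((Sur p R (v.1 + 2 * v.2)).card : ℝ) ≤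
              40 * (p : ℝ) ^ 2 * (p : ℝ) ^ (n + 1) * ((3 : ℝ) ^ c * ((n + 1 : ℕ) : ℝ) ^ (-c)) * σ n := by
            rintro ⟨j, t⟩ hv
            rw [mem_filter] at hv
            have hjt := hv.2
            simp only at hjt ⊢
            have he1' := he1 (j + t)
            have hemon : e (j + t) ≤ e (n + 1) := he (by omega)
            have hA1' := hA1 (n + 1) (by omega)
            have hk2 : n + 1 ≤ 2 * (j + 2 * t) := by omega
            have h3 := hratio (e (j + t) - 1) (j + 2 * t) (by omega) hk2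
            have h4 : j + 2 * t + (e (j + t) - 1) = n := by omega
            rw [h4] at h3
            have hA2' := hA2 (n + 1) (by omega)
            have h5 : ((e (j + t) - 1 : ℕ) : ℝ) * (((n + 1 : ℕ) : ℝ) / 2) ^ (β - 1) ≤ 1 / 2 := by
              refine le_trans ?_ hA2'
              apply mul_le_mul_of_nonneg_right _ (by positivity)
              have : e (j + t) - 1 ≤ e (n + 1) := by omega
              exact_mod_cast this
            have hσk : 0 ≤ σ (j + 2 * t) := hσ0 _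
            have h6 : σ (j + 2 * t) ≤ 2 * σ n := by nlinarith
            rw [hσcard]
            have h7 : (p : ℝ) ^ (j + 2 * t) ≤ (p : ℝ) ^ (n + 1) * ((3 : ℝ) ^ c * ((n + 1 : ℕ) : ℝ) ^ (-c)) := by
              have h8 : (p : ℝ) ^ (n + 1) = (p : ℝ) ^ (j + 2 * t) * (p : ℝ) ^ (e (j + t)) := by
                rw [← pow_add, hjt]
              rw [h8]
              have h9 : 1 ≤ (p : ℝ) ^ (e (j + t)) * ((3 : ℝ) ^ c * ((n + 1 : ℕ) : ℝ) ^ (-c)) := by
                have h10 := hec (j + t)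
                have h11 : (((n + 1 : ℕ) : ℝ) / 3) ^ c ≤ ((((j + t : ℕ) : ℝ)) + 1) ^ c := by
                  apply Real.rpow_le_rpow (by positivity) _ hc
                  rw [div_le_iff₀ (by norm_num)]
                  have : n + 1 ≤ (j + t + 1) * 3 := by omega
                  exact_mod_cast this
                have h12 : (((n + 1 : ℕ) : ℝ) / 3) ^ c * ((3 : ℝ) ^ c * ((n + 1 : ℕ) : ℝ) ^ (-c)) = 1 := by
                  rw [Real.div_rpow (by positivity) (by norm_num), Real.rpow_neg (by positivity)]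
                  have : 0 < (3 : ℝ) ^ c := by positivity
                  have : 0 < ((n + 1 : ℕ) : ℝ) ^ c := by positivity
                  field_simp
                calc (1 : ℝ) = (((n + 1 : ℕ) : ℝ) / 3) ^ c * ((3 : ℝ) ^ c * ((n + 1 : ℕ) : ℝ) ^ (-c)) := h12.symm
                  _ ≤ _ := by
                    apply mul_le_mul_of_nonneg_right (h11.trans h10)
                    positivity
              calc (p : ℝ) ^ (j + 2 * t) = (p : ℝ) ^ (j + 2 * t) * 1 := (mul_one _).symm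
                _ ≤ (p : ℝ) ^ (j + 2 * t) * ((p : ℝ) ^ (e (j + t)) * ((3 : ℝ) ^ c * ((n + 1 : ℕ) : ℝ) ^ (-c))) := by gcongr
                _ = _ := by ring
            calc 20 * (p : ℝ) ^ 2 * (σ (j + 2 * t) * (p : ℝ) ^ (j + 2 * t)) ≤
                20 * (p : ℝ) ^ 2 * ((2 * σ n) * ((p : ℝ) ^ (n + 1) * ((3 : ℝ) ^ c * ((n + 1 : ℕ) : ℝ) ^ (-c)))) := by gcongr
              _ = _ := by ring
          refine (sum_le_sum h2).trans ?_
          rw [sum_const, nsmul_eq_mul]
          have h3 : ((((range (n + 2)) ×ˢ (range (n + 2))).filter (fun v => v.1 + 2 * v.2 + e (v.1 + v.2) = n + 1)).card : ℝ) ≤ ((n + 1 : ℕ) : ℝ) + 1 := by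
            have := card_pairs e he n
            exact_mod_cast this
          have hA3' := hA3 (n + 1) (by omega)
          calc _ ≤ (((n + 1 : ℕ) : ℝ) + 1) * (40 * (p : ℝ) ^ 2 * (p : ℝ) ^ (n + 1) * ((3 : ℝ) ^ c * ((n + 1 : ℕ) : ℝ) ^ (-c)) * σ n) := by
                apply mul_le_mul_of_nonneg_right h3
                positivity
            _ = 1 / 2 * (p : ℝ) ^ (n + 1) * σ n * (80 * (((n + 1 : ℕ) : ℝ) + 1) * (p : ℝ) ^ 2 * (3 : ℝ) ^ c * ((n + 1 : ℕ) : ℝ) ^ (-c)) := by ring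
            _ ≤ 1 / 2 * (p : ℝ) ^ (n + 1) * σ n * ((n + 1 : ℕ) : ℝ) ^ (β - 1) := by gcongr
            _ = _ := by ring
        -- the new ratio
        have hnew : (1 - ((n + 1 : ℕ) : ℝ) ^ (β - 1)) * σ n ≤ σ (n + 1) := by
          have h1 : (p : ℝ) * (Sur p R n).card ≤ (Sur p R (n + 1)).card + (G1.card + G2.card) := by
            have h2 := hstep.trans (Nat.add_le_add_left (card_union_le G1 G2) _)
            exact_mod_cast h2
          rw [hσcard, hσcard] at h1
          have hpn : 0 < (p : ℝ) ^ (n + 1) := by positivity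
          have h3 : (p : ℝ) * (σ n * (p : ℝ) ^ n) = σ n * (p : ℝ) ^ (n + 1) := by ring
          rw [h3] at h1
          have h4 : ((1 - ((n + 1 : ℕ) : ℝ) ^ (β - 1)) * σ n) * (p : ℝ) ^ (n + 1) ≤ σ (n + 1) * (p : ℝ) ^ (n + 1) := by
            nlinarith
          exact le_of_mul_le_mul_right h4 hpn
        refine ⟨fun k hk => ?_, ?_⟩
        · rcases Nat.lt_or_ge k n with h | h
          · exact ih1 k h
          · have : k = n := by omega
            subst this
            rw [if_pos (by omega)]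
            exact hnew
        · obtain ⟨h5, h6⟩ := hA5 (n + 1) (by omega)
          have h7 := exp_le_one_sub (((n + 1 : ℕ) : ℝ) ^ (β - 1)) (by positivity) h6
          have h8 : (n : ℝ) ^ β' ≤ ((n + 1 : ℕ) : ℝ) ^ β' - β' * ((n + 1 : ℕ) : ℝ) ^ (β' - 1) := by
            have h9 := _root_.rpow_one_add_le_one_add_mul_self (s := -(1 / ((n + 1 : ℕ) : ℝ))) (by
              have : 1 / ((n + 1 : ℕ) : ℝ) ≤ 1 := by
                rw [div_le_one hn1]; push_cast; linarith [Nat.cast_nonneg (α := ℝ) n]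
              linarith) hβ'0 hβ'1
            have h10 : (n : ℝ) = ((n + 1 : ℕ) : ℝ) * (1 + -(1 / ((n + 1 : ℕ) : ℝ))) := by
              field_simp
              push_cast
              ring
            have h10' : 0 ≤ 1 + -(1 / ((n + 1 : ℕ) : ℝ)) := by
              have : 1 / ((n + 1 : ℕ) : ℝ) ≤ 1 := by
                rw [div_le_one hn1]; push_cast; linarith [Nat.cast_nonneg (α := ℝ) n]
              linarith
            have h11 : (n : ℝ) ^ β' = ((n + 1 : ℕ) : ℝ) ^ β' * (1 + -(1 / ((n + 1 : ℕ) : ℝ))) ^ β' := by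
              rw [← Real.mul_rpow hn1.le h10', ← h10]
            rw [h11]
            have h12 : ((n + 1 : ℕ) : ℝ) ^ (β' - 1) = ((n + 1 : ℕ) : ℝ) ^ β' / ((n + 1 : ℕ) : ℝ) := by
              rw [Real.rpow_sub hn1, Real.rpow_one]
            rw [h12]
            have h13 : 0 ≤ ((n + 1 : ℕ) : ℝ) ^ β' := by positivity
            calc ((n + 1 : ℕ) : ℝ) ^ β' * (1 + -(1 / ((n + 1 : ℕ) : ℝ))) ^ β' ≤
                ((n + 1 : ℕ) : ℝ) ^ β' * (1 + β' * -(1 / ((n + 1 : ℕ) : ℝ))) := by gcongr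
              _ = _ := by ring
          calc Real.exp (-(((n + 1 : ℕ) : ℝ) ^ β')) ≤ Real.exp (-(2 * ((n + 1 : ℕ) : ℝ) ^ (β - 1)) + -((n : ℝ) ^ β')) := by
                apply Real.exp_le_exp.2; linarith
            _ = Real.exp (-(2 * ((n + 1 : ℕ) : ℝ) ^ (β - 1))) * Real.exp (-((n : ℝ) ^ β')) := by rw [Real.exp_add]
            _ ≤ (1 - ((n + 1 : ℕ) : ℝ) ^ (β - 1)) * σ n := by
                apply mul_le_mul h7 ih2 (Real.exp_pos _).le
                linarith
            _ ≤ _ := hnew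
  have hne : ∀ n, (Sur p R n).Nonempty := by
    intro n
    rw [← card_pos]
    have h1 : 0 < σ n := lt_of_lt_of_le (Real.exp_pos _) (hmain n).2
    have h2 := hσcard n
    have h3 : (0 : ℝ) < (Sur p R n).card := by rw [h2]; exact mul_pos h1 (pow_pos hp0 _)
    exact_mod_cast h3
  obtain ⟨x, hx0, hx1, hx⟩ := exists_point p (by omega) R hne
  have hnear : ∀ n, n₀ < n → ∀ y : ℝ, |x - y| ≤ 1 / (p : ℝ) ^ n → ∃ W, W ∉ R n ∧ |(W : ℝ) - (p : ℝ) ^ n * y| ≤ 2 := by
    intro n hn y hy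
    obtain ⟨W, hW, h1, h2⟩ := hx n
    obtain ⟨n', rfl⟩ : ∃ n', n = n' + 1 := ⟨n - 1, by omega⟩
    unfold Sur at hW
    rw [mem_filter] at hW
    refine ⟨W, hW.2.2, ?_⟩
    have hpn : 0 < (p : ℝ) ^ (n' + 1) := by positivity
    have h3 : |(p : ℝ) ^ (n' + 1) * x - (p : ℝ) ^ (n' + 1) * y| ≤ 1 := by
      rw [← mul_sub, abs_mul, abs_of_pos hpn]
      rw [le_div_iff₀ hpn] at hy
      linarith
    rw [abs_le] at h3 ⊢
    constructor <;> linarith
  refine ⟨x, hx0, hx1, fun j t hjt y hy => ?_, fun n hn y hy => ?_⟩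
  · by_contra hcon
    push Not at hcon
    obtain ⟨W, hW1, hW2⟩ := hnear _ hjt y hcon
    exact hW1 ⟨hjt, Or.inl ⟨j, t, rfl, y, hy, hW2⟩⟩
  · by_contra hcon
    push Not at hcon
    obtain ⟨W, hW1, hW2⟩ := hnear n hn y hcon
    exact hW1 ⟨hn, Or.inr ⟨y, hy, hW2⟩⟩

end Pool.Agent.H587.PD
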