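import Mathlib
import Pool.Agent.H587.PD.Tree2

set_option autoImplicit false

open Finset Filter MeasureTheory

namespace Pool.Agent.H587.PD

/-- the depth of the removed intervals -/
noncomputable def dep (p : ℕ) (c : ℝ) (k : ℕ) : ℕ := Nat.clog p ⌈((k : ℝ) + 1) ^ c⌉₊ + 1

lemma pow_clog_le (p : ℕ) (hp : p.Prime) (x : ℕ) (hx : 1 ≤ x) : p ^ Nat.clog p x ≤ p * x := by
  rcases Nat.lt_or_ge 1 x with h | h
  · have h1 := Nat.pow_pred_clog_lt_self hp.one_lt h
    rcases Nat.eq_zero_or_pos (Nat.clog p x) with h2 | h2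
    · rw [h2, pow_zero]
      exact Nat.mul_pos hp.pos hx
    · have h3 : p ^ Nat.clog p x = p * p ^ (Nat.clog p x).pred := by
        rw [← pow_succ']
        congr 1
        rw [Nat.pred_eq_sub_one]
        omega
      rw [h3]
      exact Nat.mul_le_mul_left _ h1.le
  · have : x = 1 := by omega
    subst this
    simp [hp.one_lt.le]

lemma dep_mono (p : ℕ) (c : ℝ) (hc : 0 ≤ c) : Monotone (dep p c) := by
  intro a b hab
  unfold dep
  apply Nat.add_le_add_right
  apply Nat.clog_mono_right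
  apply Nat.ceil_le_ceil
  apply Real.rpow_le_rpow (by positivity) _ hc
  have : (a : ℝ) ≤ b := by exact_mod_cast hab
  linarith

lemma one_le_base (k : ℕ) (c : ℝ) (hc : 0 ≤ c) : 1 ≤ ((k : ℝ) + 1) ^ c :=
  Real.one_le_rpow (by have := Nat.cast_nonneg (α := ℝ) k; linarith) hc

lemma one_le_ceil (k : ℕ) (c : ℝ) (hc : 0 ≤ c) : 1 ≤ ⌈((k : ℝ) + 1) ^ c⌉₊ := by
  rw [Nat.one_le_ceil_iff]
  linarith [one_le_base k c hc]

lemma dep_ge (p : ℕ) (hp : p.Prime) (c : ℝ) (k : ℕ) : ((k : ℝ) + 1) ^ c ≤ (p : ℝ) ^ (dep p c k) := by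
  have h1 : ⌈((k : ℝ) + 1) ^ c⌉₊ ≤ p ^ (dep p c k) := by
    refine (Nat.le_pow_clog hp.one_lt _).trans ?_
    apply Nat.pow_le_pow_right hp.pos
    unfold dep; omega
  calc ((k : ℝ) + 1) ^ c ≤ (⌈((k : ℝ) + 1) ^ c⌉₊ : ℝ) := Nat.le_ceil _
    _ ≤ _ := by exact_mod_cast h1

lemma ceil_le_two (k : ℕ) (c : ℝ) (hc : 0 ≤ c) : (⌈((k : ℝ) + 1) ^ c⌉₊ : ℝ) ≤ 2 * ((k : ℝ) + 1) ^ c := by
  have h1 := one_le_base k c hc
  have h2 := Nat.ceil_lt_add_one (show 0 ≤ ((k : ℝ) + 1) ^ c by linarith)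
  linarith

lemma dep_le (p : ℕ) (hp : p.Prime) (c : ℝ) (hc : 0 ≤ c) (k : ℕ) :
    (p : ℝ) ^ (dep p c k) ≤ 2 * (p : ℝ) ^ 2 * ((k : ℝ) + 1) ^ c := by
  have h1 := pow_clog_le p hp _ (one_le_ceil k c hc)
  have h2 : ((p ^ Nat.clog p ⌈((k : ℝ) + 1) ^ c⌉₊ : ℕ) : ℝ) ≤ p * (⌈((k : ℝ) + 1) ^ c⌉₊ : ℝ) := by exact_mod_cast h1
  have h3 := ceil_le_two k c hc
  unfold dep
  rw [pow_succ]
  push_cast at h2
  have hp0 : (0 : ℝ) < p := by exact_mod_cast hp.pos
  calc (p : ℝ) ^ Nat.clog p ⌈((k : ℝ) + 1) ^ c⌉₊ * p ≤ (p * (2 * ((k : ℝ) + 1) ^ c)) * p := by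
        apply mul_le_mul_of_nonneg_right _ hp0.le
        refine h2.trans ?_
        gcongr
    _ = _ := by ring

lemma dep_log (p : ℕ) (hp : p.Prime) (c : ℝ) (hc : 0 ≤ c) (n : ℕ) (hn : 1 ≤ n) :
    (dep p c n : ℝ) ≤ (2 + 2 * Real.log 2 + 2 * c * Real.log 2) + 2 * c * Real.log n := by
  have h1 := clog_bound p hp _ (one_le_ceil n c hc)
  have h2 := ceil_le_two n c hc
  have hn0 : (1 : ℝ) ≤ n := by exact_mod_cast hn
  have h3 : Real.log (⌈((n : ℝ) + 1) ^ c⌉₊ : ℝ) ≤ Real.log 2 + c * (Real.log 2 + Real.log n) := by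
    have h4 : ((n : ℝ) + 1) ^ c ≤ (2 * n) ^ c := Real.rpow_le_rpow (by positivity) (by linarith) hc
    calc Real.log (⌈((n : ℝ) + 1) ^ c⌉₊ : ℝ) ≤ Real.log (2 * (2 * n) ^ c) := by
          apply Real.log_le_log
          · have := one_le_ceil n c hc
            exact_mod_cast this
          · linarith
      _ = _ := by
          rw [Real.log_mul (by norm_num) (by positivity), Real.log_rpow (by positivity),
            Real.log_mul (by norm_num) (by positivity)]
  unfold dep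
  push_cast
  linarith

/-- points outside a small cover -/
theorem lower (p : ℕ) (hp : p.Prime) (c θ : ℝ) (hc1 : 1 < c) (hc2 : c < 2) (hθ : 2 - c < θ) (A : ℝ) (hA : 0 < A) :
    ∃ n₁ : ℕ, ∀ t : ℕ → Set ℝ, (∀ i, Metric.ediam (t i) ≤ ENNReal.ofReal (1 / (p : ℝ) ^ (n₁ + 1))) →
      (∑' i, ⨆ _ : (t i).Nonempty, gauge θ (Metric.ediam (t i)) < ENNReal.ofReal A) →
      ∃ x : ℝ, 0 ≤ x ∧ x ≤ 1 ∧ (∃ N : ℕ, x ∈ FF p N c) ∧ ∀ i, x ∉ t i := by
  classical
  have hp1 : (1 : ℝ) < p := by exact_mod_cast hp.one_lt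
  have hp0 : (0 : ℝ) < p := by linarith
  have hp2 : (2 : ℝ) ≤ p := by exact_mod_cast hp.two_le
  have hlp : 1 / 2 ≤ Real.log p := by
    have h4 : Real.log 2 ≤ Real.log p := Real.log_le_log (by norm_num) hp2
    have := Real.log_two_gt_d9
    linarith
  set θ₁ := min θ 1 with hθ₁
  have hθ₁1 : θ₁ ≤ θ := min_le_left _ _
  have hθ₁2 : θ₁ ≤ 1 := min_le_right _ _
  have hθ₁3 : 2 - c < θ₁ := lt_min hθ (by linarith)
  set β := (2 * (2 - c) + θ₁) / 3 with hβ
  set β' := ((2 - c) + 2 * θ₁) / 3 with hβ'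
  have hβ1 : β < 1 := by rw [hβ]; linarith
  have hβ2 : 2 - c < β := by rw [hβ]; linarith
  have hββ' : β < β' := by rw [hβ, hβ']; linarith
  have hβ'0 : 0 < β' := by linarith
  have hβ'1 : β' < 1 := by rw [hβ']; linarith
  have hβ'θ : β' < θ := by rw [hβ']; linarith
  have hθ0 : 0 < θ := by linarith
  have h2β : 0 < (2 : ℝ) ^ (β - 1) := by positivity
  have f1 := ev_log (2 + 2 * Real.log 2 + 2 * c * Real.log 2) (2 * c) (1 / 3) 1 (by norm_num) one_pos
  have f2 := ev_log (2 + 2 * Real.log 2 + 2 * c * Real.log 2) (2 * c) (1 / 2 * (2 : ℝ) ^ (β - 1)) (1 - β) (by positivity) (by linarith)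
  have f3 := ev_log (160 * (p : ℝ) ^ 2 * (3 : ℝ) ^ c) 0 1 (β - (2 - c)) one_pos (by linarith)
  have f4 := ev_log 2 0 β' (β' - β) hβ'0 (by linarith)
  have f5 := ev_log 2 0 1 (1 - β) one_pos (by linarith)
  have f6 := ev_log (Real.log 20) (1 - β) (1 / 4) 1 (by norm_num) one_pos
  have f7 := ev_log 4 0 1 (1 - β') one_pos (by linarith)
  have f8 := ev_log (Real.log (20 * A * p)) (1 - β) ((2 : ℝ) ^ (-θ) / 2) θ (by positivity) hθ0
  have f9 := ev_log 1 0 ((2 : ℝ) ^ (-θ) / 2) (θ - β') (by positivity) (by linarith)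
  obtain ⟨n₁, hn₁⟩ := eventually_atTop.1 ((f1.and f2).and ((f3.and f4).and ((f5.and f6).and ((f7.and f8).and f9))))
  refine ⟨n₁, fun T hT hsum => ?_⟩
  -- data of the cover
  set d : ℕ → ℝ := fun i => (Metric.ediam (T i)).toReal with hd
  have hdtop : ∀ i, Metric.ediam (T i) ≠ ⊤ := fun i => ne_top_of_le_ne_top ENNReal.ofReal_ne_top (hT i)
  have hd0 : ∀ i, 0 ≤ d i := fun i => ENNReal.toReal_nonneg
  have hd1 : ∀ i, d i ≤ 1 / (p : ℝ) ^ (n₁ + 1) := by
    intro i
    have := ENNReal.toReal_mono ENNReal.ofReal_ne_top (hT i)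
    rwa [ENNReal.toReal_ofReal (by positivity)] at this
  set lev : ℕ → ℕ := fun i => if d i = 0 then n₁ + 1 + i else ⌊Real.log (1 / d i) / Real.log p⌋₊ with hlev
  have hlev1 : ∀ i, 0 < d i → 1 / (p : ℝ) ^ (lev i + 1) < d i ∧ d i ≤ 1 / (p : ℝ) ^ (lev i) ∧ n₁ + 1 ≤ lev i := by
    intro i hi
    have hl : lev i = ⌊Real.log (1 / d i) / Real.log p⌋₊ := by simp only [hlev]; rw [if_neg hi.ne']
    have h1 : (n₁ + 1 : ℕ) ≤ Real.log (1 / d i) / Real.log p := by
      rw [le_div_iff₀ (by linarith), ← Real.log_pow]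
      apply Real.log_le_log (by positivity)
      have := hd1 i
      rw [le_div_iff₀ (by positivity)] at this
      rw [le_div_iff₀ hi]
      linarith
    have h2 : 0 ≤ Real.log (1 / d i) / Real.log p := le_trans (by positivity) h1
    have h3 := Nat.floor_le h2
    have h4 := Nat.lt_floor_add_one (Real.log (1 / d i) / Real.log p)
    rw [← hl] at h3 h4
    have hlp' : 0 < Real.log p := by linarith
    refine ⟨?_, ?_, ?_⟩
    · rw [div_lt_iff₀ hlp'] at h4
      have h5 : Real.log (1 / d i) < Real.log ((p : ℝ) ^ (lev i + 1)) := by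
        rw [Real.log_pow]; push_cast; exact h4
      have h6 := (Real.log_lt_log_iff (by positivity) (by positivity)).1 h5
      rw [div_lt_iff₀ hi] at h6
      rw [div_lt_iff₀ (by positivity)]
      linarith
    · rw [le_div_iff₀ hlp'] at h3
      have h5 : Real.log ((p : ℝ) ^ (lev i)) ≤ Real.log (1 / d i) := by
        rw [Real.log_pow]; exact h3
      have h6 := (Real.log_le_log_iff (by positivity) (by positivity)).1 h5
      rw [le_div_iff₀ hi] at h6
      rw [le_div_iff₀ (by positivity)]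
      linarith
    · rw [hl]
      exact Nat.le_floor h1
  have hlev0 : ∀ i, n₁ + 1 ≤ lev i := by
    intro i
    rcases (hd0 i).eq_or_lt with h | h
    · simp only [hlev]; rw [if_pos h.symm]; omega
    · exact (hlev1 i h).2.2
  have hb : ∀ i, ∃ b : ℝ, (T i).Nonempty → b ∈ T i := by
    intro i
    by_cases h : (T i).Nonempty
    · obtain ⟨b, hb⟩ := h; exact ⟨b, fun _ => hb⟩
    · exact ⟨0, fun h' => absurd h' h⟩
  choose b hb using hb
  set pts : ℕ → Set ℝ := fun n => {y | ∃ i, (T i).Nonempty ∧ lev i = n ∧ b i = y} with hpts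
  obtain ⟨x, hx0, hx1, hx2, hx3⟩ := tree_main p n₁ hp.two_le (dep p c) (dep_mono p c (by linarith)) (fun k => by unfold dep; omega)
    c β β' (by linarith) (dep_ge p hp c) hβ1 hβ'0.le hβ'1.le
    (by
      intro n hn
      obtain ⟨⟨f1, f2⟩, _⟩ := hn₁ n (by omega)
      have h1 := dep_log p hp c (by linarith) n (by omega)
      rw [Real.rpow_one] at f1
      have h2 : (dep p c n : ℝ) * 3 ≤ n := by linarith
      have h3 : dep p c n * 3 ≤ n := by exact_mod_cast h2
      omega)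
    (by
      intro n hn
      obtain ⟨⟨f1, f2⟩, _⟩ := hn₁ n (by omega)
      have hn0 : (0 : ℝ) < n := by
        have : 0 < n := by omega
        exact_mod_cast this
      have h1 := dep_log p hp c (by linarith) n (by omega)
      have h2 : (dep p c n : ℝ) ≤ 1 / 2 * (2 : ℝ) ^ (β - 1) * (n : ℝ) ^ (1 - β) := h1.trans f2
      have h3 : ((n : ℝ) / 2) ^ (β - 1) = ((2 : ℝ) ^ (β - 1))⁻¹ * ((n : ℝ) ^ (1 - β))⁻¹ := by
        rw [Real.div_rpow hn0.le (by norm_num)]
        have : (n : ℝ) ^ (β - 1) = ((n : ℝ) ^ (1 - β))⁻¹ := by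
          rw [← Real.rpow_neg hn0.le]; congr 1; ring
        rw [this, div_eq_mul_inv, mul_comm]
      rw [h3]
      have h4 : 0 < (n : ℝ) ^ (1 - β) := by positivity
      calc (dep p c n : ℝ) * (((2 : ℝ) ^ (β - 1))⁻¹ * ((n : ℝ) ^ (1 - β))⁻¹) ≤
          (1 / 2 * (2 : ℝ) ^ (β - 1) * (n : ℝ) ^ (1 - β)) * (((2 : ℝ) ^ (β - 1))⁻¹ * ((n : ℝ) ^ (1 - β))⁻¹) := by gcongr
        _ = 1 / 2 := by field_simp)
    (by
      intro n hn
      obtain ⟨_, ⟨f3, _⟩, _⟩ := hn₁ n (by omega)
      have hn1 : (1 : ℝ) ≤ n := by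
        have : 1 ≤ n := by omega
        exact_mod_cast this
      have hn0 : (0 : ℝ) < n := by linarith
      have h1 : (160 * (p : ℝ) ^ 2 * (3 : ℝ) ^ c) ≤ (n : ℝ) ^ (β - (2 - c)) := by linarith
      have h2 : (n : ℝ) ^ (β - 1) = (n : ℝ) ^ (β - (2 - c)) * (n * (n : ℝ) ^ (-c)) := by
        rw [← Real.rpow_one_add' hn0.le (by linarith), ← Real.rpow_add hn0]; congr 1; ring
      rw [h2]
      calc 80 * ((n : ℝ) + 1) * (p : ℝ) ^ 2 * (3 : ℝ) ^ c * (n : ℝ) ^ (-c) ≤
          80 * (2 * n) * (p : ℝ) ^ 2 * (3 : ℝ) ^ c * (n : ℝ) ^ (-c) := by gcongr; linarith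
        _ = (160 * (p : ℝ) ^ 2 * (3 : ℝ) ^ c) * (n * (n : ℝ) ^ (-c)) := by ring
        _ ≤ _ := by gcongr)
    (by
      intro n hn
      obtain ⟨_, ⟨_, f4⟩, ⟨f5, _⟩, _⟩ := hn₁ n (by omega)
      have hn0 : (0 : ℝ) < n := by
        have : 0 < n := by omega
        exact_mod_cast this
      constructor
      · have h1 : (n : ℝ) ^ (β' - 1) = (n : ℝ) ^ (β' - β) * (n : ℝ) ^ (β - 1) := by
          rw [← Real.rpow_add hn0]; congr 1; ring
        rw [h1]
        have h2 : 0 < (n : ℝ) ^ (β - 1) := by positivity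
        nlinarith
      · have h1 : (n : ℝ) ^ (β - 1) = ((n : ℝ) ^ (1 - β))⁻¹ := by
          rw [← Real.rpow_neg hn0.le]; congr 1; ring
        rw [h1]
        have h2 : (2 : ℝ) ≤ (n : ℝ) ^ (1 - β) := by linarith
        rw [inv_le_comm₀ (by linarith) (by norm_num)]
        linarith)
    pts
    (by
      intro n hn X hX
      obtain ⟨_, _, ⟨_, f6⟩, ⟨f7, f8⟩, f9⟩ := hn₁ n (by omega)
      have hn1 : (1 : ℝ) ≤ n := by
        have : 1 ≤ n := by omega
        exact_mod_cast this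
      have hn0 : (0 : ℝ) < n := by linarith
      -- indices
      have h1 : ∀ W : ℕ, ∃ i : ℕ, W ∈ X → (T i).Nonempty ∧ lev i = n ∧ |(W : ℝ) - (p : ℝ) ^ n * b i| ≤ 2 := by
        intro W
        by_cases hW : W ∈ X
        · obtain ⟨y, ⟨i, hi1, hi2, rfl⟩, hy⟩ := hX W hW
          exact ⟨i, fun _ => ⟨hi1, hi2, hy⟩⟩
        · exact ⟨0, fun h => absurd h hW⟩
      choose F hF using h1
      set I := X.image F with hI
      have h2 : (X.card : ℝ) ≤ 5 * I.card := by
        have h3 : X ⊆ I.biUnion (fun i => X.filter (fun W => F W = i)) := by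
          intro W hW
          rw [mem_biUnion]
          exact ⟨F W, mem_image_of_mem _ hW, by rw [mem_filter]; exact ⟨hW, rfl⟩⟩
        have h4 : (X.card : ℝ) ≤ ∑ i ∈ I, ((X.filter (fun W => F W = i)).card : ℝ) := by
          have := (card_le_card h3).trans card_biUnion_le
          exact_mod_cast this
        refine h4.trans ?_
        have h5 : ∀ i ∈ I, ((X.filter (fun W => F W = i)).card : ℝ) ≤ 5 := by
          intro i _
          apply card_near _ ((p : ℝ) ^ n * b i)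
          intro W hW
          rw [mem_filter] at hW
          have := (hF W hW.1).2.2
          rw [hW.2] at this
          exact this
        refine (sum_le_sum h5).trans (le_of_eq ?_)
        rw [sum_const, nsmul_eq_mul]; ring
      have hIprop : ∀ i ∈ I, (T i).Nonempty ∧ lev i = n := by
        intro i hi
        rw [hI, mem_image] at hi
        obtain ⟨W, hW, rfl⟩ := hi
        exact ⟨(hF W hW).1, (hF W hW).2.1⟩
      have h3 : (I.card : ℝ) ≤ 1 + ((I.filter (fun i => 0 < d i)).card : ℝ) := by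
        have h4 : I.card = (I.filter (fun i => 0 < d i)).card + (I.filter (fun i => ¬ 0 < d i)).card :=
          (card_filter_add_card_filter_not _).symm
        have h5 : (I.filter (fun i => ¬ 0 < d i)).card ≤ 1 := by
          rw [card_le_one]
          intro i hi k hk
          rw [mem_filter] at hi hk
          have e1 : d i = 0 := le_antisymm (not_lt.1 hi.2) (hd0 i)
          have e2 : d k = 0 := le_antisymm (not_lt.1 hk.2) (hd0 k)
          have e3 := (hIprop i hi.1).2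
          have e4 := (hIprop k hk.1).2
          simp only [hlev] at e3 e4
          rw [if_pos e1] at e3
          rw [if_pos e2] at e4
          omega
        have h6 : I.card ≤ 1 + (I.filter (fun i => 0 < d i)).card := by omega
        exact_mod_cast h6
      -- the sum
      set I' := I.filter (fun i => 0 < d i) with hI'
      have h4 : (I'.card : ℝ) * (1 / (p : ℝ) ^ (n + 1) * Real.exp ((n * Real.log p) ^ θ)) ≤ A := by
        have h5 : ∀ i ∈ I', ENNReal.ofReal (1 / (p : ℝ) ^ (n + 1) * Real.exp ((n * Real.log p) ^ θ)) ≤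
            ⨆ _ : (T i).Nonempty, gauge θ (Metric.ediam (T i)) := by
          intro i hi
          rw [hI', mem_filter] at hi
          obtain ⟨g1, g2⟩ := hIprop i hi.1
          obtain ⟨g3, g4, g5⟩ := hlev1 i hi.2
          rw [g2] at g3 g4
          rw [iSup_pos g1]
          unfold gauge
          apply ENNReal.ofReal_le_ofReal
          have g6 : (Metric.ediam (T i)).toReal = d i := rfl
          rw [g6]
          have g7 : n * Real.log p ≤ Real.log (1 / d i) := by
            rw [← Real.log_pow]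
            apply Real.log_le_log (by positivity)
            rw [le_div_iff₀ (by positivity)] at g4
            rw [le_div_iff₀ hi.2]
            linarith
          have g8 : (n * Real.log p) ^ θ ≤ Real.log (1 / d i) ^ θ :=
            Real.rpow_le_rpow (by positivity) g7 hθ0.le
          have g9 := Real.exp_le_exp.2 g8
          exact mul_le_mul g3.le g9 (Real.exp_pos _).le hi.2.le
        have h6 : ∑ i ∈ I', ENNReal.ofReal (1 / (p : ℝ) ^ (n + 1) * Real.exp ((n * Real.log p) ^ θ)) ≤ ENNReal.ofReal A :=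
          (sum_le_sum h5).trans ((ENNReal.sum_le_tsum I').trans hsum.le)
        rw [sum_const, nsmul_eq_mul, ← ENNReal.ofReal_natCast, ← ENNReal.ofReal_mul (by positivity)] at h6
        exact (ENNReal.ofReal_le_ofReal_iff hA.le).1 h6
      have h5 : (I'.card : ℝ) ≤ A * (p : ℝ) ^ (n + 1) * Real.exp (-((n * Real.log p) ^ θ)) := by
        have h6 : (I'.card : ℝ) = (I'.card : ℝ) * (1 / (p : ℝ) ^ (n + 1) * Real.exp ((n * Real.log p) ^ θ)) *
            ((p : ℝ) ^ (n + 1) * Real.exp (-((n * Real.log p) ^ θ))) := by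
          have e1 : Real.exp ((n * Real.log p) ^ θ) * Real.exp (-((n * Real.log p) ^ θ)) = 1 := by
            rw [← Real.exp_add]; simp
          have hpn : (p : ℝ) ^ (n + 1) ≠ 0 := by positivity
          calc (I'.card : ℝ) = (I'.card : ℝ) * (1 / (p : ℝ) ^ (n + 1) * (p : ℝ) ^ (n + 1)) * 1 := by field_simp
            _ = _ := by rw [← e1]; ring
        rw [h6]
        calc _ ≤ A * ((p : ℝ) ^ (n + 1) * Real.exp (-((n * Real.log p) ^ θ))) := by
              apply mul_le_mul_of_nonneg_right h4; positivity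
          _ = _ := by ring
      -- comparison
      have hE : Real.exp (-((n : ℝ) ^ β')) ≤ Real.exp (-(((n : ℝ) - 1) ^ β')) := by
        apply Real.exp_le_exp.2
        have : ((n : ℝ) - 1) ^ β' ≤ (n : ℝ) ^ β' := Real.rpow_le_rpow (by linarith) (by linarith) hβ'0.le
        linarith
      have hnβ : (n : ℝ) ^ (β - 1) = Real.exp (-((1 - β) * Real.log n)) := by
        rw [Real.rpow_def_of_pos hn0]; congr 1; ring
      have hpn : (p : ℝ) ^ n = Real.exp (n * Real.log p) := by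
        rw [← Real.log_pow, Real.exp_log (by positivity)]
      have g1 : 5 ≤ 1 / 4 * (p : ℝ) ^ n * (n : ℝ) ^ (β - 1) * Real.exp (-((n : ℝ) ^ β')) := by
        rw [hnβ, hpn]
        have e1 : Real.log 20 ≤ n * Real.log p - (1 - β) * Real.log n - (n : ℝ) ^ β' := by
          rw [Real.rpow_one] at f6
          have e2 : (n : ℝ) ^ β' ≤ 1 / 4 * n := by
            have e3 : (n : ℝ) = (n : ℝ) ^ β' * (n : ℝ) ^ (1 - β') := by
              rw [← Real.rpow_add hn0]; simp
            have e4 : 0 < (n : ℝ) ^ β' := by positivity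
            nlinarith
          nlinarith
        have e2 := Real.exp_le_exp.2 e1
        rw [Real.exp_log (by norm_num)] at e2
        have e3 : 1 / 4 * Real.exp (n * Real.log p) * Real.exp (-((1 - β) * Real.log n)) * Real.exp (-((n : ℝ) ^ β')) =
            1 / 4 * Real.exp (n * Real.log p - (1 - β) * Real.log n - (n : ℝ) ^ β') := by
          rw [mul_assoc, mul_assoc, ← Real.exp_add, ← Real.exp_add]; congr 2; ring
        rw [e3]
        linarith
      have g2 : 5 * (A * (p : ℝ) ^ (n + 1) * Real.exp (-((n * Real.log p) ^ θ))) ≤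
          1 / 4 * (p : ℝ) ^ n * (n : ℝ) ^ (β - 1) * Real.exp (-((n : ℝ) ^ β')) := by
        rw [hnβ]
        have e1 : Real.log (20 * A * p) - (n * Real.log p) ^ θ ≤ -((1 - β) * Real.log n) - (n : ℝ) ^ β' := by
          have e2 : (2 : ℝ) ^ (-θ) * (n : ℝ) ^ θ ≤ (n * Real.log p) ^ θ := by
            have e3 : (2 : ℝ) ^ (-θ) = (1 / 2 : ℝ) ^ θ := by
              rw [Real.rpow_neg (by norm_num), one_div, Real.inv_rpow (by norm_num)]
            rw [e3, ← Real.mul_rpow (by norm_num) hn0.le]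
            apply Real.rpow_le_rpow (by positivity) _ hθ0.le
            nlinarith
          have e4 : (n : ℝ) ^ β' ≤ (2 : ℝ) ^ (-θ) / 2 * (n : ℝ) ^ θ := by
            have e5 : (n : ℝ) ^ θ = (n : ℝ) ^ β' * (n : ℝ) ^ (θ - β') := by
              rw [← Real.rpow_add hn0]; congr 1; ring
            rw [e5]
            have e6 : 0 < (n : ℝ) ^ β' := by positivity
            nlinarith
          linarith
        have e2 := Real.exp_le_exp.2 e1
        rw [Real.exp_sub, Real.exp_log (by positivity), Real.exp_sub] at e2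
        have e3 : 5 * (A * (p : ℝ) ^ (n + 1) * Real.exp (-((n * Real.log p) ^ θ))) =
            1 / 4 * (p : ℝ) ^ n * (20 * A * p / Real.exp ((n * Real.log p) ^ θ)) := by
          rw [Real.exp_neg, pow_succ]
          field_simp
          norm_num
        rw [e3]
        calc 1 / 4 * (p : ℝ) ^ n * (20 * A * p / Real.exp ((n * Real.log p) ^ θ)) ≤
            1 / 4 * (p : ℝ) ^ n * (Real.exp (-((1 - β) * Real.log n)) / Real.exp ((n : ℝ) ^ β')) := by gcongr
          _ = _ := by rw [Real.exp_neg ((n : ℝ) ^ β')]; ring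
      calc (X.card : ℝ) ≤ 5 * I.card := h2
        _ ≤ 5 * (1 + A * (p : ℝ) ^ (n + 1) * Real.exp (-((n * Real.log p) ^ θ))) := by gcongr; linarith
        _ = 5 + 5 * (A * (p : ℝ) ^ (n + 1) * Real.exp (-((n * Real.log p) ^ θ))) := by ring
        _ ≤ 1 / 4 * (p : ℝ) ^ n * (n : ℝ) ^ (β - 1) * Real.exp (-((n : ℝ) ^ β')) + 1 / 4 * (p : ℝ) ^ n * (n : ℝ) ^ (β - 1) * Real.exp (-((n : ℝ) ^ β')) := by linarith
        _ = 1 / 2 * (p : ℝ) ^ n * (n : ℝ) ^ (β - 1) * Real.exp (-((n : ℝ) ^ β')) := by ring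
        _ ≤ _ := by gcongr)
  refine ⟨x, hx0, hx1, ?_, ?_⟩
  · -- the point is exceptional
    set N := max (p ^ (n₁ + 3)) ⌈2 * (p : ℝ) ^ 2 * (4 : ℝ) ^ c⌉₊ with hN
    refine ⟨N, fun j m hNq hm1 _ => ?_⟩
    set t := Nat.log p m with ht
    have hm0 : (0 : ℝ) < m := by exact_mod_cast hm1
    have ht1 : p ^ t ≤ m := Nat.pow_log_le_self p (by omega)
    have ht2 : m < p ^ (t + 1) := Nat.lt_pow_succ_log_self hp.one_lt m
    have hq : p ^ (n₁ + 3) ≤ p ^ j * m := (le_max_left _ _).trans hNq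
    have hjt : n₁ + 2 ≤ j + t := by
      have h1 : p ^ (n₁ + 3) < p ^ (j + t + 1) := by
        calc p ^ (n₁ + 3) ≤ p ^ j * m := hq
          _ < p ^ j * p ^ (t + 1) := Nat.mul_lt_mul_of_pos_left ht2 (pow_pos hp.pos _)
          _ = p ^ (j + t + 1) := by rw [← pow_add]; congr 1
      have := (Nat.pow_lt_pow_iff_right hp.one_lt).1 h1
      omega
    set z := (p : ℝ) ^ j * m * x with hz
    have hpj : (0 : ℝ) < (p : ℝ) ^ j * m := by positivity
    have hz0 : 0 ≤ z := by positivity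
    have hz1 : z ≤ (p : ℝ) ^ j * m := by rw [hz]; nlinarith
    have hr := abs_sub_round z
    rw [abs_le] at hr
    have hpj1 : (1 : ℝ) ≤ (p : ℝ) ^ j * m := by
      have : 1 ≤ p ^ j * m := Nat.mul_pos (pow_pos hp.pos _) hm1
      exact_mod_cast this
    have hyQ : (round z : ℝ) / ((p : ℝ) ^ j * m) ∈ QQ p j t := by
      rw [mem_QQ]
      refine ⟨m, round z, hm1, ht2, ?_, ?_, rfl⟩
      · have : (-((p : ℝ) ^ j * m)) ≤ (round z : ℝ) := by linarith
        exact_mod_cast this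
      · have : (round z : ℝ) ≤ 2 * ((p : ℝ) ^ j * m) := by linarith
        exact_mod_cast this
    have h1 := hx2 j t (by unfold dep; omega) _ hyQ
    have h2 : nint z = (p : ℝ) ^ j * m * |x - (round z : ℝ) / ((p : ℝ) ^ j * m)| := by
      unfold nint
      rw [← abs_of_pos hpj, ← abs_mul, abs_of_pos hpj]
      congr 1
      rw [mul_sub, mul_div_cancel₀ _ hpj.ne']
    have h3 : 1 / (p : ℝ) ^ (dep p c (j + t)) ≤ m * nint z := by
      rw [h2]
      have h4 : (p : ℝ) ^ t ≤ m := by exact_mod_cast ht1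
      have e1 : 1 / (p : ℝ) ^ (dep p c (j + t)) = (p : ℝ) ^ t * ((p : ℝ) ^ j * (p : ℝ) ^ t * (1 / (p : ℝ) ^ (j + 2 * t + dep p c (j + t)))) := by
        rw [pow_add, pow_add, two_mul, pow_add]
        field_simp
      rw [e1]
      gcongr
    have h4 := dep_le p hp c (by linarith) (j + t)
    have hlog : (j + t : ℕ) * Real.log p ≤ Real.log ((p : ℝ) ^ j * m) := by
      rw [← Real.log_pow]
      apply Real.log_le_log (by positivity)
      rw [pow_add]
      have h4 : (p : ℝ) ^ t ≤ m := by exact_mod_cast ht1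
      gcongr
    have hjt1 : (1 : ℝ) ≤ ((j + t : ℕ) : ℝ) := by
      have : 1 ≤ j + t := by omega
      exact_mod_cast this
    have h5 : (((j + t : ℕ) : ℝ) + 1) ≤ 4 * Real.log ((p : ℝ) ^ j * m) := by nlinarith
    have h6 : (((j + t : ℕ) : ℝ) + 1) ^ c ≤ (4 : ℝ) ^ c * Real.log ((p : ℝ) ^ j * m) ^ c := by
      rw [← Real.mul_rpow (by norm_num) (Real.log_nonneg hpj1)]
      exact Real.rpow_le_rpow (by positivity) h5 (by linarith)
    have hΛ : 0 < Real.log ((p : ℝ) ^ j * m) ^ c := by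
      apply Real.rpow_pos_of_pos
      nlinarith
    have h7 : 1 / (2 * (p : ℝ) ^ 2 * ((4 : ℝ) ^ c * Real.log ((p : ℝ) ^ j * m) ^ c)) ≤ m * nint z := by
      refine le_trans ?_ h3
      apply one_div_le_one_div_of_le (by positivity)
      refine h4.trans ?_
      gcongr
    have h8 : 1 / ((N : ℝ) + 1) ≤ 1 / (2 * (p : ℝ) ^ 2 * (4 : ℝ) ^ c) := by
      apply one_div_le_one_div_of_le (by positivity)
      have e1 : 2 * (p : ℝ) ^ 2 * (4 : ℝ) ^ c ≤ (⌈2 * (p : ℝ) ^ 2 * (4 : ℝ) ^ c⌉₊ : ℝ) := Nat.le_ceil _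
      have e2 : (⌈2 * (p : ℝ) ^ 2 * (4 : ℝ) ^ c⌉₊ : ℝ) ≤ N := Nat.cast_le.2 (le_max_right _ _)
      linarith
    refine h8.trans ?_
    have h9 : 1 / (2 * (p : ℝ) ^ 2 * (4 : ℝ) ^ c) = 1 / (2 * (p : ℝ) ^ 2 * ((4 : ℝ) ^ c * Real.log ((p : ℝ) ^ j * m) ^ c)) *
        Real.log ((p : ℝ) ^ j * m) ^ c := by field_simp
    rw [h9]
    calc _ ≤ (m * nint z) * Real.log ((p : ℝ) ^ j * m) ^ c := by gcongr
      _ = _ := by ring
  · -- the point is not covered
    intro i hxi
    have hne : (T i).Nonempty := ⟨x, hxi⟩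
    have h1 := hx3 (lev i) (by have := hlev0 i; omega) (b i) ⟨i, hne, rfl, rfl⟩
    have h2 : |x - b i| ≤ d i := by
      have h3 : edist x (b i) ≤ Metric.ediam (T i) := Metric.edist_le_ediam_of_mem hxi (hb i hne)
      have h4 := ENNReal.toReal_mono (hdtop i) h3
      rw [edist_dist, ENNReal.toReal_ofReal dist_nonneg, Real.dist_eq] at h4
      exact h4
    have h3 : d i ≤ 1 / (p : ℝ) ^ (lev i) := by
      rcases (hd0 i).eq_or_lt with h | h
      · rw [← h]; positivity
      · exact (hlev1 i h).2.1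
    linarith

end Pool.Agent.H587.PD
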